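import Pool.Agent.Lib.MP_fb3619_al.BS.Iface

/-!
# MP_fb3619_al, board WT: at most one wild type (THEOREM W, finding 4559). Statements of the rows.
Paper: `WT/Paper.md`.
-/

set_option autoImplicit false

universe u v

namespace Pool.Agent.FourGp.FF.Wt

open Pool.Agent.FourGp.H47 (Odd' inv_of_sq conj_inv_pow mul_inv_self odd_conj comm_of_inv
  mul_inv_self' comm_pow comm_inv conj_comm comm_conj)
open Pool.Agent.FourGp.H99 (LF)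
open Pool.Agent.FourGp.FF.Abo (XS)
open Pool.Agent.FourGp.FF.Pq (TA)
open Pool.Agent.FourGp.FF.Bs (MinC)

/-! ### Definitions -/

/-- `P_a`: the elements of `F` which centralise the inverted part of `C_K(a)`. -/
def Pv {G : Type u} [Group G] (K : Subgroup G) (a b e : G) : Prop :=
  e ∈ Fx K a b ∧ ∀ u, Mi K a b u → e * u = u * e

/-- The subgroup generated by the commutators of the elements of `X`. -/
def Cm {G : Type u} [Group G] (X : Subgroup G) : Subgroup G :=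
  Subgroup.closure {z | ∃ x ∈ X, ∃ y ∈ X, z = x⁻¹ * y⁻¹ * x * y}

/-- The subgroup `X_a` of finite index of `C_K(a)`, with stable commutator group `Cm X`. -/
structure XW {G : Type u} [Group G] (K : Subgroup G) (a b : G) (X : Subgroup G) : Prop extends
    XS K a b X where
  cen : ∀ e ∈ X, e ∈ Fx K a b → ∀ u, Mi K a b u → e * u = u * e
  cex : ∀ e ∈ X, e ∈ Fx K a b → ∀ x ∈ X, e * x = x * e
  com : ∀ w u, Mi K a b w → Mi K a b u → u ∈ X → ∃ e ∈ X, e ∈ Fx K a b ∧ u⁻¹ * w * u = e * w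
  cm : ∀ x ∈ X, ∀ y ∈ X, x⁻¹ * y⁻¹ * x * y ∈ Fx K a b
  stab : ∀ U : Subgroup G, U ≤ X → U.relIndex X ≠ 0 → Cm X ≤ Cm U

/-- `N(e)`: generated by the elements of `C_K(b)` and `C_K(c)` which are inverted by `a` and
commute with `e`. -/
def Ne {G : Type u} [Group G] (K : Subgroup G) (a b c e : G) : Subgroup G :=
  Subgroup.closure {u | (Mi K b a u ∨ Mi K c a u) ∧ u * e = e * u}

/-- The consumer form of THEOREM Q (finding 4478): a subgroup `Z ≠ 1` of `P_a`, normal in `F`,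
has finitely many fixed points in `C_K(b)` and in `C_K(c)`. -/
def QS : Prop := ∀ (G : Type u) [Group G] (K : Subgroup G) (a b c : G), MinC K a b c →
  ∀ Z : Subgroup G, (∀ z ∈ Z, Pv K a b z) → (∀ f ∈ Fx K a b, ∀ z ∈ Z, f⁻¹ * z * f ∈ Z) →
  Z ≠ ⊥ →
  {x | x ∈ Cz K b ∧ ∀ z ∈ Z, x * z = z * x}.Finite ∧
  {x | x ∈ Cz K c ∧ ∀ z ∈ Z, x * z = z * x}.Finite

/-! ### Abstract rows -/

/-- KAP (paper 2): quadratic maps into finite groups. -/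
def KapS : Prop := ∀ (X : Type u) [Group X] (A : Type v) [CommGroup A] [Finite A] (κ : X → A),
  (∀ x, ∃ U : Subgroup X, U.index ≠ 0 ∧ ∀ y ∈ U, κ (x * y) = κ x * κ y) →
  (∃ (X1 : Subgroup X) (S : Subgroup A), X1.index ≠ 0 ∧
    ∀ U : Subgroup X, U ≤ X1 → U.index ≠ 0 → ∀ s, s ∈ S ↔ ∃ x ∈ U, κ x = s) ∧
  ∀ Y : Subgroup X, (∀ x, κ x = 1 → x ∈ Y) → Y.index ≠ 0

/-- ADA (paper 3): finitely many elements of order `p`. -/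
def AdaS : Prop := ∀ (V : Type u) [AddCommGroup V] (Z : Type u) [CommGroup Z] [Finite Z]
  (ρ : Z →* AddMonoid.End V) (p : ℕ), p.Prime → (∀ z : Z, z ^ p = 1) →
  {v | ∀ z, ρ z v = v}.Finite → {v : V | p • v = 0}.Finite

/-- ADB (paper 3): the index of `p V`. -/
def AdbS : Prop := ∀ (V : Type u) [AddCommGroup V] (p : ℕ), p.Prime →
  (∀ v : V, ∃ n : ℕ, n ≠ 0 ∧ n • v = 0) → {v : V | p • v = 0}.Finite →
  ∀ (m : ℕ) (W : AddSubgroup V), (∀ v : V, p ^ m • v ∈ W) → W.index ≠ 0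

/-- ADC (paper 3): the sum of the fixed points of the subgroups with cyclic quotient. -/
def AdcS : Prop := ∀ (V : Type u) [AddCommGroup V] (Z : Type u) [CommGroup Z] [Finite Z]
  (ρ : Z →* AddMonoid.End V) (p : ℕ), p.Prime → (∀ z : Z, z ^ p = 1) →
  ∀ W : AddSubgroup V, (∀ (U : Subgroup Z) (e : Z), U ⊔ Subgroup.zpowers e = ⊤ →
    ∀ v, (∀ u ∈ U, ρ u v = v) → v ∈ W) → ∃ m : ℕ, ∀ v : V, p ^ m • v ∈ W

/-- ADD (paper 3): a subgroup of finite index. -/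
def AddS : Prop := ∀ (V : Type u) [AddCommGroup V] (Z : Type u) [CommGroup Z] [Finite Z]
  (ρ : Z →* AddMonoid.End V) (p : ℕ), p.Prime → (∀ z : Z, z ^ p = 1) →
  (∀ v : V, ∃ n : ℕ, n ≠ 0 ∧ n • v = 0) → {v | ∀ z, ρ z v = v}.Finite →
  ∀ H : AddSubgroup V, (∀ (U : Subgroup Z) (e : Z), U ⊔ Subgroup.zpowers e = ⊤ →
    ∃ e' : Z, U ⊔ Subgroup.zpowers e' = ⊤ ∧ ∃ (I J : AddSubgroup V),
      (∀ v, v ∈ J ↔ ∀ u ∈ U, ρ u v = v) ∧ I.relIndex J ≠ 0 ∧ ∀ v ∈ I, ρ e' v - v ∈ H) →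
  H.index ≠ 0

/-- IDX (paper 4): the same in a group `X` of class two. -/
def IdxS : Prop := ∀ (G : Type u) [Group G] (X Q Z X1 L : Subgroup G) (p : ℕ), p.Prime →
  (Q : Set G).Finite → Q ≤ X → (∀ x ∈ X, ∃ n : ℕ, n ≠ 0 ∧ x ^ n = 1) →
  (∀ x ∈ X, ∀ y ∈ X, x⁻¹ * y⁻¹ * x * y ∈ Q) → (∀ q ∈ Q, ∀ x ∈ X, q * x = x * q) →
  (Z : Set G).Finite → (∀ z ∈ Z, z ^ p = 1) → (∀ z ∈ Z, ∀ z' ∈ Z, z * z' = z' * z) →
  (∀ z ∈ Z, ∀ x ∈ X, z⁻¹ * x * z ∈ X) → (∀ z ∈ Z, ∀ q ∈ Q, z * q = q * z) →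
  {x | x ∈ X ∧ ∀ z ∈ Z, x * z = z * x}.Finite → X1 ≤ X → X1.relIndex X ≠ 0 → L ≤ X →
  (∀ U : Subgroup G, U ≤ Z → ∀ e ∈ Z, U ⊔ Subgroup.zpowers e = Z →
    ∃ e' ∈ Z, U ⊔ Subgroup.zpowers e' = Z ∧ ∀ x ∈ X1, (∀ u ∈ U, x * u = u * x) →
      (∀ z ∈ Z, x * (z⁻¹ * x * z) = (z⁻¹ * x * z) * x) → x⁻¹ * (e'⁻¹ * x * e') ∈ L) →
  L.relIndex X ≠ 0

/-- SUR (paper 5): surjectivity. -/
def SurS : Prop := ∀ (G : Type u) [Group G] (X Q : Subgroup G) (e : G) (p : ℕ), p.Prime →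
  p ≠ 2 → e ^ p = 1 → (Q : Set G).Finite → Q ≤ X → (∀ x ∈ X, ∃ n : ℕ, n ≠ 0 ∧ x ^ n = 1) →
  (∀ x ∈ X, ∀ y ∈ X, x⁻¹ * y⁻¹ * x * y ∈ Q) → (∀ q ∈ Q, ∀ x ∈ X, q * x = x * q) →
  (∀ x ∈ X, e⁻¹ * x * e ∈ X) → (∀ q ∈ Q, e * q = q * e) →
  {x | x ∈ X ∧ x * e = e * x}.Finite →
  (∀ U : Subgroup G, U ≤ X → U.relIndex X ≠ 0 → Q ≤ Cm U) →
  ∀ q ∈ Q, ∃ x ∈ X, (e * x * e⁻¹)⁻¹ * x⁻¹ * (e * x * e⁻¹) * x = q

/-! ### Rows about four-groups -/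

/-- XWE (paper 1): existence of `X_a`. -/
def XweS : Prop := ∀ (G : Type u) [Group G] (K : Subgroup G) (a b c : G), Fr K a b c →
  (Fx K a b : Set G).Finite → ∃ X : Subgroup G, XW K a b X

/-- XWT (paper 1): if `X_a` is abelian then the type `a` is tame. -/
def XwtS : Prop := ∀ (G : Type u) [Group G] (K : Subgroup G) (a b c : G), Fr K a b c →
  (Fx K a b : Set G).Finite → ∀ X : Subgroup G, XW K a b X → Cm X = ⊥ →
  (TA K a b).relIndex (Cz K a) ≠ 0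

/-- PAB (paper 1): `P_a ∩ P_b = 1` and `[P_a, P_b] = 1`. -/
def PabS : Prop := ∀ (G : Type u) [Group G] (K : Subgroup G) (a b c : G), Fr K a b c →
  (Fx K a b : Set G).Finite → NoLf K a b →
  (∀ e, Pv K a b e → Pv K b a e → e = 1) ∧ ∀ e f, Pv K a b e → Pv K b a f → e * f = f * e

/-- NNE (paper 6): `N(e)` is normal in `C_K(e)`, and invariant under the four-group. -/
def NneS : Prop := ∀ (G : Type u) [Group G] (K : Subgroup G) (a b c : G), Fr K a b c →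
  ∀ e ∈ Fx K a b, VInv a b (Ne K a b c e) ∧
  ∀ k ∈ K, k * e = e * k → ∀ n ∈ Ne K a b c e, k⁻¹ * n * k ∈ Ne K a b c e

/-- SNE (paper 6): `β⁻¹ β^e` centralises `N(e)` if `β` commutes with `β^e`. -/
def SneS : Prop := ∀ (G : Type u) [Group G] (K : Subgroup G) (a b c : G), Fr K a b c →
  (Fx K a b : Set G).Finite → NoLf K a b → ∀ X : Subgroup G, XW K b a X →
  ∀ e, Pv K a b e → ∀ β ∈ X, Mi K b a β → β * (e⁻¹ * β * e) = (e⁻¹ * β * e) * β →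
  ∀ n ∈ Ne K a b c e, (β⁻¹ * (e⁻¹ * β * e)) * n = n * (β⁻¹ * (e⁻¹ * β * e))

/-- RUC (paper 7): the subgroup `R`. -/
def RucS : Prop := ∀ (G : Type u) [Group G] (K : Subgroup G) (a b c : G), MinC K a b c →
  ∀ Z : Subgroup G, (∀ z ∈ Z, Pv K a b z) → (∀ f ∈ Fx K a b, ∀ z ∈ Z, f⁻¹ * z * f ∈ Z) →
  ∃ R : Subgroup G, R ≤ K ∧ LF R ∧ VInv a b R ∧ (∀ k ∈ Cz K a, ∀ r ∈ R, k⁻¹ * r * k ∈ R) ∧
  ∀ U : Subgroup G, U ≤ Z → U ≠ ⊥ → ∀ r : G, (∀ e ∈ U, r ∈ Ne K a b c e) →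
    (∀ e ∈ Z, e ∉ U → ∀ n ∈ Ne K a b c e, r * n = n * r) → r ∈ R

/-- RFI (paper 7): `R` has finite index in `C_K(b)`. -/
def RfiS : Prop := ∀ (G : Type u) [Group G] (K : Subgroup G) (a b c : G), Fr K a b c →
  (Fx K a b : Set G).Finite → NoLf K a b → ∀ Z : Subgroup G, (∀ z ∈ Z, Pv K a b z) →
  ∀ p : ℕ, p.Prime → (∀ z ∈ Z, z ^ p = 1) → (∀ z ∈ Z, ∀ z' ∈ Z, z * z' = z' * z) →
  (∀ e ∈ Z, Subgroup.zpowers e ≠ Z) → {x | x ∈ Cz K b ∧ ∀ z ∈ Z, x * z = z * x}.Finite →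
  ∀ R : Subgroup G, (∀ U : Subgroup G, U ≤ Z → U ≠ ⊥ → ∀ r : G,
    (∀ e ∈ U, r ∈ Ne K a b c e) →
    (∀ e ∈ Z, e ∉ U → ∀ n ∈ Ne K a b c e, r * n = n * r) → r ∈ R) →
  R.relIndex (Cz K b) ≠ 0

/-- NCP (paper 7): NC'. -/
def NcpS : Prop := ∀ (G : Type u) [Group G] (K : Subgroup G) (a b c : G), MinC K a b c →
  ∀ Z : Subgroup G, (∀ z ∈ Z, Pv K a b z) → (∀ f ∈ Fx K a b, ∀ z ∈ Z, f⁻¹ * z * f ∈ Z) →
  ∀ p : ℕ, p.Prime → (∀ z ∈ Z, z ^ p = 1) → (∀ z ∈ Z, ∀ z' ∈ Z, z * z' = z' * z) →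
  {x | x ∈ Cz K b ∧ ∀ z ∈ Z, x * z = z * x}.Finite →
  {x | x ∈ Cz K c ∧ ∀ z ∈ Z, x * z = z * x}.Finite → ∃ e ∈ Z, Subgroup.zpowers e = Z

/-- PAI (paper 8): the pair lemma. -/
def PaiS : Prop := ∀ (G : Type u) [Group G] (K : Subgroup G) (a b c : G), Fr K a b c →
  (Fx K a b : Set G).Finite → NoLf K a b → ∀ e f m n : G, Pv K a b e → Pv K b a f →
  Mi K b a m → Mi K a b n → Mi K b a (m * (e * m * e⁻¹) * f) →
  Mi K a b (n * (f * n * f⁻¹) * e) → e = 1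

/-- CYC (paper 9): consumer form. -/
def CycS : Prop := ∀ (G : Type u) [Group G] (K : Subgroup G) (a b c : G), MinC K a b c →
  ∀ Z : Subgroup G, (∀ z ∈ Z, Pv K a b z) → (∀ f ∈ Fx K a b, ∀ z ∈ Z, f⁻¹ * z * f ∈ Z) →
  ∀ p : ℕ, p.Prime → (∀ z ∈ Z, z ^ p = 1) → (∀ z ∈ Z, ∀ z' ∈ Z, z * z' = z' * z) →
  ∃ e ∈ Z, Subgroup.zpowers e = Z

/-- W (paper 9): THEOREM W, at most one wild type. -/
def WS : Prop := ∀ (G : Type u) [Group G] (K : Subgroup G) (a b c : G), MinC K a b c →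
  (TA K a b).relIndex (Cz K a) ≠ 0 ∨ (TA K b a).relIndex (Cz K b) ≠ 0

end Pool.Agent.FourGp.FF.Wt
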