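import Pool.Agent.Lib.MP_fb3619_al.WT.Iface
import Pool.Agent.Lib.MP_fb3619_al.BS.Sd
import Pool.Agent.Lib.MP_fb3619_al.AB.Upr

/-!
# MP_fb3619_al, board WT, row NNE (paper 6): the subgroup `N(e)` is normal in `C_K(e)` and
invariant under the four-group
-/

set_option autoImplicit false

universe u

namespace Pool.Agent.FourGp.FF.Wt

open Pool.Agent.FourGp.FF.Bs (SD sd)
open Pool.Agent.FourGp.AB (upr)

section

variable {G : Type u} [Group G] {K L : Subgroup G} {a b c : G} {Q : Type u} [Group Q]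
  {K' : Subgroup Q} {a' b' c' : Q} {ι : Q →* G}

/-- The inverted elements of the sub-frame. -/
theorem nne_mi (s : SD L a b c K' a' b' c' ι) {r t : Q} {x y e : G}
    (hL : L = Cz K e) (hr : ι r = x) (ht : ι t = y) (q : Q) :
    Mi K' r t q ↔ Mi K x y (ι q) ∧ ι q * e = e * ι q := by
  unfold Mi
  rw [mem_Cz, mem_Cz, s.mem q, hL, mem_Cz, s.comm hr]
  have h1 : t * q * t = q⁻¹ ↔ y * ι q * y = (ι q)⁻¹ := by
    rw [← ht, ← map_mul, ← map_mul, ← map_inv]
    exact ⟨fun h => congrArg ι h, fun h => s.inj h⟩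
  rw [h1]
  tauto

/-- `N(e)` is the image of the subgroup `Uc` of the sub-frame. -/
theorem nne_map (s : SD L a b c K' a' b' c' ι) {e : G} (hL : L = Cz K e) :
    (Uc K' b' a' c').map ι = Ne K a b c e := by
  unfold Uc Ne
  rw [MonoidHom.map_closure]
  congr 1
  ext x
  constructor
  · rintro ⟨q, hq | hq, rfl⟩
    · have h1 := (nne_mi s hL s.eb s.ea q).1 hq
      exact ⟨Or.inl h1.1, h1.2⟩
    · have h1 := (nne_mi s hL s.ec s.ea q).1 hq
      exact ⟨Or.inr h1.1, h1.2⟩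
  · rintro ⟨hx, hxe⟩
    have hxL : x ∈ L := by
      rw [hL, mem_Cz]
      refine ⟨?_, hxe⟩
      rcases hx with hx | hx
      · exact (mem_Cz.1 hx.1).1
      · exact (mem_Cz.1 hx.1).1
    obtain ⟨q, rfl⟩ := s.sur x hxL
    refine ⟨q, ?_, rfl⟩
    rcases hx with hx | hx
    · exact Or.inl ((nne_mi s hL s.eb s.ea q).2 ⟨hx, hxe⟩)
    · exact Or.inr ((nne_mi s hL s.ec s.ea q).2 ⟨hx, hxe⟩)

end

/-- Row NNE. -/
theorem nne : NneS.{u} := by
  intro G _ K a b c h e he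
  obtain ⟨heK, hea, heb⟩ := mem_Fx.1 he
  have hV : VInv a b (Cz K e) := by
    refine ⟨fun x hx => ?_, fun x hx => ?_⟩
    · obtain ⟨hxK, hxe⟩ := mem_Cz.1 hx
      have c1 : Commute e a := hea
      have c2 : Commute x e := hxe
      exact mem_Cz.2 ⟨h.cjmem h.aa hxK, ((c1.symm.mul_left c2).mul_left c1.symm).eq⟩
    · obtain ⟨hxK, hxe⟩ := mem_Cz.1 hx
      have c1 : Commute e b := heb
      have c2 : Commute x e := hxe
      exact mem_Cz.2 ⟨h.cjmem h.bb hxK, ((c1.symm.mul_left c2).mul_left c1.symm).eq⟩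
  obtain ⟨Q, _, K', a', b', c', ι, s⟩ := sd G K a b c h (Cz K e) inf_le_left hV
  obtain ⟨h1, h2⟩ := upr Q K' b' a' c' s.fr.swap
  have hm := nne_map (K := K) s (e := e) rfl
  refine ⟨?_, ?_⟩
  · rw [← hm]
    exact (s.vinv _).1 ⟨h2.2, h2.1⟩
  · intro k hk hke n hn
    have h3 := (s.norm (Z := Uc K' b' a' c')).1 h1 k (mem_Cz.2 ⟨hk, hke⟩)
    rw [hm] at h3
    exact h3 n hn

end Pool.Agent.FourGp.FF.Wt
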