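import Pool.Agent.Lib.MP_fb3619_al.WT.Iface

/-!
# MP_fb3619_al, board WT, row ADA (paper 3): finitely many elements of order `p`
-/

set_option autoImplicit false

universe u

namespace Pool.Agent.FourGp.FF.Wt

/-- `(e - 1)^p = 0` on the elements of order `p`. -/
theorem ada_pow {V : Type u} [AddCommGroup V] (g : AddMonoid.End V) {p : ℕ} (hp : p.Prime)
    (hg : g ^ p = 1) {v : V} (hv : p • v = 0) : ((g - 1) ^ p) v = 0 := by
  have hc : Commute g (-1 : AddMonoid.End V) := (Commute.one_right g).neg_right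
  obtain ⟨r, hr⟩ := hc.exists_add_pow_prime_eq hp
  have h1 : ∃ s : AddMonoid.End V, (g - 1) ^ p = (p : AddMonoid.End V) * s := by
    rw [sub_eq_add_neg, hr, hg]
    rcases hp.eq_two_or_odd' with rfl | h2
    · refine ⟨1 + g * (-1) * r, ?_⟩
      rw [mul_add, mul_one, ← mul_assoc, ← mul_assoc, even_two.neg_one_pow]
      push_cast
      rw [one_add_one_eq_two]
    · refine ⟨g * (-1) * r, ?_⟩
      rw [h2.neg_one_pow, add_neg_cancel, zero_add, ← mul_assoc, ← mul_assoc]
  obtain ⟨s, hs⟩ := h1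
  rw [hs]
  change (p : AddMonoid.End V) (s v) = 0
  rw [AddMonoid.End.natCast_apply, ← map_nsmul, hv, map_zero]

/-- A set stable under `f` on which a power of `f` vanishes and the kernel of `f` is finite. -/
theorem ada_ker {V : Type u} [AddCommGroup V] (f : AddMonoid.End V) (C : AddSubgroup V)
    (hC : ∀ v ∈ C, f v ∈ C) (h0 : {v | v ∈ C ∧ f v = 0}.Finite) (k : ℕ) :
    {v | v ∈ C ∧ (f ^ k) v = 0}.Finite := by
  induction k with
  | zero =>
    refine (Set.finite_singleton (0 : V)).subset ?_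
    rintro v ⟨-, hv⟩
    exact hv
  | succ k ih =>
    refine Set.Finite.of_finite_fibers f (ih.subset ?_) ?_
    · rintro _ ⟨v, ⟨hv, hv2⟩, rfl⟩
      refine ⟨hC v hv, ?_⟩
      rw [pow_succ] at hv2
      exact hv2
    · rintro _ ⟨w, ⟨hw, -⟩, rfl⟩
      refine (h0.image fun x => w + x).subset ?_
      rintro v ⟨⟨hv, -⟩, hv2⟩
      have hv3 : f v = f w := hv2
      refine ⟨v - w, ⟨C.sub_mem hv hw, ?_⟩, ?_⟩
      · rw [map_sub, hv3, sub_self]
      · change w + (v - w) = v
        abel

theorem ada : AdaS.{u} := by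
  intro V _ Z _ _ ρ p hp hZ hfin
  classical
  -- the elements of order `p` fixed by the elements of `T`
  let C : Finset Z → AddSubgroup V := fun T =>
    { carrier := {v | p • v = 0 ∧ ∀ z ∈ T, ρ z v = v}
      add_mem' := by
        rintro v w ⟨hv, hv2⟩ ⟨hw, hw2⟩
        refine ⟨by rw [smul_add, hv, hw, add_zero], fun z hz => ?_⟩
        rw [map_add, hv2 z hz, hw2 z hz]
      zero_mem' := ⟨smul_zero p, fun z _ => map_zero _⟩
      neg_mem' := by
        rintro v ⟨hv, hv2⟩
        refine ⟨by rw [smul_neg, hv, neg_zero], fun z hz => ?_⟩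
        rw [map_neg, hv2 z hz] }
  have hCm : ∀ T v, v ∈ C T ↔ p • v = 0 ∧ ∀ z ∈ T, ρ z v = v := fun T v => Iff.rfl
  have step : ∀ (e : Z) (T : Finset Z), (C (insert e T) : Set V).Finite →
      (C T : Set V).Finite := by
    intro e T h1
    set f : AddMonoid.End V := ρ e - 1 with hf
    have hfa : ∀ v, f v = ρ e v - v := fun v => rfl
    have hfC : ∀ v ∈ C T, f v ∈ C T := by
      intro v hv
      obtain ⟨hv1, hv2⟩ := (hCm _ _).1 hv
      refine (hCm _ _).2 ⟨by rw [← map_nsmul, hv1, map_zero], fun z hz => ?_⟩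
      have e1 : ρ z (ρ e v) = ρ e (ρ z v) := by
        have : ρ z * ρ e = ρ e * ρ z := by rw [← map_mul, ← map_mul, mul_comm]
        exact DFunLike.congr_fun this v
      rw [hfa, map_sub, e1, hv2 z hz]
    have h0 : {v | v ∈ C T ∧ f v = 0}.Finite := by
      refine h1.subset ?_
      rintro v ⟨hv, hv2⟩
      obtain ⟨hv1, hv3⟩ := (hCm _ _).1 hv
      refine (hCm _ _).2 ⟨hv1, fun z hz => ?_⟩
      rcases Finset.mem_insert.1 hz with rfl | hz
      · rw [hfa, sub_eq_zero] at hv2
        exact hv2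
      · exact hv3 z hz
    refine (ada_ker f (C T) hfC h0 p).subset ?_
    intro v hv
    refine ⟨hv, ada_pow (ρ e) hp ?_ ((hCm _ _).1 hv).1⟩
    rw [← map_pow, hZ, map_one]
  have all : ∀ T : Finset Z, (C T : Set V).Finite → (C ∅ : Set V).Finite := by
    intro T
    induction T using Finset.induction_on with
    | empty => exact id
    | insert e T _ ih => exact fun h => ih (step e T h)
  have hfz : Fintype Z := Fintype.ofFinite Z
  have h1 : (C Finset.univ : Set V).Finite :=
    hfin.subset fun v hv z => ((hCm _ _).1 hv).2 z (Finset.mem_univ z)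
  refine (all _ h1).subset ?_
  intro v hv
  exact (hCm _ _).2 ⟨hv, fun z hz => absurd hz (Finset.notMem_empty z)⟩

end Pool.Agent.FourGp.FF.Wt
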