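import Pool.Agent.Lib.MP_fb3619_al.WT.Iface

/-!
# MP_fb3619_al, board WT, row ADC: the sum of the fixed points of the subgroups with cyclic
quotient contains `p ^ m V`.
-/

set_option autoImplicit false

universe u v

namespace Pool.Agent.FourGp.FF.Wt

section norm

variable {V : Type u} [AddCommGroup V] {Z : Type u} [CommGroup Z] (ρ : Z →* AddMonoid.End V)

/-- The norm of `g`. -/
def nm (p : ℕ) (g : Z) (v : V) : V := ∑ j ∈ Finset.range p, ρ (g ^ j) v

theorem rho_mul (x y : Z) (v : V) : ρ (x * y) v = ρ x (ρ y v) := by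
  rw [map_mul]; rfl

theorem rho_one (v : V) : ρ 1 v = v := by
  rw [map_one]; rfl

theorem rho_comm (x y : Z) (v : V) : ρ x (ρ y v) = ρ y (ρ x v) := by
  rw [← rho_mul, mul_comm, rho_mul]

/-- The stabiliser of a vector. -/
def St (w : V) : Subgroup Z where
  carrier := {z | ρ z w = w}
  one_mem' := rho_one ρ w
  mul_mem' := by
    intro x y hx hy
    simp only [Set.mem_ofPred_eq] at hx hy ⊢
    rw [rho_mul, hy, hx]
  inv_mem' := by
    intro x hx
    simp only [Set.mem_ofPred_eq] at hx ⊢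
    calc ρ x⁻¹ w = ρ x⁻¹ (ρ x w) := by rw [hx]
      _ = w := by rw [← rho_mul, inv_mul_cancel, rho_one]

theorem mem_St {w : V} {z : Z} : z ∈ St ρ w ↔ ρ z w = w := Iff.rfl

theorem nm_fix {p : ℕ} {g : Z} (hg : g ^ p = 1) (v : V) :
    ρ g (nm ρ p g v) = nm ρ p g v := by
  unfold nm
  rw [map_sum]
  have h1 : ∀ j ∈ Finset.range p, ρ g (ρ (g ^ j) v) = ρ (g ^ (j + 1)) v := by
    intro j _
    rw [← rho_mul, pow_succ' g j]
  rw [Finset.sum_congr rfl h1]
  have h2 := Finset.sum_range_succ (fun j => ρ (g ^ j) v) p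
  have h3 := Finset.sum_range_succ' (fun j => ρ (g ^ j) v) p
  rw [h2] at h3
  simp only [hg, pow_zero] at h3
  exact (add_right_cancel h3).symm

theorem nm_rho (p : ℕ) (g y : Z) (v : V) : ρ y (nm ρ p g v) = nm ρ p g (ρ y v) := by
  unfold nm
  rw [map_sum]
  exact Finset.sum_congr rfl fun j _ => rho_comm ρ y (g ^ j) v

theorem nm_add (p : ℕ) (g : Z) (v w : V) : nm ρ p g (v + w) = nm ρ p g v + nm ρ p g w := by
  unfold nm
  rw [← Finset.sum_add_distrib]
  exact Finset.sum_congr rfl fun j _ => map_add _ _ _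

theorem nm_sup {p : ℕ} {g : Z} (hg : g ^ p = 1) {Y : Subgroup Z} {v : V}
    (hv : ∀ y ∈ Y, ρ y v = v) : ∀ z ∈ Y ⊔ Subgroup.zpowers g, ρ z (nm ρ p g v) = nm ρ p g v := by
  have h : Y ⊔ Subgroup.zpowers g ≤ St ρ (nm ρ p g v) := by
    refine sup_le ?_ ?_
    · intro y hy
      rw [mem_St, nm_rho, hv y hy]
    · rw [Subgroup.zpowers_le]
      exact nm_fix ρ hg v
  exact fun z hz => h hz

/-- `j` prime to `p`: the norm of `f ^ j` is the norm of `f`. -/
theorem nm_pow {p : ℕ} (hp : p.Prime) {f : Z} (hf : f ^ p = 1) {j : ℕ} (hj : ¬ p ∣ j) (v : V) :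
    ∑ i ∈ Finset.range p, ρ (f ^ (i * j)) v = nm ρ p f v := by
  unfold nm
  have hmod : ∀ n : ℕ, f ^ n = f ^ (n % p) := by
    intro n
    conv_lhs => rw [← Nat.div_add_mod n p, pow_add, pow_mul, hf, one_pow, one_mul]
  have hinj : Set.InjOn (fun i => i * j % p) (Finset.range p : Set ℕ) := by
    intro i hi i' hi' h
    simp only [Finset.coe_range, Set.mem_Iio] at hi hi'
    have h1 : i * j ≡ i' * j [MOD p] := h
    have hc : Nat.Coprime p j := (Nat.Prime.coprime_iff_not_dvd hp).2 hj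
    have h2 : i ≡ i' [MOD p] := Nat.ModEq.cancel_right_of_coprime hc h1
    have h3 : i % p = i' % p := h2
    rwa [Nat.mod_eq_of_lt hi, Nat.mod_eq_of_lt hi'] at h3
  have hmaps : Set.MapsTo (fun i => i * j % p) (Finset.range p : Set ℕ) (Finset.range p : Set ℕ) := by
    intro i _
    simp only [Finset.coe_range, Set.mem_Iio]
    exact Nat.mod_lt _ hp.pos
  have hsurj : Set.SurjOn (fun i => i * j % p) (Finset.range p : Set ℕ) (Finset.range p : Set ℕ) :=
    Finset.surjOn_of_injOn_of_card_le _ hmaps hinj le_rfl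
  refine Finset.sum_nbij (fun i => i * j % p) ?_ hinj hsurj ?_
  · intro i hi
    exact Finset.mem_coe.1 (hmaps (Finset.mem_coe.2 hi))
  · intro i _
    exact congrArg (fun z => ρ z v) (hmod (i * j))

/-- The identity of the sum over the lines. -/
theorem nm_lines {p : ℕ} (hp : p.Prime) {e f : Z} (hf : f ^ p = 1) (v : V) :
    p • v = (∑ i ∈ Finset.range p, nm ρ p (e * f ^ i) v) + nm ρ p f v -
      ∑ j ∈ Finset.range p, ρ (e ^ j) (nm ρ p f v) := by
  have h1 : ∑ i ∈ Finset.range p, nm ρ p (e * f ^ i) v =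
      ∑ j ∈ Finset.range p, ∑ i ∈ Finset.range p, ρ (e ^ j) (ρ (f ^ (i * j)) v) := by
    unfold nm
    rw [Finset.sum_comm]
    refine Finset.sum_congr rfl fun j _ => Finset.sum_congr rfl fun i _ => ?_
    rw [mul_pow, rho_mul, ← pow_mul]
  have h2 : ∀ j ∈ Finset.range p, ∑ i ∈ Finset.range p, ρ (e ^ j) (ρ (f ^ (i * j)) v) =
      ρ (e ^ j) (nm ρ p f v) + (if j = 0 then p • v - nm ρ p f v else 0) := by
    intro j hj
    rw [← map_sum]
    split_ifs with h0
    · subst h0
      simp only [mul_zero, pow_zero, rho_one, Finset.sum_const, Finset.card_range]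
      abel
    · have hd : ¬ p ∣ j := fun hd =>
        absurd (Nat.le_of_dvd (Nat.pos_of_ne_zero h0) hd) (not_le.2 (Finset.mem_range.1 hj))
      rw [nm_pow ρ hp hf hd, add_zero]
  rw [h1, Finset.sum_congr rfl h2, Finset.sum_add_distrib, Finset.sum_ite_eq',
    if_pos (Finset.mem_range.2 hp.pos)]
  abel

end norm

/-- Row ADC. -/
theorem adc : AdcS.{u} := by
  intro V _ Z _ _ ρ p hp hZ W hW
  have key : ∀ n : ℕ, ∀ Y : Subgroup Z, Y.index ≤ n → ∀ v : V, (∀ y ∈ Y, ρ y v = v) →
      p ^ n • v ∈ W := by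
    intro n
    induction n with
    | zero =>
      intro Y hY
      exact absurd (Nat.le_zero.1 hY) Subgroup.FiniteIndex.index_ne_zero
    | succ n ih =>
      intro Y hY v hv
      by_cases hc : ∃ e : Z, Y ⊔ Subgroup.zpowers e = ⊤
      · obtain ⟨e, he⟩ := hc
        exact W.nsmul_mem (hW Y e he v hv) _
      · have hne : ∀ e : Z, ∃ f, f ∉ Y ⊔ Subgroup.zpowers e := by
          intro e
          by_contra hcon
          push Not at hcon
          exact hc ⟨e, eq_top_iff.2 fun x _ => hcon x⟩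
        obtain ⟨f, hf⟩ := hne 1
        have hfY : f ∉ Y := fun h => hf (Subgroup.mem_sup_left h)
        obtain ⟨e, he⟩ := hne f
        have hidx : ∀ g : Z, g ∉ Y → (Y ⊔ Subgroup.zpowers g).index ≤ n := by
          intro g hg
          have hlt : (Y ⊔ Subgroup.zpowers g).index < Y.index := by
            have h1 : Y ≤ Y ⊔ Subgroup.zpowers g := le_sup_left
            refine Subgroup.index_strictAnti (lt_of_le_of_ne h1 fun h => hg ?_)
            rw [h]
            exact Subgroup.mem_sup_right (Subgroup.mem_zpowers g)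
          omega
        have hstep : ∀ g : Z, g ∉ Y → p ^ n • nm ρ p g v ∈ W := fun g hg =>
          ih _ (hidx g hg) _ (nm_sup ρ (hZ g) hv)
        have hef : ∀ i : ℕ, e * f ^ i ∉ Y := by
          intro i h
          apply he
          have h1 : e = (e * f ^ i) * (f ^ i)⁻¹ := by group
          rw [h1]
          exact (Y ⊔ Subgroup.zpowers f).mul_mem (Subgroup.mem_sup_left h)
            ((Y ⊔ Subgroup.zpowers f).inv_mem (Subgroup.mem_sup_right
              (Subgroup.npow_mem_zpowers f i)))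
        have h3 : ∀ j : ℕ, p ^ n • ρ (e ^ j) (nm ρ p f v) ∈ W := by
          intro j
          refine ih _ (hidx f hfY) _ fun z hz => ?_
          rw [rho_comm, nm_sup ρ (hZ f) hv z hz]
        rw [pow_succ, mul_smul, nm_lines ρ hp (hZ f) (e := e) v, smul_sub, smul_add,
          Finset.smul_sum, Finset.smul_sum]
        refine W.sub_mem (W.add_mem (W.sum_mem fun i _ => hstep _ (hef i)) (hstep f hfY))
          (W.sum_mem fun j _ => h3 j)
  refine ⟨(⊥ : Subgroup Z).index, fun v => key _ ⊥ le_rfl v fun y hy => ?_⟩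
  rw [Subgroup.mem_bot.1 hy, rho_one]

end Pool.Agent.FourGp.FF.Wt
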