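import Pool.Agent.Lib.MP_fb3619_al.WT.Adc

/-!
# MP_fb3619_al, board WT, row ADD: a subgroup of finite index.
-/

set_option autoImplicit false

universe u v

namespace Pool.Agent.FourGp.FF.Wt

section fin

variable {V : Type u} [AddCommGroup V]

theorem fin_sup {W : Type u} [AddCommGroup W] {A B : AddSubgroup W} (hA : (A : Set W).Finite)
    (hB : (B : Set W).Finite) : ((A ⊔ B : AddSubgroup W) : Set W).Finite := by
  refine (hA.add hB).subset ?_
  intro x hx
  obtain ⟨y, hy, z, hz, h⟩ := AddSubgroup.mem_sup.1 hx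
  exact Set.mem_add.2 ⟨y, hy, z, hz, h⟩

theorem fin_map_sup (H : AddSubgroup V) {A B : AddSubgroup V}
    (hA : ((A.map (QuotientAddGroup.mk' H) : AddSubgroup (V ⧸ H)) : Set (V ⧸ H)).Finite)
    (hB : ((B.map (QuotientAddGroup.mk' H) : AddSubgroup (V ⧸ H)) : Set (V ⧸ H)).Finite) :
    (((A ⊔ B).map (QuotientAddGroup.mk' H) : AddSubgroup (V ⧸ H)) : Set (V ⧸ H)).Finite := by
  rw [AddSubgroup.map_sup]
  exact fin_sup hA hB

theorem fin_map_finset (H : AddSubgroup V) {ι : Type u} (B : ι → AddSubgroup V)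
    (hB : ∀ i, (((B i).map (QuotientAddGroup.mk' H) : AddSubgroup (V ⧸ H)) : Set (V ⧸ H)).Finite)
    (s : Finset ι) :
    (((s.sup B).map (QuotientAddGroup.mk' H) : AddSubgroup (V ⧸ H)) : Set (V ⧸ H)).Finite := by
  classical
  induction s using Finset.induction_on with
  | empty =>
    rw [Finset.sup_empty, AddSubgroup.map_bot]
    exact Set.finite_singleton _
  | insert i s _ ih =>
    rw [Finset.sup_insert]
    exact fin_map_sup H (hB i) ih

theorem fin_map_self (H : AddSubgroup V) :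
    ((H.map (QuotientAddGroup.mk' H) : AddSubgroup (V ⧸ H)) : Set (V ⧸ H)).Finite := by
  refine (Set.finite_singleton (0 : V ⧸ H)).subset ?_
  rintro _ ⟨x, hx, rfl⟩
  exact (QuotientAddGroup.eq_zero_iff x).2 hx

theorem fin_map_of (H I J : AddSubgroup V) (d : V →+ V) (hI : I.relIndex J ≠ 0)
    (hd : ∀ v ∈ I, d v ∈ H) :
    (((J.map d).map (QuotientAddGroup.mk' H) : AddSubgroup (V ⧸ H)) : Set (V ⧸ H)).Finite := by
  rw [AddSubgroup.map_map]
  have hle : I ≤ ((QuotientAddGroup.mk' H).comp d).ker := by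
    intro x hx
    rw [AddMonoidHom.mem_ker]
    exact (QuotientAddGroup.eq_zero_iff (d x)).2 (hd x hx)
  have h1 : ((QuotientAddGroup.mk' H).comp d).ker.relIndex J ≠ 0 := by
    intro h0
    apply hI
    have h2 := AddSubgroup.relIndex_dvd_of_le_left J hle
    rw [h0] at h2
    exact Nat.eq_zero_of_zero_dvd h2
  rw [AddSubgroup.relIndex_ker] at h1
  exact Nat.finite_of_card_ne_zero h1

end fin

/-- The fixed points of all of `Z`. -/
def FixZ {V : Type u} [AddCommGroup V] {Z : Type u} [CommGroup Z] (ρ : Z →* AddMonoid.End V) :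
    AddSubgroup V where
  carrier := {v | ∀ z, ρ z v = v}
  zero_mem' := fun z => map_zero _
  add_mem' := fun {x y} hx hy z => by rw [map_add, hx z, hy z]
  neg_mem' := fun {x} hx z => by rw [map_neg, hx z]

/-- Row ADD. -/
theorem add (ada : AdaS.{u}) (adb : AdbS.{u}) : AddS.{u} := by
  classical
  intro V _ Z _ _ ρ p hp hZ htor hfin H hH
  choose! E hE using hH
  -- the difference operators
  have hE' : ∀ U : Subgroup Z, (∃ e, U ⊔ Subgroup.zpowers e = ⊤) → ∃ e' : Z,
      U ⊔ Subgroup.zpowers e' = ⊤ ∧ ∃ (I J : AddSubgroup V),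
      (∀ v, v ∈ J ↔ ∀ u ∈ U, ρ u v = v) ∧ I.relIndex J ≠ 0 ∧ ∀ v ∈ I, ρ e' v - v ∈ H := by
    rintro U ⟨e, he⟩
    exact ⟨E U e, hE U e he⟩
  choose! E2 hE2 I J hJ hI hd using hE'
  let dd : Z → V →+ V := fun e =>
    { toFun := fun v => ρ e v - v
      map_zero' := by rw [map_zero, sub_zero]
      map_add' := fun x y => by rw [map_add]; abel }
  have hdd : ∀ e v, dd e v = ρ e v - v := fun e v => rfl
  let B : Subgroup Z → AddSubgroup V := fun U =>
    if ∃ e, U ⊔ Subgroup.zpowers e = ⊤ then (J U).map (dd (E2 U)) else ⊥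
  have hB : ∀ U, (((B U).map (QuotientAddGroup.mk' H) : AddSubgroup (V ⧸ H)) :
      Set (V ⧸ H)).Finite := by
    intro U
    by_cases hU : ∃ e, U ⊔ Subgroup.zpowers e = ⊤
    · have : B U = (J U).map (dd (E2 U)) := if_pos hU
      rw [this]
      exact fin_map_of H (I U) (J U) _ (hI U hU) fun v hv => hd U hU v hv
    · have : B U = ⊥ := if_neg hU
      rw [this, AddSubgroup.map_bot]
      exact Set.finite_singleton _
  have : Fintype (Subgroup Z) := Fintype.ofFinite _
  let W0 : AddSubgroup V := (H ⊔ FixZ ρ) ⊔ Finset.univ.sup B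
  have hW0 : ((W0.map (QuotientAddGroup.mk' H) : AddSubgroup (V ⧸ H)) : Set (V ⧸ H)).Finite := by
    refine fin_map_sup H (fin_map_sup H (fin_map_self H) ?_) (fin_map_finset H B hB _)
    rw [AddSubgroup.coe_map]
    exact Set.Finite.image _ hfin
  -- `p v` is in `W0` for the fixed points of `U`
  have hpv : ∀ (U : Subgroup Z) (e : Z), U ⊔ Subgroup.zpowers e = ⊤ →
      ∀ v, (∀ u ∈ U, ρ u v = v) → v ∈ W0.comap (nsmulAddMonoidHom p : V →+ V) := by
    intro U e he v hv
    have hU : ∃ e, U ⊔ Subgroup.zpowers e = ⊤ := ⟨e, he⟩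
    rw [AddSubgroup.mem_comap]
    change p • v ∈ W0
    have hn : nm ρ p (E2 U) v ∈ W0 := by
      refine AddSubgroup.mem_sup_left (AddSubgroup.mem_sup_right ?_)
      intro z
      have hz : z ∈ U ⊔ Subgroup.zpowers (E2 U) := by rw [hE2 U hU]; trivial
      exact nm_sup ρ (hZ _) hv z hz
    have hvJ : ∀ z : Z, ρ z v ∈ J U := by
      intro z
      rw [hJ U hU]
      intro u hu
      rw [rho_comm, hv u hu]
    have hBU : B U = (J U).map (dd (E2 U)) := if_pos hU
    have hBW : B U ≤ W0 := le_trans (Finset.le_sup (Finset.mem_univ U)) le_sup_right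
    have hdi : ∀ i : ℕ, ρ (E2 U ^ i) v - v ∈ W0 := by
      intro i
      induction i with
      | zero =>
        rw [pow_zero, rho_one, sub_self]
        exact W0.zero_mem
      | succ i ih =>
        have h1 : ρ (E2 U ^ (i + 1)) v - v =
            dd (E2 U) (ρ (E2 U ^ i) v) + (ρ (E2 U ^ i) v - v) := by
          rw [hdd, pow_succ', rho_mul]
          abel
        rw [h1]
        refine W0.add_mem (hBW ?_) ih
        rw [hBU]
        exact AddSubgroup.mem_map_of_mem _ (hvJ _)
    have h2 : p • v = nm ρ p (E2 U) v - ∑ i ∈ Finset.range p, (ρ (E2 U ^ i) v - v) := by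
      unfold nm
      rw [Finset.sum_sub_distrib, Finset.sum_const, Finset.card_range]
      abel
    rw [h2]
    exact W0.sub_mem hn (W0.sum_mem fun i _ => hdi i)
  obtain ⟨m, hm⟩ := adc V Z ρ p hp hZ _ hpv
  have hW0i : W0.index ≠ 0 := by
    refine adb V p hp htor (ada V Z ρ p hp hZ hfin) (m + 1) W0 fun v => ?_
    have h := hm v
    rw [AddSubgroup.mem_comap] at h
    change p • (p ^ m • v) ∈ W0 at h
    rwa [← mul_smul, ← pow_succ'] at h
  have hHW : H.relIndex W0 ≠ 0 := by
    have h1 : (QuotientAddGroup.mk' H).ker.relIndex W0 ≠ 0 := by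
      rw [AddSubgroup.relIndex_ker]
      have : Finite (W0.map (QuotientAddGroup.mk' H)) := hW0
      exact Nat.card_pos.ne'
    rwa [QuotientAddGroup.ker_mk'] at h1
  have hle : H ≤ W0 := le_trans le_sup_left le_sup_left
  rw [← AddSubgroup.relIndex_mul_index hle]
  exact Nat.mul_ne_zero hHW hW0i

end Pool.Agent.FourGp.FF.Wt
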