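import Pool.Agent.Lib.MP_fb3619_al.WT.Iface

/-!
# MP_fb3619_al, board WT, row CYC: the elementary abelian normal subgroups of `P_a` are cyclic.
-/

set_option autoImplicit false

universe u

namespace Pool.Agent.FourGp.FF.Wt

open Pool.Agent.FourGp.FF.Bs (MinC)

/-- Row CYC: a consequence of THEOREM Q and of row NCP. -/
theorem cyc (hQ : QS.{u}) (hN : NcpS.{u}) : CycS.{u} := by
  intro G _ K a b c hm Z hP hF p hp hZ hab
  by_cases h0 : Z = ⊥
  · exact ⟨1, Z.one_mem, by rw [h0, Subgroup.zpowers_one_eq_bot]⟩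
  · obtain ⟨h1, h2⟩ := hQ G K a b c hm Z hP hF h0
    exact hN G K a b c hm Z hP hF p hp hZ hab h1 h2

end Pool.Agent.FourGp.FF.Wt
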