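import Pool.Agent.Lib.MP_fb3619_al.WT.Iface

/-!
# MP_fb3619_al, board WT, row IDX (paper 4)
-/

set_option autoImplicit false

universe u v

namespace Pool.Agent.FourGp.FF.Wt

/-- Finite fibres. -/
theorem relIndex_of_fib {G : Type u} [Group G] {T : Type v} [Finite T] {C D : Subgroup G}
    (φ : G → T) (h : ∀ x ∈ D, ∀ y ∈ D, φ x = φ y → x * y⁻¹ ∈ C) : C.relIndex D ≠ 0 := by
  classical
  have h1 : ∀ t : T, ∃ r : G, (∃ x ∈ D, φ x = t) → r ∈ D ∧ φ r = t := by
    intro t
    by_cases ht : ∃ x ∈ D, φ x = t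
    · obtain ⟨x, hx, e⟩ := ht
      exact ⟨x, fun _ => ⟨hx, e⟩⟩
    · exact ⟨1, fun h => absurd h ht⟩
  choose r hr using h1
  refine relIndex_of_cover (Set.range r) (Set.finite_range r) ?_
  intro g hg
  obtain ⟨h2, h3⟩ := hr (φ g) ⟨g, hg, rfl⟩
  exact ⟨r (φ g), ⟨_, rfl⟩, h g hg _ h2 h3.symm⟩

theorem kap_mul' {G : Type u} [Group G] {x y p q : G} (h1 : Commute x p) (h2 : Commute x q)
    (h3 : Commute y p) (h4 : Commute y q) :
    (x * p)⁻¹ * (y * q)⁻¹ * (x * p) * (y * q) = (x⁻¹ * y⁻¹ * x * y) * (p⁻¹ * q⁻¹ * p * q) := by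
  have e1 : p⁻¹ * x⁻¹ = x⁻¹ * p⁻¹ := (h1.inv_left.inv_right.eq).symm
  have e2 : q⁻¹ * y⁻¹ = y⁻¹ * q⁻¹ := (h4.inv_left.inv_right.eq).symm
  have c1 : Commute (p⁻¹ * q⁻¹) x := (h1.inv_right.mul_right h2.inv_right).symm
  have c2 : Commute (p⁻¹ * q⁻¹ * p) y :=
    ((h3.inv_right.mul_right h4.inv_right).mul_right h3).symm
  have c3 : Commute p⁻¹ y⁻¹ := h3.inv_left.inv_right.symm
  calc (x * p)⁻¹ * (y * q)⁻¹ * (x * p) * (y * q)
      = (p⁻¹ * x⁻¹) * (q⁻¹ * y⁻¹) * x * p * y * q := by group
    _ = x⁻¹ * (p⁻¹ * y⁻¹) * (q⁻¹ * x) * p * y * q := by rw [e1, e2]; group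
    _ = x⁻¹ * y⁻¹ * (p⁻¹ * q⁻¹ * x) * p * y * q := by rw [c3.eq]; group
    _ = x⁻¹ * y⁻¹ * x * (p⁻¹ * q⁻¹ * p * y) * q := by rw [c1.eq]; group
    _ = (x⁻¹ * y⁻¹ * x * y) * (p⁻¹ * q⁻¹ * p * q) := by rw [c2.eq]; group

section

variable {X : Type u} [Group X] {Q : Subgroup X}

theorem cent_idx [Finite Q] (hc : ∀ x y : X, x⁻¹ * y⁻¹ * x * y ∈ Q) (s : X) :
    (Subgroup.centralizer {s}).index ≠ 0 := by
  have h1 : fi (⊤ : Subgroup X) s := by
    apply fi_of_finite
    refine ((Set.toFinite (Q : Set X)).image fun q => s * q).subset ?_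
    rintro x ⟨g, -, rfl⟩
    refine ⟨s⁻¹ * g⁻¹ * s * g, hc s g, ?_⟩
    simp only []
    group
  unfold fi at h1
  rwa [Subgroup.relIndex_top_right] at h1

/-- The abstract form of IDX. -/
theorem idx_abs (hA : AddS.{u}) (hK : KapS.{u, u}) [Finite Q]
    (hQ : ∀ q ∈ Q, ∀ x : X, q * x = x * q) (hc : ∀ x y : X, x⁻¹ * y⁻¹ * x * y ∈ Q)
    (ht : ∀ x : X, ∃ n : ℕ, n ≠ 0 ∧ x ^ n = 1) {Z : Type u} [CommGroup Z] [Finite Z]
    (ρ : Z → X →* X) (hρ1 : ∀ x, ρ 1 x = x) (hρm : ∀ z z' x, ρ (z * z') x = ρ z (ρ z' x))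
    (hρ : ∀ z, ∀ q ∈ Q, ρ z q = q) {p : ℕ} (hp : p.Prime)
    (hZ : ∀ z : Z, z ^ p = 1) (hfix : {x : X | ∀ z, ρ z x = x}.Finite) {X1 L : Subgroup X}
    (hX1 : X1.index ≠ 0)
    (hL : ∀ (U : Subgroup Z) (e : Z), U ⊔ Subgroup.zpowers e = ⊤ →
      ∃ e' : Z, U ⊔ Subgroup.zpowers e' = ⊤ ∧ ∀ x ∈ X1, (∀ u ∈ U, ρ u x = x) →
        (∀ z, x * ρ z x = ρ z x * x) → x⁻¹ * ρ e' x ∈ L) : L.index ≠ 0 := by
  classical
  have hQn : Q.Normal := ⟨fun q hq g => by
    have e : g * q * g⁻¹ = q := by rw [← hQ q hq g]; group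
    rw [e]; exact hq⟩
  let _ : CommGroup (X ⧸ Q) :=
    { (inferInstance : Group (X ⧸ Q)) with
      mul_comm := by
        intro x y
        induction x using QuotientGroup.induction_on with | _ x => ?_
        induction y using QuotientGroup.induction_on with | _ y => ?_
        rw [← QuotientGroup.mk_mul, ← QuotientGroup.mk_mul, QuotientGroup.eq]
        have := hc y x
        have e : (x * y)⁻¹ * (y * x) = y⁻¹ * x⁻¹ * y * x := by group
        rw [e]; exact this }
  let π : X →* X ⧸ Q := QuotientGroup.mk' Q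
  have hπ : Function.Surjective π := QuotientGroup.mk'_surjective Q
  have hker : π.ker = Q := QuotientGroup.ker_mk' Q
  have hπe : ∀ x y, π x = π y ↔ x⁻¹ * y ∈ Q := fun x y => QuotientGroup.eq
  have hle : ∀ z, Q ≤ Q.comap (ρ z) := fun z q hq => by
    rw [Subgroup.mem_comap]
    have := hρ z q hq
    rw [this]; exact hq
  let τ : Z → (X ⧸ Q →* X ⧸ Q) := fun z => QuotientGroup.map Q Q (ρ z) (hle z)
  have hτ : ∀ z x, τ z (π x) = π (ρ z x) := fun z x => rfl
  let σ : Z →* AddMonoid.End (Additive (X ⧸ Q)) :=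
    { toFun := fun z => (τ z).toAdditive
      map_one' := by
        refine AddMonoidHom.ext fun v => ?_
        obtain ⟨x, hx⟩ := hπ v.toMul
        have e : v = Additive.ofMul (π x) := by rw [hx]; rfl
        rw [e]
        show Additive.ofMul (τ 1 (π x)) = Additive.ofMul (π x)
        rw [hτ, hρ1]
      map_mul' := by
        intro z z'
        refine AddMonoidHom.ext fun v => ?_
        obtain ⟨x, hx⟩ := hπ v.toMul
        have e : v = Additive.ofMul (π x) := by rw [hx]; rfl
        rw [e]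
        show Additive.ofMul (τ (z * z') (π x)) = Additive.ofMul (τ z (τ z' (π x)))
        rw [hτ, hτ, hτ, hρm] }
  have hσ : ∀ z x, σ z (Additive.ofMul (π x)) = Additive.ofMul (π (ρ z x)) := fun z x => rfl
  have hrep : ∀ v : Additive (X ⧸ Q), ∃ x : X, v = Additive.ofMul (π x) := by
    intro v
    obtain ⟨x, hx⟩ := hπ v.toMul
    exact ⟨x, by rw [hx]; rfl⟩
  -- fixed points modulo `Q`
  let FX : Subgroup Z → Subgroup X := fun U =>
    { carrier := {x | ∀ u ∈ U, ρ u x = x}
      mul_mem' := fun {x y} hx hy u hu => by rw [map_mul, hx u hu, hy u hu]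
      one_mem' := fun u _ => map_one _
      inv_mem' := fun {x} hx u hu => by rw [map_inv, hx u hu] }
  let FP : Subgroup Z → Subgroup X := fun U =>
    { carrier := {x | ∀ u ∈ U, x⁻¹ * ρ u x ∈ Q}
      mul_mem' := fun {x y} hx hy u hu => by
        rw [map_mul]
        have e : (x * y)⁻¹ * (ρ u x * ρ u y) = y⁻¹ * (x⁻¹ * ρ u x) * y * (y⁻¹ * ρ u y) := by
          group
        have e2 : y⁻¹ * (x⁻¹ * ρ u x) * y = x⁻¹ * ρ u x := by
          rw [mul_assoc, hQ _ (hx u hu) y]; group
        rw [e, e2]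
        exact Q.mul_mem (hx u hu) (hy u hu)
      one_mem' := fun u _ => by rw [map_one, inv_one, one_mul]; exact Q.one_mem
      inv_mem' := fun {x} hx u hu => by
        rw [map_inv]
        have e : x⁻¹⁻¹ * (ρ u x)⁻¹ = (x * (x⁻¹ * ρ u x) * x⁻¹)⁻¹ := by group
        have e2 : x * (x⁻¹ * ρ u x) * x⁻¹ = x⁻¹ * ρ u x := by
          rw [← hQ _ (hx u hu) x]; group
        rw [e, e2]
        exact Q.inv_mem (hx u hu) }
  have hFXP : ∀ U, (FX U).relIndex (FP U) ≠ 0 := by
    intro U
    have : Finite (U → Q) := inferInstance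
    refine relIndex_of_fib (T := U → Q)
      (fun x u => if h : x⁻¹ * ρ u x ∈ Q then ⟨x⁻¹ * ρ u x, h⟩ else 1) ?_
    intro x hx y hy e u hu
    have e1 := congrFun e ⟨u, hu⟩
    simp only [] at e1
    rw [dif_pos (hx u hu), dif_pos (hy u hu)] at e1
    have e2 : x⁻¹ * ρ u x = y⁻¹ * ρ u y := congrArg Subtype.val e1
    have e3 : ρ u x = x * (y⁻¹ * ρ u y) := by rw [← e2]; group
    rw [map_mul, map_inv, e3]
    group
  have hmono : ∀ {A B : Subgroup X}, A.index ≠ 0 → A.relIndex B ≠ 0 := by
    intro A B hA' h0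
    apply hA'
    rw [← Subgroup.relIndex_top_right]
    exact Subgroup.relIndex_eq_zero_of_le_right le_top h0
  let img : Subgroup X → AddSubgroup (Additive (X ⧸ Q)) := fun Y => (Y.map π).toAddSubgroup
  have himg : ∀ Y x, Additive.ofMul (π x) ∈ img Y ↔ ∃ y ∈ Y, π y = π x := fun Y x => Iff.rfl
  have key := hA (Additive (X ⧸ Q)) Z σ p hp hZ
    (by
      intro v
      obtain ⟨x, rfl⟩ := hrep v
      obtain ⟨n, hn, e⟩ := ht x
      refine ⟨n, hn, ?_⟩
      rw [← ofMul_pow, ← map_pow, e, map_one]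
      rfl)
    (by
      obtain ⟨R, -, hR⟩ := cover_of_relIndex (hFXP ⊤)
      have h1 : (FX ⊤ : Set X).Finite := hfix.subset fun x hx z => hx z trivial
      have h2 : (FP ⊤ : Set X).Finite := by
        refine (h1.image2 (fun x y => x * y) R.finite_toSet).subset ?_
        intro g hg
        obtain ⟨r, hr, h3⟩ := hR g hg
        exact ⟨g * r⁻¹, h3, r, hr, by group⟩
      refine (h2.image fun x => Additive.ofMul (π x)).subset ?_
      intro v hv
      obtain ⟨x, rfl⟩ := hrep v
      refine ⟨x, ?_, rfl⟩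
      intro z _
      exact (hπe x (ρ z x)).1 (Additive.ofMul.injective (hv z)).symm)
    (img L)
    (by
      intro U e hUe
      obtain ⟨e', he', h1⟩ := hL U e hUe
      set Yc : Subgroup X := Subgroup.closure {x | x ∈ X1 ∧ (∀ u ∈ U, ρ u x = x) ∧
        ∀ z, x * ρ z x = ρ z x * x} with hYc
      refine ⟨e', he', img Yc, img (FP U), ?_, ?_, ?_⟩
      · intro v
        constructor
        · intro hv u hu
          obtain ⟨x, rfl⟩ := hrep v
          obtain ⟨y, hy, e1⟩ := (himg _ _).1 hv
          rw [← e1, hσ]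
          exact congrArg Additive.ofMul ((hπe y (ρ u y)).2 (hy u hu)).symm
        · intro hv
          obtain ⟨x, rfl⟩ := hrep v
          refine (himg _ _).2 ⟨x, ?_, rfl⟩
          intro u hu
          exact (hπe x (ρ u x)).1 (Additive.ofMul.injective (hv u hu)).symm
      · show ((Yc.map π).toAddSubgroup).relIndex (((FP U).map π).toAddSubgroup) ≠ 0
        rw [Subgroup.relIndex_toAddSubgroup, Subgroup.relIndex_map_map, hker]
        have h2 : FP U ⊔ Q = FP U := by
          rw [sup_eq_left]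
          intro q hq u hu
          rw [hρ u q hq, inv_mul_cancel]
          exact Q.one_mem
        rw [h2]
        have h3 : Yc.relIndex (FP U) ≠ 0 := by
          refine Subgroup.relIndex_ne_zero_trans ?_ (hFXP U)
          refine Subgroup.relIndex_ne_zero_trans (K := X1 ⊓ FX U) ?_ ?_
          · set X' : Subgroup X := X1 ⊓ FX U with hX'
            let _ : CommGroup Q := { (inferInstance : Group Q) with
              mul_comm := fun x y => Subtype.ext (hQ x x.2 y) }
            have hk := (hK X' (Z → Q) (fun x z => ⟨(x : X)⁻¹ * (ρ z x)⁻¹ * x * ρ z x, hc _ _⟩)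
              (by
                intro x
                refine ⟨(⨅ z, Subgroup.centralizer {ρ z (x : X)}).subgroupOf X', ?_, ?_⟩
                · have h4 : (⨅ z, Subgroup.centralizer {ρ z (x : X)}).index ≠ 0 :=
                    Subgroup.index_iInf_ne_zero fun z => cent_idx hc _
                  exact hmono h4
                · intro y hy
                  have h5 : ∀ z, Commute (y : X) (ρ z x) := by
                    intro z
                    have := (Subgroup.mem_iInf.1 (Subgroup.mem_subgroupOf.1 hy)) z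
                    exact Subgroup.mem_centralizer_singleton_iff.1 this
                  have h6 : Commute (x : X) y := by
                    have := (h5 1).symm
                    rwa [hρ1] at this
                  funext z
                  apply Subtype.ext
                  have h7 : Commute (x : X) (ρ z y) := by
                    have h8 := (h5 z⁻¹).map (ρ z)
                    rw [← hρm, mul_inv_cancel, hρ1] at h8
                    exact h8.symm
                  have h9 : Commute (ρ z x) (ρ z y) := h6.map (ρ z)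
                  show ((x : X) * y)⁻¹ * (ρ z ((x : X) * y))⁻¹ * ((x : X) * y) * ρ z ((x : X) * y) =
                    ((x : X)⁻¹ * (ρ z x)⁻¹ * x * ρ z x) * ((y : X)⁻¹ * (ρ z y)⁻¹ * y * ρ z y)
                  rw [map_mul]
                  exact kap_mul' h6 h7 (h5 z).symm h9)).2 (Yc.subgroupOf X') (by
              intro x hx
              rw [Subgroup.mem_subgroupOf]
              refine Subgroup.subset_closure ⟨x.2.1, x.2.2, fun z => ?_⟩
              have h4 := congrArg Subtype.val (congrFun hx z)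
              have h5 : (x : X)⁻¹ * (ρ z x)⁻¹ * x * ρ z x = 1 := h4
              calc (x : X) * ρ z x = ρ z x * x * ((x : X)⁻¹ * (ρ z x)⁻¹ * x * ρ z x) := by group
                _ = ρ z x * x := by rw [h5, mul_one])
            exact hk
          · rw [Subgroup.inf_relIndex_right]
            exact hmono hX1
        intro h0
        apply h3
        exact Nat.eq_zero_of_zero_dvd (h0 ▸ Subgroup.relIndex_dvd_of_le_left (FP U)
          (le_sup_left : Yc ≤ Yc ⊔ Q))
      · intro v hv
        obtain ⟨x, rfl⟩ := hrep v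
        obtain ⟨y, hy, e1⟩ := (himg _ _).1 hv
        rw [← e1]
        clear e1 hv x
        rw [hYc] at hy
        refine Subgroup.closure_induction (p := fun y _ =>
          σ e' (Additive.ofMul (π y)) - Additive.ofMul (π y) ∈ img L) ?_ ?_ ?_ ?_ hy
        · rintro x ⟨hx1, hx2, hx3⟩
          have h4 := h1 x hx1 hx2 hx3
          have h5 : Additive.ofMul (π (x⁻¹ * ρ e' x)) ∈ img L := (himg _ _).2 ⟨_, h4, rfl⟩
          have e2 : σ e' (Additive.ofMul (π x)) - Additive.ofMul (π x) =
              Additive.ofMul (π (x⁻¹ * ρ e' x)) := by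
            rw [hσ, map_mul, map_inv, ofMul_mul, ofMul_inv]
            abel
          rw [e2]
          exact h5
        · rw [map_one, ofMul_one, map_zero, sub_zero]
          exact (img L).zero_mem
        · intro x y _ _ hx hy
          have e2 : σ e' (Additive.ofMul (π (x * y))) - Additive.ofMul (π (x * y)) =
              (σ e' (Additive.ofMul (π x)) - Additive.ofMul (π x)) +
              (σ e' (Additive.ofMul (π y)) - Additive.ofMul (π y)) := by
            rw [map_mul, ofMul_mul, map_add]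
            abel
          rw [e2]
          exact (img L).add_mem hx hy
        · intro x _ hx
          have e2 : σ e' (Additive.ofMul (π x⁻¹)) - Additive.ofMul (π x⁻¹) =
              -(σ e' (Additive.ofMul (π x)) - Additive.ofMul (π x)) := by
            rw [map_inv, ofMul_inv, map_neg]
            abel
          rw [e2]
          exact (img L).neg_mem hx)
  have k2 : (L.map π).index ≠ 0 := by
    have e : (img L).index = (L.map π).index := Subgroup.index_toAddSubgroup
    rw [← e]; exact key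
  have k3 : (L ⊔ Q).index ≠ 0 := by
    rw [Subgroup.index_map, hker] at k2
    exact left_ne_zero_of_mul k2
  have k4 : L.relIndex (L ⊔ Q) ≠ 0 := by
    refine relIndex_of_cover (Q : Set X) (Set.toFinite _) ?_
    intro g hg
    obtain ⟨l, hl, q, hq, rfl⟩ := Subgroup.mem_sup_of_normal_right.1 hg
    exact ⟨q, hq, by simpa using hl⟩
  rw [← Subgroup.relIndex_mul_index (le_sup_left : L ≤ L ⊔ Q)]
  exact mul_ne_zero k4 k3

end

/-- **Row IDX.** -/
theorem idx (hA : AddS.{u}) (hK : KapS.{u, u}) : IdxS.{u} := by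
  classical
  intro G _ X Q Z X1 L p hp hQf hQX ht hc hQ hZf hZp hZc hZX hZQ hfix _ hX1i hLX hL
  let _ : CommGroup Z := { (inferInstance : Group Z) with
    mul_comm := fun x y => Subtype.ext (hZc x x.2 y y.2) }
  have hQfin : Finite Q := hQf
  have hZfin : Finite Z := hZf
  have hQ'f : Finite (Q.subgroupOf X) :=
    Finite.of_injective (fun q : Q.subgroupOf X => (⟨(q : X), q.2⟩ : Q)) (fun x y e => by
      have e1 := congrArg (fun t : Q => (t : G)) e
      exact Subtype.ext (Subtype.ext e1))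
  let ρ : Z → X →* X := fun z =>
    { toFun := fun x => ⟨(z : G)⁻¹ * x * z, hZX z z.2 x x.2⟩
      map_one' := Subtype.ext (by
        show (z : G)⁻¹ * 1 * z = 1
        group)
      map_mul' := fun x y => Subtype.ext (by
        show (z : G)⁻¹ * (x * y) * z = ((z : G)⁻¹ * x * z) * ((z : G)⁻¹ * y * z)
        group) }
  have hρ : ∀ z x, ((ρ z x : X) : G) = (z : G)⁻¹ * x * z := fun z x => rfl
  have hfx : ∀ (z : Z) (x : X), ρ z x = x ↔ (x : G) * z = z * x := by
    intro z x
    rw [Subtype.ext_iff, hρ]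
    constructor
    · intro e
      calc (x : G) * z = z * ((z : G)⁻¹ * x * z) := by group
        _ = z * x := by rw [e]
    · intro e
      rw [mul_assoc, e]
      group
  refine idx_abs (X := X) (Q := Q.subgroupOf X) hA hK (Z := Z) ?_ ?_ ?_ ρ ?_ ?_ ?_ hp ?_ ?_
    (X1 := X1.subgroupOf X) (L := L.subgroupOf X) hX1i ?_
  · intro q hq x
    exact Subtype.ext (hQ q hq x x.2)
  · intro x y
    exact hc x x.2 y y.2
  · intro x
    obtain ⟨n, hn, e⟩ := ht x x.2
    exact ⟨n, hn, Subtype.ext (by rw [SubmonoidClass.coe_pow, e]; rfl)⟩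
  · intro x
    apply Subtype.ext
    rw [hρ]
    show (1 : G)⁻¹ * x * 1 = x
    group
  · intro z z' x
    apply Subtype.ext
    rw [hρ, hρ, hρ]
    have e : ((z * z' : Z) : G) = (z' : G) * z := by
      rw [mul_comm z z']; rfl
    rw [e]
    group
  · intro z q hq
    rw [hfx]
    exact (hZQ z z.2 q hq).symm
  · intro z
    exact Subtype.ext (by rw [SubmonoidClass.coe_pow, hZp z z.2]; rfl)
  · have h1 : (Subtype.val '' {x : X | ∀ z, ρ z x = x}).Finite := by
      refine hfix.subset ?_
      rintro _ ⟨x, hx, rfl⟩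
      exact ⟨x.2, fun z hz => (hfx ⟨z, hz⟩ x).1 (hx ⟨z, hz⟩)⟩
    exact Set.Finite.of_finite_image h1 Subtype.val_injective.injOn
  · intro U' e hUe
    have hmap : ∀ e : Z, (U' ⊔ Subgroup.zpowers e).map Z.subtype =
        U'.map Z.subtype ⊔ Subgroup.zpowers (e : G) := by
      intro e
      rw [Subgroup.map_sup, MonoidHom.map_zpowers]
      rfl
    have htop : (⊤ : Subgroup Z).map Z.subtype = Z := by
      rw [← MonoidHom.range_eq_map, Subgroup.range_subtype]
    obtain ⟨e', he'Z, he', h1⟩ := hL (U'.map Z.subtype) (by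
      rintro _ ⟨u, -, rfl⟩
      exact u.2) e e.2 (by rw [← hmap, hUe, htop])
    refine ⟨⟨e', he'Z⟩, ?_, ?_⟩
    · apply Subgroup.map_injective Z.subtype_injective
      rw [hmap, htop]
      exact he'
    · intro x hx hxU hxZ
      rw [Subgroup.mem_subgroupOf]
      refine h1 x hx ?_ ?_
      · rintro _ ⟨u, hu, rfl⟩
        exact (hfx u x).1 (hxU u hu)
      · intro z hz
        exact congrArg Subtype.val (hxZ ⟨z, hz⟩)

end Pool.Agent.FourGp.FF.Wt
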