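import Pool.Agent.Lib.MP_fb3619_al.WT.Iface

/-!
# MP_fb3619_al, board WT, row KAP (paper 2): quadratic maps into finite groups
-/

set_option autoImplicit false

universe u v

namespace Pool.Agent.FourGp.FF.Wt

/-- Powers in a set closed under multiplication. -/
theorem kap_pow {A : Type v} [CommGroup A] {S : Set A} (hS : ∀ s ∈ S, ∀ t ∈ S, s * t ∈ S)
    {s : A} (hs : s ∈ S) (n : ℕ) : s ^ (n + 1) ∈ S := by
  induction n with
  | zero => simpa using hs
  | succ n ih => rw [pow_succ]; exact hS _ ih _ hs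

theorem kap : KapS.{u, v} := by
  intro X _ A _ _ κ hκ
  classical
  -- a subgroup with the smallest image
  have hP : ∃ n : ℕ, ∃ U : Subgroup X, U.index ≠ 0 ∧ (κ '' (U : Set X)).ncard = n :=
    ⟨_, ⊤, by rw [Subgroup.index_top]; exact one_ne_zero, rfl⟩
  obtain ⟨X1, hX1, hn⟩ := Nat.find_spec hP
  have hmin : ∀ U : Subgroup X, U ≤ X1 → U.index ≠ 0 →
      κ '' (U : Set X) = κ '' (X1 : Set X) := by
    intro U hU hU0
    have h1 : Nat.find hP ≤ (κ '' (U : Set X)).ncard := Nat.find_min' hP ⟨U, hU0, rfl⟩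
    exact Set.eq_of_subset_of_ncard_le (Set.image_mono hU) (by rw [hn]; exact h1)
      (Set.toFinite _)
  have hmul : ∀ s ∈ κ '' (X1 : Set X), ∀ t ∈ κ '' (X1 : Set X), s * t ∈ κ '' (X1 : Set X) := by
    rintro _ ⟨x1, hx1, rfl⟩ t ht
    obtain ⟨U, hU, hU1⟩ := hκ x1
    rw [← hmin (X1 ⊓ U) inf_le_left (Subgroup.index_inf_ne_zero hX1 hU)] at ht
    obtain ⟨x2, hx2, rfl⟩ := ht
    obtain ⟨h1, h2⟩ := Subgroup.mem_inf.1 hx2
    exact ⟨x1 * x2, X1.mul_mem hx1 h1, hU1 x2 h2⟩
  have hone : (1 : A) ∈ κ '' (X1 : Set X) := by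
    have h1 := kap_pow hmul (s := κ 1) ⟨1, X1.one_mem, rfl⟩ (orderOf (κ 1) - 1)
    have h2 : 0 < orderOf (κ 1) := orderOf_pos _
    rw [Nat.sub_add_cancel h2, pow_orderOf_eq_one] at h1
    exact h1
  have hinv : ∀ s ∈ κ '' (X1 : Set X), s⁻¹ ∈ κ '' (X1 : Set X) := by
    intro s hs
    have h1 := kap_pow hmul hs (2 * orderOf s - 2)
    have h2 : 0 < orderOf s := orderOf_pos _
    have e : s⁻¹ = s ^ (2 * orderOf s - 2 + 1) := by
      rw [inv_eq_iff_mul_eq_one, ← pow_succ']
      have e1 : 2 * orderOf s - 2 + 1 + 1 = orderOf s * 2 := by omega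
      rw [e1, pow_mul, pow_orderOf_eq_one, one_pow]
    rw [e]
    exact h1
  let S : Subgroup A :=
    { carrier := κ '' (X1 : Set X)
      mul_mem' := fun {s t} hs ht => hmul s hs t ht
      one_mem' := hone
      inv_mem' := fun {s} hs => hinv s hs }
  have hSmem : ∀ s, s ∈ S ↔ s ∈ κ '' (X1 : Set X) := fun s => Iff.rfl
  refine ⟨⟨X1, S, hX1, ?_⟩, ?_⟩
  · intro U hU hU0 s
    rw [hSmem, ← hmin U hU hU0]
    rfl
  · intro Y hY
    have h0 : ∀ s : S, ∃ x : X, κ x = (s : A)⁻¹ := by
      intro s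
      obtain ⟨x, -, hx⟩ := (hSmem _).1 (S.inv_mem s.2)
      exact ⟨x, hx⟩
    choose x hx using h0
    choose V hV hV1 using hκ
    set U : Subgroup X := X1 ⊓ ⨅ s : S, V (x s) with hU
    have hUi : U.index ≠ 0 :=
      Subgroup.index_inf_ne_zero hX1 (Subgroup.index_iInf_ne_zero fun s => hV (x s))
    have hUY : Y.relIndex U ≠ 0 := by
      have h1 : Function.Injective (fun q : U ⧸ Y.subgroupOf U => κ ((q.out : U) : X)) := by
        intro q q' hq
        have hq1 : κ ((q.out : U) : X) = κ ((q'.out : U) : X) := hq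
        have key : ∀ y : U, ∀ s : S, κ (y : X) = (s : A) → x s * (y : X) ∈ Y := by
          intro y s hs
          apply hY
          have h2 : (y : X) ∈ V (x s) := by
            have := (Subgroup.mem_inf.1 y.2).2
            rw [Subgroup.mem_iInf] at this
            exact this s
          rw [hV1 (x s) _ h2, hx, hs, inv_mul_cancel]
        have hs0 : κ ((q.out : U) : X) ∈ S := (hSmem _).2
          ⟨_, (Subgroup.mem_inf.1 (q.out : U).2).1, rfl⟩
        have h3 := key q.out ⟨_, hs0⟩ rfl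
        have h4 := key q'.out ⟨_, hs0⟩ hq1.symm
        have h5 : (QuotientGroup.mk (s := Y.subgroupOf U) q.out) =
            QuotientGroup.mk (s := Y.subgroupOf U) q'.out := by
          rw [QuotientGroup.eq, Subgroup.mem_subgroupOf]
          have h6 := Y.mul_mem (Y.inv_mem h3) h4
          have e : (x ⟨_, hs0⟩ * ((q.out : U) : X))⁻¹ * (x ⟨_, hs0⟩ * ((q'.out : U) : X)) =
              (((q.out)⁻¹ * q'.out : U) : X) := by
            push_cast
            group
          rwa [e] at h6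
        rwa [QuotientGroup.out_eq', QuotientGroup.out_eq'] at h5
      have h2 : Finite (U ⧸ Y.subgroupOf U) := Finite.of_injective _ h1
      have h3 : (Y.subgroupOf U).FiniteIndex := Subgroup.finiteIndex_of_finite_quotient
      exact h3.index_ne_zero
    have h1 : U.relIndex ⊤ ≠ 0 := by rwa [Subgroup.relIndex_top_right]
    have h2 := Subgroup.relIndex_ne_zero_trans hUY h1
    rwa [Subgroup.relIndex_top_right] at h2

end Pool.Agent.FourGp.FF.Wt
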