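import Pool.Agent.Lib.MP_fb3619_al.WT.Iface
import Pool.Agent.Lib.MP_fb3619_al.FF.Fin
import Pool.Agent.Lib.MP_fb3619_al.FF.Shu

/-!
# MP_fb3619_al, board WT, row NCP
-/

set_option autoImplicit false

universe u

namespace Pool.Agent.FourGp.FF.Wt

open Pool.Agent.FourGp.H47 (Odd' inv_of_sq conj_inv_pow mul_inv_self odd_conj comm_of_inv
  mul_inv_self' comm_pow comm_inv conj_comm comm_conj)
open Pool.Agent.FourGp.H99 (LF)
open Pool.Agent.FourGp.FF.Bs (MinC Min0)

section

variable {G : Type u} [Group G] {K : Subgroup G} {a b c : G}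

theorem ncp_min0_swap (h : Min0 K a b c) : Min0 K b a c where
  fr := h.fr.swap
  fin := by rw [Fr.fx_swap]; exact h.fin
  nlf := h.nlf
  fg := h.fg
  nolf := h.nolf.swap
  min := by
    intro Q _ K' a' b' c' h1 h2 h4
    rw [Fr.fx_swap (a := b)] at h4
    exact h.min Q K' a' b' c' h1 h2 h4

theorem ncp_swap (h : MinC K a b c) : MinC K b a c where
  toMin0 := ncp_min0_swap h.toMin0
  sim := fun N h1 h2 h3 => h.sim N h1 h2.swap h3
  ind := fun L h1 h2 h3 => h.ind L h1 h2.swap h3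

theorem ncp_mi (h : Fr K a b c) {u : G} (hu : Mi K a c u) : Mi K a b u := by
  obtain ⟨h1, h2⟩ := hu
  refine ⟨h1, ?_⟩
  have hua := (mem_Cz.1 h1).2
  calc b * u * b = (c * a) * u * (a * c) := by rw [h.ca, h.ac]
    _ = c * (a * (u * a)) * c := by group
    _ = c * (a * a * u) * c := by rw [hua]; group
    _ = u⁻¹ := by rw [h.aa, one_mul, h2]

theorem ncp_pv (h : Fr K a b c) {e : G} (he : Pv K a b e) : Pv K a c e := by
  obtain ⟨h1, h2⟩ := he
  refine ⟨?_, fun u hu => h2 u (ncp_mi h hu)⟩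
  have e1 : Fx K a c = Fx K a b := by
    rw [Fr.fx_swap, h.rot.fx_rot, h.fx_rot]
  rw [e1]
  exact h1

theorem ncp_fx (h : Fr K a b c) : Fx K a c = Fx K a b := by
  rw [Fr.fx_swap, h.rot.fx_rot, h.fx_rot]

theorem ncp_ne (e : G) : Ne K a c b e = Ne K a b c e := by
  unfold Ne
  congr 1
  ext u
  change (Mi K c a u ∨ Mi K b a u) ∧ u * e = e * u ↔ (Mi K b a u ∨ Mi K c a u) ∧ u * e = e * u
  rw [or_comm]

end

/-- Row NCP. -/
theorem ncp (hgen : Bs.GenS.{u}) (hruc : RucS.{u}) (hrfi : RfiS.{u}) : NcpS.{u} := by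
  intro G _ K a b c h Z hZ hZF p hp hZp hZc hZb hZcc
  have hfr := h.fr
  by_contra hcon0
  have hcon : ∀ e ∈ Z, Subgroup.zpowers e ≠ Z := fun e he h0 => hcon0 ⟨e, he, h0⟩
  obtain ⟨R, hRK, hRlf, hRV, hRA, hRU⟩ := hruc G K a b c h Z hZ hZF
  have h1 : R.relIndex (Cz K b) ≠ 0 :=
    hrfi G K a b c hfr h.fin h.nolf Z hZ p hp hZp hZc hcon hZb R hRU
  have h2 : R.relIndex (Cz K c) ≠ 0 := by
    refine hrfi G K a c b hfr.swap' (by rw [ncp_fx hfr]; exact h.fin) ?_ Z
      (fun z hz => ncp_pv hfr (hZ z hz)) p hp hZp hZc hcon hZcc R ?_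
    · exact (h.nolf.swap).rot hfr.swap
    · intro U hU hU1 r hr1 hr2
      refine hRU U hU hU1 r (fun e he => ?_) (fun e he heU n hn => ?_)
      · rw [← ncp_ne]
        exact hr1 e he
      · rw [← ncp_ne] at hn
        exact hr2 e he heU n hn
  set L : Subgroup G := Cz K a ⊔ R with hL
  have hLK : L ≤ K := sup_le cz_le hRK
  have h3 : L = K := by
    refine (hgen G K b a c (ncp_swap h)).2 L hLK (fun u hu => ?_) ?_ ?_
    · exact Subgroup.mem_sup_left hu.1
    · exact fun h0 => h1 (Nat.eq_zero_of_zero_dvd (h0 ▸ Subgroup.relIndex_dvd_of_le_left _ le_sup_right))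
    · exact fun h0 => h2 (Nat.eq_zero_of_zero_dvd (h0 ▸ Subgroup.relIndex_dvd_of_le_left _ le_sup_right))
  have h4 : ∀ k ∈ K, ∀ r ∈ R, k⁻¹ * r * k ∈ R := by
    have h5 : L ≤ Subgroup.normalizer (R : Set G) := by
      refine sup_le ?_ Subgroup.le_normalizer
      intro k hk
      rw [Subgroup.mem_normalizer_iff]
      intro x
      constructor
      · intro hx
        have := hRA k⁻¹ (Subgroup.inv_mem _ hk) x hx
        rwa [inv_inv] at this
      · intro hx
        have := hRA k hk _ hx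
        have e : k⁻¹ * (k * x * k⁻¹) * k = x := by group
        rwa [e] at this
    intro k hk r hr
    rw [← h3] at hk
    have h6 := (Subgroup.mem_normalizer_iff.1 (Subgroup.inv_mem _ (h5 hk))) r
    rw [inv_inv] at h6
    exact h6.1 hr
  rcases h.sim R hRK hRV h4 with h5 | h5
  · subst h5
    rw [Subgroup.relIndex_bot_left] at h1
    have h6 : Finite (Cz K b) := Nat.finite_of_card_ne_zero h1
    exact h.nlf (lf_of_finite shu hfr h6)
  · rw [h5] at hRlf
    exact h.nlf hRlf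

end Pool.Agent.FourGp.FF.Wt
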