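import Pool.Agent.Lib.MP_fb3619_al.WT.Iface
import Pool.Agent.Lib.MP_fb3619_al.PQ.Iso

/-!
# MP_fb3619_al, board WT, row PAB (paper 1): `P_a ∩ P_b = 1` and `[P_a, P_b] = 1`.
-/

set_option autoImplicit false

universe u

namespace Pool.Agent.FourGp.FF.Wt

open Pool.Agent.FourGp.H47 (Odd' inv_of_sq conj_inv_pow mul_inv_self odd_conj comm_of_inv
  mul_inv_self' comm_pow comm_inv conj_comm comm_conj)
open Pool.Agent.FourGp.H99 (LF)
open Pool.Agent.FourGp.FF.Fr (fx_swap)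

section pv

variable {G : Type u} [Group G] {K : Subgroup G} {a b c : G}

theorem pv_one : Pv K a b 1 := ⟨(Fx K a b).one_mem, fun u _ => by rw [one_mul, mul_one]⟩

theorem pv_mul {e f : G} (he : Pv K a b e) (hf : Pv K a b f) : Pv K a b (e * f) := by
  refine ⟨(Fx K a b).mul_mem he.1 hf.1, fun u hu => ?_⟩
  rw [mul_assoc, hf.2 u hu, ← mul_assoc, he.2 u hu, mul_assoc]

theorem pv_inv {e : G} (he : Pv K a b e) : Pv K a b e⁻¹ := by
  refine ⟨(Fx K a b).inv_mem he.1, fun u hu => ?_⟩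
  have c1 : Commute e u := he.2 u hu
  exact c1.inv_left

/-- `F` normalises `P_a`. -/
theorem pv_conj {e f : G} (he : Pv K a b e) (hf : f ∈ Fx K a b) : Pv K a b (f⁻¹ * e * f) := by
  refine ⟨(Fx K a b).mul_mem ((Fx K a b).mul_mem ((Fx K a b).inv_mem hf) he.1) hf,
    fun u hu => ?_⟩
  have h1 := he.2 _ (Pq.IsoR.mi_conj' hf hu)
  calc f⁻¹ * e * f * u = f⁻¹ * (e * (f * u * f⁻¹)) * f := by group
    _ = f⁻¹ * (f * u * f⁻¹ * e) * f := by rw [h1]
    _ = u * (f⁻¹ * e * f) := by group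

theorem pv_swap' (h : Fr K a b c) {e : G} (he : Pv K a b e) : Pv K a c e := by
  have h1 := mem_Fx.1 he.1
  refine ⟨mem_Fx.2 ⟨h1.1, h1.2.1, h.comm3 h1.2.1 h1.2.2⟩, fun u hu => he.2 u ⟨hu.1, ?_⟩⟩
  have h2 := mem_Cz.1 hu.1
  calc b * u * b = (c * a) * u * (a * c) := by rw [h.ca, h.ac]
    _ = c * (a * u) * a * c := by group
    _ = c * u * (a * a) * c := by rw [← h2.2]; group
    _ = u⁻¹ := by rw [h.aa, mul_one, hu.2]

/-- Elements of `P_b` have finitely many conjugates under `C_K(b)`. -/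
theorem pv_fi (h : Fr K a b c) (hF : (Fx K a b : Set G).Finite) {e : G} (he : Pv K b a e) :
    fi (Cz K b) e := by
  refine fi_of_finite ((hF.image fun w => w⁻¹ * e * w).subset ?_)
  rintro x ⟨g, hg, rfl⟩
  obtain ⟨w, s, hw, hs, e1, h1, h2⟩ := h.dec (X := Cz K b) cz_le h.aa
    (fun u hu => h.cz_inv h.aa h.cab hu) hg
  have hwF : w ∈ Fx K a b := mem_Fx.2 ⟨(mem_Cz.1 hw).1, h1, (mem_Cz.1 hw).2⟩
  have hwF' : w ∈ Fx K b a := by rw [fx_swap]; exact hwF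
  have h3 := he.2 _ (Pq.IsoR.mi_conj' hwF' (show Mi K b a s from ⟨hs, h2⟩))
  refine ⟨w, hwF, ?_⟩
  change w⁻¹ * e * w = g⁻¹ * e * g
  rw [e1]
  calc w⁻¹ * e * w = w⁻¹ * ((w * s * w⁻¹)⁻¹ * ((w * s * w⁻¹) * e)) * w := by group
    _ = w⁻¹ * ((w * s * w⁻¹)⁻¹ * (e * (w * s * w⁻¹))) * w := by rw [h3]
    _ = (w * s)⁻¹ * e * (w * s) := by group

end pv

theorem pab : PabS.{u} := by
  intro G _ K a b c h hF hN
  have key : ∀ e, Pv K a b e → Pv K b a e → e = 1 := by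
    intro e he he'
    have h1 : fi (Cz K b) e := pv_fi h hF he'
    have hF' : (Fx K b c : Set G).Finite := by rw [h.fx_rot]; exact hF
    refine rr h.rot (hN.rot h) hF' (f := e) ⟨by rw [h.fx_rot]; exact he.1, ?_⟩ h1
    intro u hu hi
    exact he.2 u ⟨hu, hi⟩
  refine ⟨key, fun e f he hf => ?_⟩
  have hfF : f ∈ Fx K a b := by
    have := hf.1
    rwa [fx_swap] at this
  have heF : e ∈ Fx K b a := by
    have := he.1
    rwa [fx_swap] at this
  have h1 : Pv K a b (e⁻¹ * (f⁻¹ * e * f)) := pv_mul (pv_inv he) (pv_conj he hfF)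
  have h2 : Pv K b a (e⁻¹ * (f⁻¹ * e * f)) := by
    have h3 := pv_mul (pv_conj (pv_inv hf) heF) hf
    have e1 : e⁻¹ * f⁻¹ * e * f = e⁻¹ * (f⁻¹ * e * f) := by group
    rwa [e1] at h3
  have h3 := key _ h1 h2
  calc e * f = f * (f⁻¹ * e * f) := by group
    _ = f * (e * (e⁻¹ * (f⁻¹ * e * f))) := by group
    _ = f * e := by rw [h3, mul_one]

end Pool.Agent.FourGp.FF.Wt
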