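import Pool.Agent.Lib.MP_fb3619_al.WT.Iface

/-!
# MP_fb3619_al, board WT, row PAI: the pair lemma (paper 8)
-/

set_option autoImplicit false

universe u

namespace Pool.Agent.FourGp.FF.Wt

open Pool.Agent.FourGp.H47 (Odd' inv_of_sq conj_inv_pow mul_inv_self odd_conj comm_of_inv
  mul_inv_self' comm_pow comm_inv conj_comm comm_conj)

variable {G : Type u} [Group G] {K : Subgroup G} {a b c : G}

/-- An involution of type `c` which commutes with `a` commutes with the elements of `P_a`. -/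
theorem pai_tyc (h : Fr K a b c) {e z : G} (he : Pv K a b e) (hz : Ty K c z)
    (hza : z * a = a * z) : e * z = z * e := by
  obtain ⟨heK, hea, heb⟩ := mem_Fx.1 he.1
  have hec : e * c = c * e := h.comm3 hea heb
  have huK : c * z ∈ K := by
    have h1 := K.inv_mem hz.2
    rwa [mul_inv_rev, inv_of_sq h.cc, inv_of_sq hz.1] at h1
  have hua : (c * z) * a = a * (c * z) := by
    calc (c * z) * a = c * (z * a) := by group
      _ = (c * a) * z := by rw [hza]; group
      _ = a * (c * z) := by rw [← h.cac]; group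
  have hub : b * (c * z) * b = (c * z)⁻¹ := by
    rw [mul_inv_rev, inv_of_sq h.cc, inv_of_sq hz.1]
    calc b * (c * z) * b = (b * c) * z * b := by group
      _ = (a * z) * b := by rw [h.bc]
      _ = z * (a * b) := by rw [← hza]; group
      _ = z * c := by rw [h.ab]
  have h1 := he.2 _ ⟨mem_Cz.2 ⟨huK, hua⟩, hub⟩
  have c1 : Commute e (c * z) := h1
  have c2 : Commute e c := hec
  have c3 := c2.mul_right c1
  rw [← mul_assoc, h.cc, one_mul] at c3
  exact c3

/-- `P_b` is normalised by `C_K(b)`. -/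
theorem pai_conj (h : Fr K a b c) {f w : G} (hf : Pv K b a f) (hw : w ∈ Cz K b) :
    Pv K b a (w * f * w⁻¹) := by
  obtain ⟨q, s, hq, hs, rfl, h1, h2⟩ := h.dec (X := Cz K b) cz_le h.aa
    (fun u hu => h.cz_inv h.aa h.cab hu) hw
  have hqF : q ∈ Fx K b a := mem_Fx.2 ⟨(mem_Cz.1 hq).1, (mem_Cz.1 hq).2, h1⟩
  have hfs : f * s = s * f := hf.2 s ⟨hs, h2⟩
  have e1 : q * s * f * (q * s)⁻¹ = q * f * q⁻¹ := by
    calc q * s * f * (q * s)⁻¹ = q * (s * f) * s⁻¹ * q⁻¹ := by group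
      _ = q * (f * s) * s⁻¹ * q⁻¹ := by rw [hfs]
      _ = q * f * q⁻¹ := by group
  rw [e1]
  refine ⟨(Fx K b a).mul_mem ((Fx K b a).mul_mem hqF hf.1) ((Fx K b a).inv_mem hqF), ?_⟩
  intro u hu
  have hmi : Mi K b a (q⁻¹ * u * q) := by
    refine ⟨(Cz K b).mul_mem ((Cz K b).mul_mem ((Cz K b).inv_mem hq) hu.1) hq, ?_⟩
    have c1 : Commute q a := h1
    calc a * (q⁻¹ * u * q) * a = (a * q⁻¹) * u * (q * a) := by group
      _ = (q⁻¹ * a) * u * (a * q) := by rw [c1.inv_left.eq, h1]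
      _ = q⁻¹ * (a * u * a) * q := by group
      _ = (q⁻¹ * u * q)⁻¹ := by rw [hu.2]; group
  have h3 := hf.2 _ hmi
  calc q * f * q⁻¹ * u = q * (f * (q⁻¹ * u * q)) * q⁻¹ := by group
    _ = q * ((q⁻¹ * u * q) * f) * q⁻¹ := by rw [h3]
    _ = u * (q * f * q⁻¹) := by group

/-- `(c e f)^m = (c m m^(e⁻¹) f) e` -/
theorem pai_z (h : Fr K a b c) {e f m : G} (hfm : f * m = m * f)
    (hef : e * f = f * e) (hmc : c * m * c = m⁻¹) :
    m⁻¹ * (c * e * f) * m = (c * (m * (e * m * e⁻¹) * f)) * e := by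
  have e1 : m⁻¹ * c = c * m := by
    rw [← hmc, mul_assoc, h.cc, mul_one]
  have c1 : Commute e f := hef
  calc m⁻¹ * (c * e * f) * m = (m⁻¹ * c) * e * (f * m) := by group
    _ = (c * m) * e * (m * f) := by rw [e1, hfm]
    _ = c * (m * (e * m * e⁻¹) * (e * f)) := by group
    _ = c * (m * (e * m * e⁻¹) * (f * e)) := by rw [hef]
    _ = _ := by group

theorem pai (hpab : PabS.{u}) : PaiS.{u} := by
  intro G _ K a b c h hF hN e f m n he hf hm hn hm1 hn1
  obtain ⟨hp1, hp2⟩ := hpab G K a b c h hF hN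
  have hef : e * f = f * e := hp2 e f he hf
  have hfF : f ∈ Fx K a b := by rw [Fr.fx_swap]; exact hf.1
  obtain ⟨heK, hea, heb⟩ := mem_Fx.1 he.1
  obtain ⟨hfK, hfa, hfb⟩ := mem_Fx.1 hfF
  have hec : e * c = c * e := h.comm3 hea heb
  have hfc : f * c = c * f := h.comm3 hfa hfb
  have hmK : m ∈ K := (mem_Cz.1 hm.1).1
  have hnK : n ∈ K := (mem_Cz.1 hn.1).1
  have hmc : c * m * c = m⁻¹ := h.inv_c (mem_Cz.1 hm.1).2 hm.2
  have hnc : c * n * c = n⁻¹ := h.swap.inv_c (mem_Cz.1 hn.1).2 hn.2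
  have hfm : f * m = m * f := hf.2 m hm
  have hen : e * n = n * e := he.2 n hn
  set M1 := m * (e * m * e⁻¹) * f with hM1
  set N1 := n * (f * n * f⁻¹) * e with hN1
  have hM1c : c * M1 * c = M1⁻¹ := h.inv_c (mem_Cz.1 hm1.1).2 hm1.2
  have hN1c : c * N1 * c = N1⁻¹ := h.swap.inv_c (mem_Cz.1 hn1.1).2 hn1.2
  have hz1 : Ty K c (c * M1) := h.rot.rot.ty_inv h.rot.rot.ty_a (mem_Cz.1 hm1.1).1 hM1c
  have hz2 : Ty K c (c * N1) := h.rot.rot.ty_inv h.rot.rot.ty_a (mem_Cz.1 hn1.1).1 hN1c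
  have hE1 : m⁻¹ * (c * e * f) * m = (c * M1) * e := pai_z h hfm hef hmc
  have hE2 : n⁻¹ * (c * e * f) * n = (c * N1) * f := by
    have h1 := pai_z h hen hef.symm hnc
    have e1 : c * f * e = c * e * f := by rw [mul_assoc, ← hef, mul_assoc]
    rw [e1] at h1
    exact h1
  set g := n⁻¹ * m with hg
  have hgK : g ∈ K := K.mul_mem (K.inv_mem hnK) hmK
  set z1 := c * M1 with hz1d
  set z3 := g⁻¹ * (c * N1) * g with hz3d
  have hz3 : Ty K c z3 := h.rot.rot.ty_conj hz2 hgK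
  set f' := g⁻¹ * f * g with hf'
  set y := g⁻¹ * b * g with hy'
  have hy : Ty K b y := h.rot.ty_conj h.rot.ty_a hgK
  have hzf : z3 * f' = z1 * e := by
    calc z3 * f' = g⁻¹ * ((c * N1) * f) * g := by rw [hz3d, hf']; group
      _ = g⁻¹ * (n⁻¹ * (c * e * f) * n) * g := by rw [hE2]
      _ = m⁻¹ * (c * e * f) * m := by rw [hg]; group
      _ = z1 * e := hE1
  have hk : z1 * z3 = e * f'⁻¹ := by
    calc z1 * z3 = z1 * (z3 * f') * f'⁻¹ := by group
      _ = z1 * (z1 * e) * f'⁻¹ := by rw [hzf]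
      _ = (z1 * z1) * e * f'⁻¹ := by group
      _ = e * f'⁻¹ := by rw [hz1.1, one_mul]
  -- the common perpendicular of `a` and `y`
  obtain ⟨j, hz, hza, hzy⟩ := h.perp h.ty_a hy
  set ζ := (a * y) ^ j with hζ
  have heζ : e * ζ = ζ * e := pai_tyc h he hz hza
  have hfζ : f' * ζ = ζ * f' := by
    have hz0 : Ty K c (g * ζ * g⁻¹) := by
      have h1 := h.rot.rot.ty_conj hz (K.inv_mem hgK)
      rwa [inv_inv] at h1
    have hz0b : (g * ζ * g⁻¹) * b = b * (g * ζ * g⁻¹) := by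
      calc (g * ζ * g⁻¹) * b = g * (ζ * y) * g⁻¹ := by rw [hy']; group
        _ = g * (y * ζ) * g⁻¹ := by rw [hzy]
        _ = b * (g * ζ * g⁻¹) := by rw [hy']; group
    have h1 := pai_tyc h.swap hf hz0 hz0b
    calc f' * ζ = g⁻¹ * (f * (g * ζ * g⁻¹)) * g := by rw [hf']; group
      _ = g⁻¹ * ((g * ζ * g⁻¹) * f) * g := by rw [h1]
      _ = ζ * f' := by rw [hf']; group
  have hkζ : (z1 * z3) * ζ = ζ * (z1 * z3) := by
    rw [hk]
    have c1 : Commute e ζ := heζ
    have c2 : Commute f' ζ := hfζ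
    exact (c1.mul_left c2.inv_left).eq
  have hk1 : z1 * z3 = 1 := by
    refine h.rot.rot.parity hz hz1 (h.rot.rot.ty_mul hz1 hz3) hkζ ?_
    rw [mul_inv_rev, inv_of_sq hz1.1, inv_of_sq hz3.1]
    calc z1 * (z1 * z3) * z1 = (z1 * z1) * z3 * z1 := by group
      _ = z3 * z1 := by rw [hz1.1, one_mul]
  have hef' : e = f' := by
    rw [hk] at hk1
    exact mul_inv_eq_one.1 hk1
  -- the involution `b' = a ζ`
  obtain ⟨i, hi⟩ := h.rot.rot.ty_cj h.rot.rot.ty_a hz
  set v := (c * ζ) ^ i with hv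
  have hvK : v ∈ K := K.pow_mem (h.rot.rot.ty_mul h.rot.rot.ty_a hz) i
  have hev : e * v = v * e := by
    have c1 : Commute e c := hec
    have c2 : Commute e ζ := heζ
    exact ((c1.mul_right c2).pow_right i).eq
  set b' := v⁻¹ * b * v with hb'
  have hb'T : Ty K b b' := h.rot.ty_conj h.rot.ty_a hvK
  have heb' : e * b' = b' * e := by
    have c1 : Commute e v := hev
    have c2 : Commute e b := heb
    exact ((c1.inv_right.mul_right c2).mul_right c1).eq
  have hey : e * y = y * e := by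
    calc e * y = g⁻¹ * (f * b) * g := by rw [hef', hf', hy']; group
      _ = g⁻¹ * (b * f) * g := by rw [hfb]
      _ = y * e := by rw [hef', hf', hy']; group
  obtain ⟨l, hl⟩ := h.rot.ty_cj hb'T hy
  set d := (b' * y) ^ l with hd
  have hdK : d ∈ K := K.pow_mem (h.rot.ty_mul hb'T hy) l
  have hed : e * d = d * e := by
    have c1 : Commute e b' := heb'
    have c2 : Commute e y := hey
    exact ((c1.mul_right c2).pow_right l).eq
  set w := v * d * g⁻¹ with hw
  have hwK : w ∈ K := K.mul_mem (K.mul_mem hvK hdK) (K.inv_mem hgK)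
  have hwb : w * b = b * w := by
    apply comm_conj
    calc w⁻¹ * b * w = g * (d⁻¹ * (v⁻¹ * b * v) * d) * g⁻¹ := by rw [hw]; group
      _ = g * y * g⁻¹ := by rw [← hb', hl]
      _ = b := by rw [hy']; group
  have hwf : w * f * w⁻¹ = e := by
    calc w * f * w⁻¹ = v * (d * f' * d⁻¹) * v⁻¹ := by rw [hw, hf']; group
      _ = v * (d * e * d⁻¹) * v⁻¹ := by rw [← hef']
      _ = v * (e * d * d⁻¹) * v⁻¹ := by rw [hed]
      _ = (v * e) * v⁻¹ := by group
      _ = e := by rw [← hev]; group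
  have hPb := pai_conj h hf (mem_Cz.2 ⟨hwK, hwb⟩)
  rw [hwf] at hPb
  exact hp1 e he hPb

end Pool.Agent.FourGp.FF.Wt
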