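import Pool.Agent.Lib.MP_fb3619_al.WT.Iface
import Pool.Agent.Lib.MP_fb3619_al.PQ.Iso

/-!
# MP_fb3619_al, board WT, row RFI (paper 7)
-/

set_option autoImplicit false

universe u v

namespace Pool.Agent.FourGp.FF.Wt

open Pool.Agent.FourGp.FF.Abo (XS)

section

variable {G : Type u} [Group G] {K : Subgroup G} {a b c : G}

/-- The elements `g` such that `g` and `s⁻¹ s^g` centralise `N`. -/
def rfiT (N : Subgroup G) (s : G) : Subgroup G where
  carrier := {g | ∀ n ∈ N, Commute g n ∧ Commute (s⁻¹ * (g⁻¹ * s * g)) n}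
  mul_mem' := by
    intro x y hx hy n hn
    have e : s⁻¹ * ((x * y)⁻¹ * s * (x * y)) =
        (s⁻¹ * (y⁻¹ * s * y)) * (y⁻¹ * (s⁻¹ * (x⁻¹ * s * x)) * y) := by group
    refine ⟨(hx n hn).1.mul_left (hy n hn).1, ?_⟩
    rw [e]
    exact (hy n hn).2.mul_left
      (((hy n hn).1.inv_left.mul_left (hx n hn).2).mul_left (hy n hn).1)
  one_mem' := by
    intro n _
    have e : s⁻¹ * ((1 : G)⁻¹ * s * 1) = 1 := by group
    rw [e]
    exact ⟨Commute.one_left _, Commute.one_left _⟩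
  inv_mem' := by
    intro x hx n hn
    have e : s⁻¹ * (x⁻¹⁻¹ * s * x⁻¹) = x * (s⁻¹ * (x⁻¹ * s * x))⁻¹ * x⁻¹ := by group
    refine ⟨(hx n hn).1.inv_left, ?_⟩
    rw [e]
    exact ((hx n hn).1.mul_left (hx n hn).2.inv_left).mul_left (hx n hn).1.inv_left

/-- `U <e> = Z`, `e'' ∈ Z - U`: then `e ∈ U <e''>`. -/
theorem rfi_exch {U Z : Subgroup G} (hU : U ≤ Z) (hZc : ∀ z ∈ Z, ∀ z' ∈ Z, z * z' = z' * z)
    {p : ℕ} (hp : p.Prime) (hZp : ∀ z ∈ Z, z ^ p = 1) {e e2 : G} (he : e ∈ Z) (he2 : e2 ∈ Z)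
    (hUe : U ⊔ Subgroup.zpowers e = Z) (hn : e2 ∉ U) : ∃ u ∈ U, ∃ l : ℤ, e = u * e2 ^ l := by
  let T : Subgroup G :=
    { carrier := {x | ∃ u ∈ U, ∃ k : ℤ, x = u * e ^ k}
      mul_mem' := by
        rintro _ _ ⟨u, hu, k, rfl⟩ ⟨u', hu', k', rfl⟩
        refine ⟨u * u', U.mul_mem hu hu', k + k', ?_⟩
        have c1 : Commute e u' := hZc e he u' (hU hu')
        have c2 : Commute (e ^ k) u' := c1.zpow_left k
        calc u * e ^ k * (u' * e ^ k') = u * (e ^ k * u') * e ^ k' := by group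
          _ = u * (u' * e ^ k) * e ^ k' := by rw [c2.eq]
          _ = u * u' * e ^ (k + k') := by rw [zpow_add]; group
      one_mem' := ⟨1, U.one_mem, 0, by group⟩
      inv_mem' := by
        rintro _ ⟨u, hu, k, rfl⟩
        refine ⟨u⁻¹, U.inv_mem hu, -k, ?_⟩
        have c1 : Commute e u := hZc e he u (hU hu)
        have c2 : Commute (e ^ (-k)) u⁻¹ := (c1.zpow_left (-k)).inv_right
        calc (u * e ^ k)⁻¹ = e ^ (-k) * u⁻¹ := by group
          _ = u⁻¹ * e ^ (-k) := c2.eq }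
  have hT : Z ≤ T := by
    rw [← hUe, sup_le_iff]
    refine ⟨fun u hu => ⟨u, hu, 0, by group⟩, ?_⟩
    rw [Subgroup.zpowers_le]
    exact ⟨1, U.one_mem, 1, by group⟩
  obtain ⟨u, hu, k, hk⟩ := hT he2
  have hep : e ^ (p : ℤ) = 1 := by rw [zpow_natCast]; exact hZp e he
  have hpk : ¬ (p : ℤ) ∣ k := by
    rintro ⟨m, rfl⟩
    apply hn
    rw [hk, zpow_mul, hep, one_zpow, mul_one]
    exact hu
  have hco : IsCoprime (p : ℤ) k :=
    ((Nat.prime_iff_prime_int.1 hp).irreducible.coprime_iff_not_dvd).2 hpk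
  obtain ⟨m, l, hml⟩ := hco
  refine ⟨u ^ (-l), U.zpow_mem hu _, l, ?_⟩
  have h1 : e ^ k = u⁻¹ * e2 := by rw [hk]; group
  have c1 : Commute u⁻¹ e2 := (Commute.inv_left (hZc u (hU hu) e2 he2))
  calc e = e ^ (m * p + l * k) := by rw [hml, zpow_one]
    _ = (e ^ (p : ℤ)) ^ m * (e ^ k) ^ l := by
        rw [zpow_add, mul_comm m, zpow_mul, mul_comm l, zpow_mul]
    _ = (u⁻¹ * e2) ^ l := by rw [hep, one_zpow, one_mul, h1]
    _ = u ^ (-l) * e2 ^ l := by rw [c1.mul_zpow, inv_zpow, zpow_neg]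

end

/-- **Row RFI.** -/
theorem rfi (hXw : XweS.{u}) (hP : PabS.{u}) (hS : SneS.{u}) (hI : IdxS.{u}) : RfiS.{u} := by
  intro G _ K a b c h hF hN Z hZ p hp hZp hZc hcyc hfix R hR
  have hFba : Fx K b a = Fx K a b := Fr.fx_swap
  obtain ⟨X, hX⟩ := hXw G K b a c h.swap (by rw [hFba]; exact hF)
  have hPab := hP G K a b c h hF hN
  have hXK : X ≤ K := hX.le.trans cz_le
  have hqP : ∀ q ∈ X ⊓ Fx K a b, Pv K b a q := by
    rintro q ⟨hq1, hq2⟩
    refine ⟨?_, hX.cen q hq1 ?_⟩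
    · rw [hFba]; exact hq2
    · rw [hFba]; exact hq2
  have hZq : ∀ z ∈ Z, ∀ q ∈ X ⊓ Fx K a b, z * q = q * z := fun z hz q hq =>
    hPab.2 z q (hZ z hz) (hqP q hq)
  have hZb : ∀ z ∈ Z, z ∈ Cz K b := fun z hz =>
    mem_Cz.2 ⟨(mem_Fx.1 (hZ z hz).1).1, (mem_Fx.1 (hZ z hz).1).2.2⟩
  have key := hI G X (X ⊓ Fx K a b) Z X (R ⊓ X) p hp (hF.subset fun x hx => hx.2) inf_le_left
    (by
      intro x hx
      obtain ⟨n, hn⟩ := h.odd x (hXK hx)
      exact ⟨2 * n + 1, by omega, hn⟩)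
    (by
      intro x hx y hy
      refine ⟨X.mul_mem (X.mul_mem (X.mul_mem (X.inv_mem hx) (X.inv_mem hy)) hx) hy, ?_⟩
      rw [← hFba]
      exact hX.cm x hx y hy)
    (by
      rintro q ⟨hq1, hq2⟩ x hx
      exact hX.cex q hq1 (by rw [hFba]; exact hq2) x hx)
    (hF.subset fun z hz => (hZ z hz).1) hZp hZc
    (fun z hz x hx => hX.nor z (hZb z hz) x hx) hZq
    (hfix.subset fun x hx => ⟨hX.le hx.1, hx.2⟩) le_rfl
    (by rw [Subgroup.relIndex_self]; exact one_ne_zero) inf_le_right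
    (by
      intro U hU e he hUe
      refine ⟨e, he, hUe, ?_⟩
      intro x hx hxU hiso
      obtain ⟨q, s, hq, hs, exq, hqa, hsi⟩ := h.dec (X := X) hXK h.aa hX.inv hx
      have hqF : q ∈ Fx K a b := mem_Fx.2 ⟨hXK hq, hqa, (mem_Cz.1 (hX.le hq)).2⟩
      have hsM : Mi K b a s := ⟨hX.le hs, hsi⟩
      have cqs : Commute q s := hX.cex q hq (by rw [hFba]; exact hqF) s hs
      have cqz : ∀ z ∈ Z, Commute q z := fun z hz => (hZq z hz q ⟨hq, hqF⟩).symm
      have csu : ∀ u ∈ U, Commute s u := by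
        intro u hu
        have c1 : Commute x u := hxU u hu
        have e1 : s = q⁻¹ * x := by rw [exq]; group
        rw [e1]
        exact (cqz u (hU hu)).inv_left.mul_left c1
      have hconj : ∀ z ∈ Z, z⁻¹ * x * z = q * (z⁻¹ * s * z) := by
        intro z hz
        have c1 := (cqz z hz).inv_right
        calc z⁻¹ * x * z = (z⁻¹ * q) * s * z := by rw [exq]; group
          _ = (q * z⁻¹) * s * z := by rw [c1.eq]
          _ = q * (z⁻¹ * s * z) := by group
      have hsz : ∀ z ∈ Z, Mi K b a (z⁻¹ * s * z) := by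
        intro z hz
        refine Pq.IsoR.mi_conj ?_ hsM
        rw [hFba]; exact (hZ z hz).1
      have cqsz : ∀ z ∈ Z, Commute q (z⁻¹ * s * z) := fun z hz =>
        hX.cen q hq (by rw [hFba]; exact hqF) _ (hsz z hz)
      have hsiso : ∀ z ∈ Z, s * (z⁻¹ * s * z) = (z⁻¹ * s * z) * s := by
        intro z hz
        have h1 : Commute x (z⁻¹ * x * z) := hiso z hz
        rw [hconj z hz] at h1
        have e1 : s = q⁻¹ * x := by rw [exq]; group
        have h2 : Commute q (q * (z⁻¹ * s * z)) := (Commute.refl q).mul_right (cqsz z hz)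
        have h3 : Commute s (q * (z⁻¹ * s * z)) := by
          have := h2.inv_left.mul_left h1
          rwa [← e1] at this
        have h4 : Commute s (q⁻¹ * (q * (z⁻¹ * s * z))) := cqs.symm.inv_right.mul_right h3
        have e2 : q⁻¹ * (q * (z⁻¹ * s * z)) = z⁻¹ * s * z := by group
        rw [e2] at h4
        exact h4.eq
      have er : x⁻¹ * (e⁻¹ * x * e) = s⁻¹ * (e⁻¹ * s * e) := by
        rw [hconj e he, exq]
        group
      have hr0M : Mi K b a (s⁻¹ * (e⁻¹ * s * e)) := by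
        have h1 : Mi K b a s⁻¹ := by
          refine ⟨(Cz K b).inv_mem hsM.1, ?_⟩
          rw [Abo.cj_inv h.aa, hsi]
        exact Pq.IsoR.mi_mul h.aa h1 (hsz e he)
          ((Commute.inv_left (hsiso e he)).eq)
      refine ⟨?_, X.mul_mem (X.inv_mem hx) (hX.nor e (hZb e he) x hx)⟩
      rw [er]
      refine hR U hU ?_ _ ?_ ?_
      · rintro rfl
        rw [bot_sup_eq] at hUe
        exact hcyc e he hUe
      · intro e2 he2
        refine Subgroup.subset_closure ⟨Or.inl hr0M, ?_⟩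
        have c1 := csu e2 he2
        have c2 : Commute e e2 := hZc e he e2 (hU he2)
        exact (c1.inv_left.mul_left ((c2.inv_left.mul_left c1).mul_left c2)).eq
      · intro e2 he2 hn n hn2
        obtain ⟨u, hu, l, hel⟩ := rfi_exch hU hZc hp hZp he he2 hUe hn
        have h1 : e2 ∈ rfiT (Ne K a b c e2) s := by
          intro n hn
          refine ⟨?_, hS G K a b c h hF hN X hX e2 (hZ e2 he2) s hs hsM (hsiso e2 he2) n hn⟩
          have h2 : Ne K a b c e2 ≤ Subgroup.centralizer {e2} := by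
            unfold Ne
            rw [Subgroup.closure_le]
            rintro y ⟨-, hy⟩
            exact Subgroup.mem_centralizer_singleton_iff.2 hy
          have h3 : n * e2 = e2 * n := Subgroup.mem_centralizer_singleton_iff.1 (h2 hn)
          exact h3.symm
        have h2 : e2 ^ l ∈ rfiT (Ne K a b c e2) s := (rfiT (Ne K a b c e2) s).zpow_mem h1 l
        have e3 : e⁻¹ * s * e = (e2 ^ l)⁻¹ * s * e2 ^ l := by
          have c1 := csu u hu
          rw [hel]
          calc (u * e2 ^ l)⁻¹ * s * (u * e2 ^ l) = (e2 ^ l)⁻¹ * (u⁻¹ * (s * u)) * e2 ^ l := by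
                group
            _ = (e2 ^ l)⁻¹ * (u⁻¹ * (u * s)) * e2 ^ l := by rw [c1.eq]
            _ = _ := by group
        rw [e3]
        exact (h2 n hn2).2.eq)
  rw [Subgroup.inf_relIndex_right] at key
  exact Subgroup.relIndex_ne_zero_trans key hX.ind

end Pool.Agent.FourGp.FF.Wt
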