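import Pool.Agent.Lib.MP_fb3619_al.WT.Iface
import Pool.Agent.Lib.MP_fb3619_al.H4.Abd

/-!
# MP_fb3619_al, board WT, row RUC: the subgroup `R`
-/

set_option autoImplicit false

universe u

namespace Pool.Agent.FourGp.FF.Wt

open Pool.Agent.FourGp.H47 (Odd' inv_of_sq conj_inv_pow mul_inv_self odd_conj comm_of_inv
  mul_inv_self' comm_pow comm_inv conj_comm comm_conj)
open Pool.Agent.FourGp.H99 (LF)
open Pool.Agent.FourGp.FF.Bs (MinC)

section

variable {G : Type u} [Group G]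

/-- A join of finitely many commuting locally finite subgroups. -/
theorem ruc_lf_sup (f : Subgroup G → Subgroup G) (S : Finset (Subgroup G))
    (hlf : ∀ U ∈ S, LF (f U))
    (hc : ∀ U ∈ S, ∀ U' ∈ S, U ≠ U' → ∀ x ∈ f U, ∀ y ∈ f U', x * y = y * x) :
    LF (⨆ U ∈ S, f U : Subgroup G) := by
  classical
  induction S using Finset.induction_on with
  | empty =>
    have e : (⨆ U ∈ (∅ : Finset (Subgroup G)), f U : Subgroup G) = ⊥ := by simp
    rw [e]
    intro T _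
    exact Finite.of_injective (fun t : T => (t : (⊥ : Subgroup G))) Subtype.val_injective
  | insert U0 S h0 ih =>
    rw [Finset.iSup_insert]
    have h1 := ih (fun U hU => hlf U (Finset.mem_insert_of_mem hU))
      (fun U hU U' hU' => hc U (Finset.mem_insert_of_mem hU) U' (Finset.mem_insert_of_mem hU'))
    have h2 : ∀ w ∈ f U0, ∀ n ∈ (⨆ U ∈ S, f U : Subgroup G), w * n = n * w := by
      intro w hw n hn
      have h3 : (⨆ U ∈ S, f U : Subgroup G) ≤ Subgroup.centralizer {w} := by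
        refine iSup₂_le fun U hU x hx => ?_
        rw [Subgroup.mem_centralizer_singleton_iff]
        refine (hc U0 (Finset.mem_insert_self _ _) U (Finset.mem_insert_of_mem hU) ?_ w hw x hx).symm
        rintro rfl
        exact h0 hU
      exact (Subgroup.mem_centralizer_singleton_iff.1 (h3 hn)).symm
    obtain ⟨T, hT1, hT2⟩ := Abo.LF_prod (B := f U0) (N := (⨆ U ∈ S, f U : Subgroup G))
      (fun w hw n hn => by
        rw [mul_assoc, ← h2 w hw n hn, ← mul_assoc, inv_mul_cancel, one_mul]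
        exact hn) (hlf U0 (Finset.mem_insert_self _ _)) h1
    refine LF_mono ?_ hT2
    rw [sup_le_iff]
    constructor
    · intro w hw
      have := hT1 w hw 1 (Subgroup.one_mem _)
      rwa [mul_one] at this
    · intro n hn
      have := hT1 1 (Subgroup.one_mem _) n hn
      rwa [one_mul] at this

variable {K : Subgroup G} {a b c : G}

theorem ne_le (e : G) : Ne K a b c e ≤ K ⊓ Subgroup.centralizer {e} := by
  unfold Ne
  rw [Subgroup.closure_le]
  rintro u ⟨h1, h2⟩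
  refine ⟨?_, Subgroup.mem_centralizer_singleton_iff.2 h2⟩
  rcases h1 with h1 | h1
  · exact (mem_Cz.1 h1.1).1
  · exact (mem_Cz.1 h1.1).1

/-- Conjugation by an element which commutes with the four-group. -/
theorem ruc_mi (h : Fr K a b c) {g u : G} (ha : g * a = a * g) (hb : g * b = b * g)
    (hu : Mi K b a u) : Mi K b a (g⁻¹ * u * g) := by
  obtain ⟨hu1, hu2⟩ := hu
  obtain ⟨huK, hub⟩ := mem_Cz.1 hu1
  have c1 : Commute g a := ha
  have c2 : Commute u b := hub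
  have c3 : Commute g b := hb
  refine ⟨mem_Cz.2 ⟨h.cjk huK, ((c3.inv_left.mul_left c2).mul_left c3).eq⟩, ?_⟩
  calc a * (g⁻¹ * u * g) * a = (a * g⁻¹) * u * (g * a) := by group
    _ = (g⁻¹ * a) * u * (a * g) := by rw [c1.inv_left.eq, ha]
    _ = g⁻¹ * (a * u * a) * g := by group
    _ = (g⁻¹ * u * g)⁻¹ := by rw [hu2]; group

theorem ne_conj (h : Fr K a b c) {g : G} (ha : g * a = a * g) (hb : g * b = b * g) {e n : G}
    (hn : n ∈ Ne K a b c e) : g⁻¹ * n * g ∈ Ne K a b c (g⁻¹ * e * g) := by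
  have hc : g * c = c * g := by
    have c1 : Commute g a := ha
    have c2 : Commute g b := hb
    have := (c1.mul_right c2).eq
    rwa [h.ab] at this
  have h1 : Ne K a b c e ≤ (Ne K a b c (g⁻¹ * e * g)).comap (MulAut.conj g⁻¹).toMonoidHom := by
    unfold Ne
    rw [Subgroup.closure_le]
    rintro u ⟨hu1, hu2⟩
    rw [SetLike.mem_coe, Subgroup.mem_comap]
    have e0 : (MulAut.conj g⁻¹).toMonoidHom u = g⁻¹ * u * g := by
      change g⁻¹ * u * g⁻¹⁻¹ = _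
      rw [inv_inv]
    rw [e0]
    refine Subgroup.subset_closure ⟨?_, ?_⟩
    · rcases hu1 with hu1 | hu1
      · exact Or.inl (ruc_mi h ha hb hu1)
      · exact Or.inr (ruc_mi h.swap' ha hc hu1)
    · calc g⁻¹ * u * g * (g⁻¹ * e * g) = g⁻¹ * (u * e) * g := by group
        _ = g⁻¹ * e * g * (g⁻¹ * u * g) := by rw [hu2]; group
  have h2 : g⁻¹ * n * g⁻¹⁻¹ ∈ Ne K a b c (g⁻¹ * e * g) := h1 hn
  rwa [inv_inv] at h2

/-- The subgroup `R_U`. -/
def RU (K : Subgroup G) (a b c : G) (Z U : Subgroup G) : Subgroup G where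
  carrier := {r | (∀ e ∈ U, r ∈ Ne K a b c e) ∧
    ∀ e ∈ Z, e ∉ U → ∀ n ∈ Ne K a b c e, r * n = n * r}
  mul_mem' := by
    rintro x y ⟨hx, hx'⟩ ⟨hy, hy'⟩
    refine ⟨fun e he => Subgroup.mul_mem _ (hx e he) (hy e he), fun e he hU n hn => ?_⟩
    have c1 : Commute x n := hx' e he hU n hn
    have c2 : Commute y n := hy' e he hU n hn
    exact (c1.mul_left c2).eq
  one_mem' := ⟨fun e _ => Subgroup.one_mem _, fun e _ _ n _ => by rw [one_mul, mul_one]⟩
  inv_mem' := by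
    rintro x ⟨hx, hx'⟩
    refine ⟨fun e he => Subgroup.inv_mem _ (hx e he), fun e he hU n hn => ?_⟩
    have c1 : Commute x n := hx' e he hU n hn
    exact c1.inv_left.eq

theorem mem_RU {Z U : Subgroup G} {r : G} : r ∈ RU K a b c Z U ↔ (∀ e ∈ U, r ∈ Ne K a b c e) ∧
    ∀ e ∈ Z, e ∉ U → ∀ n ∈ Ne K a b c e, r * n = n * r := Iff.rfl

/-- Invariance of `R_U` under an element which normalises all the `N(e)`. -/
theorem ru_inv {Z U : Subgroup G} (hUZ : U ≤ Z) {g r : G}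
    (h1 : ∀ e ∈ Z, ∀ n ∈ Ne K a b c e, g⁻¹ * n * g ∈ Ne K a b c e)
    (h2 : ∀ e ∈ Z, ∀ n ∈ Ne K a b c e, g * n * g⁻¹ ∈ Ne K a b c e)
    (hr : r ∈ RU K a b c Z U) : g⁻¹ * r * g ∈ RU K a b c Z U := by
  obtain ⟨ha, hb⟩ := mem_RU.1 hr
  refine mem_RU.2 ⟨fun e he => h1 e (hUZ he) r (ha e he), fun e he hU n hn => ?_⟩
  have h3 := hb e he hU _ (h2 e he n hn)
  calc g⁻¹ * r * g * n = g⁻¹ * (r * (g * n * g⁻¹)) * g := by group
    _ = n * (g⁻¹ * r * g) := by rw [h3]; group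

theorem ru_conj (h : Fr K a b c) {Z U : Subgroup G}
    (hZ : ∀ f ∈ Fx K a b, ∀ z ∈ Z, f⁻¹ * z * f ∈ Z) {f r : G}
    (hf : f ∈ Fx K a b) (hr : r ∈ RU K a b c Z U) :
    f⁻¹ * r * f ∈ RU K a b c Z (U.map (MulAut.conj f⁻¹).toMonoidHom) := by
  obtain ⟨-, hfa, hfb⟩ := mem_Fx.1 hf
  obtain ⟨ha, hb⟩ := mem_RU.1 hr
  refine mem_RU.2 ⟨?_, ?_⟩
  · rintro _ ⟨e, he, rfl⟩
    change f⁻¹ * r * f ∈ Ne K a b c (f⁻¹ * e * f⁻¹⁻¹)
    rw [inv_inv]
    exact ne_conj h hfa hfb (ha e he)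
  · intro e he hU n hn
    have h1 : f * e * f⁻¹ ∈ Z := by
      have := hZ f⁻¹ (Subgroup.inv_mem _ hf) e he
      rwa [inv_inv] at this
    have h2 : f * e * f⁻¹ ∉ U := by
      intro hm
      apply hU
      refine ⟨f * e * f⁻¹, hm, ?_⟩
      change f⁻¹ * (f * e * f⁻¹) * f⁻¹⁻¹ = e
      group
    have h3 : f * n * f⁻¹ ∈ Ne K a b c (f * e * f⁻¹) := by
      have c1 : Commute f a := hfa
      have c2 : Commute f b := hfb
      have := ne_conj h c1.inv_left.eq c2.inv_left.eq hn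
      rwa [inv_inv] at this
    have h4 := hb _ h1 h2 _ h3
    calc f⁻¹ * r * f * n = f⁻¹ * (r * (f * n * f⁻¹)) * f := by group
      _ = n * (f⁻¹ * r * f) := by rw [h4]; group

end

/-- Row RUC. -/
theorem ruc (hck : Bs.CkS.{u}) (hne : NneS.{u}) : RucS.{u} := by
  classical
  intro G _ K a b c h Z hZ hZF
  have hfr := h.fr
  have hZf : (Z : Set G).Finite := h.fin.subset fun z hz => (hZ z hz).1
  have hSf : {U : Subgroup G | U ≤ Z ∧ U ≠ ⊥}.Finite := by
    refine (hZf.finite_subsets.preimage (f := fun U : Subgroup G => (U : Set G))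
      SetLike.coe_injective.injOn).subset ?_
    rintro U ⟨hU, -⟩
    exact hU
  set S : Finset (Subgroup G) := hSf.toFinset with hS
  have hmS : ∀ U, U ∈ S ↔ U ≤ Z ∧ U ≠ ⊥ := by
    intro U
    rw [hS, Set.Finite.mem_toFinset]
    rfl
  set R : Subgroup G := ⨆ U ∈ S, RU K a b c Z U with hR
  have hUR : ∀ U, U ≤ Z → U ≠ ⊥ → RU K a b c Z U ≤ R := by
    intro U h1 h2
    rw [hR]
    exact le_iSup₂_of_le U ((hmS U).2 ⟨h1, h2⟩) le_rfl
  have hlf : ∀ U ∈ S, LF (RU K a b c Z U) ∧ RU K a b c Z U ≤ K := by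
    intro U hU
    obtain ⟨h1, h2⟩ := (hmS U).1 hU
    obtain ⟨x, hx⟩ := Subgroup.ne_bot_iff_exists_ne_one.1 h2
    have he := x.2
    have he1 : (x : G) ≠ 1 := fun hh => hx (Subtype.ext hh)
    generalize (x : G) = e at he he1
    have h3 : RU K a b c Z U ≤ K ⊓ Subgroup.centralizer {e} :=
      fun r hr => ne_le e ((mem_RU.1 hr).1 e he)
    exact ⟨LF_mono h3 ((hck G K a b c h.toMin0).1 e (hZ e (h1 he)).1 he1), h3.trans inf_le_left⟩
  have hcm : ∀ U ∈ S, ∀ U' ∈ S, U ≠ U' → ∀ x ∈ RU K a b c Z U, ∀ y ∈ RU K a b c Z U',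
      x * y = y * x := by
    intro U hU U' hU' hne' x hx y hy
    obtain ⟨h1, -⟩ := (hmS U).1 hU
    obtain ⟨h1', -⟩ := (hmS U').1 hU'
    by_cases h3 : U ≤ U'
    · have h4 : ¬ U' ≤ U := fun h5 => hne' (le_antisymm h3 h5)
      obtain ⟨e, he, he'⟩ := SetLike.not_le_iff_exists.1 h4
      exact (mem_RU.1 hx).2 e (h1' he) he' y ((mem_RU.1 hy).1 e he)
    · obtain ⟨e, he, he'⟩ := SetLike.not_le_iff_exists.1 h3
      exact ((mem_RU.1 hy).2 e (h1 he) he' x ((mem_RU.1 hx).1 e he)).symm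
  have key : ∀ g : G, (∀ U, U ≤ Z → U ≠ ⊥ → ∃ U', U' ≤ Z ∧ U' ≠ ⊥ ∧
      ∀ r ∈ RU K a b c Z U, g⁻¹ * r * g ∈ RU K a b c Z U') → ∀ r ∈ R, g⁻¹ * r * g ∈ R := by
    intro g hg
    have h1 : R ≤ R.comap (MulAut.conj g⁻¹).toMonoidHom := by
      conv_lhs => rw [hR]
      refine iSup₂_le fun U hU r hr => ?_
      obtain ⟨h2, h3⟩ := (hmS U).1 hU
      obtain ⟨U', h4, h5, h6⟩ := hg U h2 h3
      change g⁻¹ * r * g⁻¹⁻¹ ∈ R
      rw [inv_inv]
      exact hUR U' h4 h5 (h6 r hr)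
    intro r hr
    have := h1 hr
    change g⁻¹ * r * g⁻¹⁻¹ ∈ R at this
    rwa [inv_inv] at this
  refine ⟨R, ?_, ruc_lf_sup _ S (fun U hU => (hlf U hU).1) hcm, ?_, ?_, ?_⟩
  · rw [hR]
    exact iSup₂_le fun U hU => (hlf U hU).2
  · have hz : ∀ z : G, z * z = 1 → (∀ e ∈ Z, ∀ n ∈ Ne K a b c e, z * n * z ∈ Ne K a b c e) →
        ∀ u ∈ R, z * u * z ∈ R := by
      intro z hz1 hz2 u hu
      have e1 : z⁻¹ = z := inv_of_sq hz1
      have h2 : ∀ e ∈ Z, ∀ n ∈ Ne K a b c e, z⁻¹ * n * z ∈ Ne K a b c e := by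
        intro e he n hn
        rw [e1]
        exact hz2 e he n hn
      have h3 : ∀ e ∈ Z, ∀ n ∈ Ne K a b c e, z * n * z⁻¹ ∈ Ne K a b c e := by
        intro e he n hn
        rw [e1]
        exact hz2 e he n hn
      have h4 := key z (fun U h5 h6 => ⟨U, h5, h6, fun r hr => ru_inv h5 h2 h3 hr⟩) u hu
      rwa [e1] at h4
    exact ⟨hz a hfr.aa fun e he => (hne G K a b c hfr e (hZ e he).1).1.1,
      hz b hfr.bb fun e he => (hne G K a b c hfr e (hZ e he).1).1.2⟩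
  · intro k hk
    obtain ⟨f, m, hf, hm, rfl, hfb, hmi⟩ := hfr.dec (X := Cz K a) cz_le hfr.bb
      (fun u hu => hfr.cz_inv hfr.bb hfr.cab.symm hu) hk
    have hfF : f ∈ Fx K a b := mem_Fx.2 ⟨(mem_Cz.1 hf).1, (mem_Cz.1 hf).2, hfb⟩
    have hf1 : ∀ r ∈ R, f⁻¹ * r * f ∈ R := by
      refine key f fun U h1 h2 => ⟨U.map (MulAut.conj f⁻¹).toMonoidHom, ?_, ?_,
        fun r hr => ru_conj hfr hZF hfF hr⟩
      · rintro _ ⟨e, he, rfl⟩
        change f⁻¹ * e * f⁻¹⁻¹ ∈ Z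
        rw [inv_inv]
        exact hZF f hfF e (h1 he)
      · intro h3
        apply h2
        rw [Subgroup.map_eq_bot_iff_of_injective _ (MulAut.conj f⁻¹).injective] at h3
        exact h3
    have hmK : m ∈ K := (mem_Cz.1 hm).1
    have hm1 : ∀ r ∈ R, m⁻¹ * r * m ∈ R := by
      have hmz : ∀ e ∈ Z, m * e = e * m := fun e he => ((hZ e he).2 m ⟨hm, hmi⟩).symm
      refine key m fun U h1 h2 => ⟨U, h1, h2, fun r hr => ru_inv h1 ?_ ?_ hr⟩
      · intro e he n hn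
        exact (hne G K a b c hfr e (hZ e he).1).2 m hmK (hmz e he) n hn
      · intro e he n hn
        have c1 : Commute m e := hmz e he
        have := (hne G K a b c hfr e (hZ e he).1).2 m⁻¹ (K.inv_mem hmK) c1.inv_left.eq n hn
        rwa [inv_inv] at this
    intro r hr
    have := hm1 _ (hf1 r hr)
    have e1 : m⁻¹ * (f⁻¹ * r * f) * m = (f * m)⁻¹ * r * (f * m) := by group
    rwa [e1] at this
  · intro U h1 h2 r h3 h4
    exact hUR U h1 h2 ⟨h3, h4⟩

end Pool.Agent.FourGp.FF.Wt
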