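import Pool.Agent.Lib.MP_fb3619_al.WT.Iface
import Pool.Agent.Lib.MP_fb3619_al.PQ.Iso
import Pool.Agent.Lib.MP_fb3619_al.BS.Ee

/-!
# MP_fb3619_al, board WT, row SNE: `β⁻¹ β^e` centralises `N(e)`.
-/

set_option autoImplicit false

universe u v

namespace Pool.Agent.FourGp.FF.Wt

open Pool.Agent.FourGp.H47 (Odd' inv_of_sq conj_inv_pow mul_inv_self odd_conj comm_of_inv
  mul_inv_self' comm_pow comm_inv conj_comm comm_conj)
open Pool.Agent.FourGp.H99 (LF)

/-- Row SNE. -/
theorem sne (pab : PabS.{u}) : SneS.{u} := by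
  intro G _ K a b c h hF hN X hX e he β hβX hβ hcom
  obtain ⟨hβK, hβb⟩ := mem_Cz.1 hβ.1
  have hβa := hβ.2
  obtain ⟨heK, hea, heb⟩ := mem_Fx.1 he.1
  -- `β ^ e`
  have hβe : Mi K b a (e⁻¹ * β * e) := by
    refine ⟨mem_Cz.2 ⟨h.cjk hβK, ?_⟩, ?_⟩
    · have c1 : Commute e b := heb
      have c2 : Commute β b := hβb
      exact ((c1.inv_left.mul_left c2).mul_left c1).eq
    · have c1 : Commute e a := hea
      have e1 : a * e⁻¹ = e⁻¹ * a := (c1.inv_left).eq.symm
      calc a * (e⁻¹ * β * e) * a = (a * e⁻¹) * β * (e * a) := by group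
        _ = (e⁻¹ * a) * β * (a * e) := by rw [e1, hea]
        _ = e⁻¹ * (a * β * a) * e := by group
        _ = (e⁻¹ * β * e)⁻¹ := by rw [hβa]; group
  obtain ⟨s, hs⟩ : ∃ s, s = β⁻¹ * (e⁻¹ * β * e) := ⟨_, rfl⟩
  have hsMi : Mi K b a s := by
    refine ⟨?_, ?_⟩
    · rw [hs]
      exact (Cz K b).mul_mem ((Cz K b).inv_mem hβ.1) hβe.1
    · have c1 : Commute β (e⁻¹ * β * e) := hcom
      have e1 : β * (e⁻¹ * β * e)⁻¹ = (e⁻¹ * β * e)⁻¹ * β := (c1.inv_right).eq
      have e2 : a * β⁻¹ * a = β := by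
        calc a * β⁻¹ * a = a * (a * β * a) * a := by rw [hβa]
          _ = (a * a) * β * (a * a) := by group
          _ = β := by rw [h.aa]; group
      calc a * s * a = a * β⁻¹ * 1 * (e⁻¹ * β * e) * a := by rw [hs]; group
        _ = a * β⁻¹ * (a * a) * (e⁻¹ * β * e) * a := by rw [h.aa]
        _ = (a * β⁻¹ * a) * (a * (e⁻¹ * β * e) * a) := by group
        _ = β * (e⁻¹ * β * e)⁻¹ := by rw [e2, hβe.2]
        _ = s⁻¹ := by rw [e1, hs]; group
  rw [← hs]
  have key : ∀ y, (Mi K b a y ∨ Mi K c a y) → y * e = e * y → s * y = y * s := by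
    rintro y (hy | hy) hye
    · -- `y` in the inverted part of `C_K(b)`
      obtain ⟨q, hqX, hqF, hq⟩ := hX.com y β hy hβ hβX
      have hqP : Pv K b a q := ⟨hqF, fun u hu => hX.cen q hqX hqF u hu⟩
      have hqe : e * q = q * e := (pab G K a b c h hF hN).2 e q he hqP
      have hqβ : q * β = β * q := hqP.2 β hβ
      have hqβe := hqP.2 _ hβe
      have c1 : Commute q e := hqe.symm
      have c2 : Commute y e := hye
      have h1 : (e⁻¹ * β * e)⁻¹ * y * (e⁻¹ * β * e) = q * y := by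
        have e1 : e * y * e⁻¹ = y := by rw [← hye]; group
        have e2 : e⁻¹ * (q * y) * e = q * y := by
          rw [mul_assoc, (c1.mul_left c2).eq]; group
        calc (e⁻¹ * β * e)⁻¹ * y * (e⁻¹ * β * e) = e⁻¹ * (β⁻¹ * (e * y * e⁻¹) * β) * e := by group
          _ = q * y := by rw [e1, hq, e2]
      have h2 : β * y * β⁻¹ = q⁻¹ * y := by
        have e1 : y = β * (q * y) * β⁻¹ := by rw [← hq]; group
        have e2 : β * (q * y) * β⁻¹ = q * (β * y * β⁻¹) := by
          rw [← mul_assoc β, ← hqβ]; group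
        calc β * y * β⁻¹ = q⁻¹ * (q * (β * y * β⁻¹)) := by group
          _ = q⁻¹ * y := by rw [← e2, ← e1]
      have h3 : s⁻¹ * y * s = y := by
        have c3 : Commute q (e⁻¹ * β * e) := hqβe
        have e1 : (e⁻¹ * β * e)⁻¹ * q⁻¹ = q⁻¹ * (e⁻¹ * β * e)⁻¹ :=
          (c3.inv_left.inv_right).eq.symm
        calc s⁻¹ * y * s = (e⁻¹ * β * e)⁻¹ * (β * y * β⁻¹) * (e⁻¹ * β * e) := by
              rw [hs]; group
          _ = ((e⁻¹ * β * e)⁻¹ * q⁻¹) * y * (e⁻¹ * β * e) := by rw [h2]; group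
          _ = q⁻¹ * ((e⁻¹ * β * e)⁻¹ * y * (e⁻¹ * β * e)) := by rw [e1]; group
          _ = y := by rw [h1]; group
      calc s * y = s * (s⁻¹ * y * s) := by rw [h3]
        _ = y * s := by group
    · -- `y` in the inverted part of `C_K(c)`
      obtain ⟨hyK, hyc⟩ := mem_Cz.1 hy.1
      obtain ⟨w, w0, hwK, hw0K, hk, hwa, hw0⟩ := h.dec (X := K) (z := a) le_rfl h.aa
        (fun u hu => h.cjmem h.aa hu) (h.cjk (g := y) hβK)
      have hβc := h.inv_c hβb hβa
      have hkc : c * (y⁻¹ * β * y) * c = (y⁻¹ * β * y)⁻¹ := by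
        have e1 : c * y⁻¹ = y⁻¹ * c := (comm_inv hyc).symm
        calc c * (y⁻¹ * β * y) * c = (c * y⁻¹) * β * (y * c) := by group
          _ = (y⁻¹ * c) * β * (c * y) := by rw [e1, hyc]
          _ = y⁻¹ * (c * β * c) * y := by group
          _ = (y⁻¹ * β * y)⁻¹ := by rw [hβc]; group
      have hwc : c * w * c = w⁻¹ :=
        Abo.comp_inv h (z := c) (k := y⁻¹ * β * y) h.cc h.cac.symm hkc hw0K hk hwa hw0
      have hwMi : Mi K a b w := by
        refine ⟨mem_Cz.2 ⟨hwK, hwa⟩, ?_⟩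
        calc b * w * b = (c * a) * w * (a * c) := by rw [h.ca, h.ac]
          _ = c * (a * w) * a * c := by group
          _ = c * (w * a) * a * c := by rw [hwa]
          _ = c * w * (a * a) * c := by group
          _ = w⁻¹ := by rw [h.aa, mul_one, hwc]
      have hwe : w * e = e * w := (he.2 w hwMi).symm
      have hfin := Bs.ee G K a b c h e y β w w0 he.1 hy hye hβ (by rw [← hs]; exact hsMi) hk
        (mem_Cz.2 ⟨hwK, hwa⟩) hw0 hwe
      rw [← hs] at hfin
      exact hfin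
  intro n hn
  unfold Ne at hn
  have hle : Subgroup.closure {u | (Mi K b a u ∨ Mi K c a u) ∧ u * e = e * u} ≤
      Subgroup.centralizer {s} := by
    rw [Subgroup.closure_le]
    rintro y ⟨hy1, hy2⟩
    rw [SetLike.mem_coe, Subgroup.mem_centralizer_singleton_iff]
    exact (key y hy1 hy2).symm
  have h1 := hle hn
  rw [Subgroup.mem_centralizer_singleton_iff] at h1
  exact h1.symm

end Pool.Agent.FourGp.FF.Wt
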