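import Pool.Agent.Lib.MP_fb3619_al.WT.Iface
import Pool.Agent.Lib.MP_fb3619_al.FF.Util

/-!
# MP_fb3619_al, board WT, row SUR: surjectivity of `x ↦ [e x e⁻¹, x]`.
-/

set_option autoImplicit false

universe u v

namespace Pool.Agent.FourGp.FF.Wt

section cm

variable {G : Type u} [Group G]

/-- The commutator. -/
def cmt (x y : G) : G := x⁻¹ * y⁻¹ * x * y

theorem cmt_inv (x y : G) : (cmt x y)⁻¹ = cmt y x := by
  unfold cmt; group

theorem cmt_conj (e x y : G) : e * cmt x y * e⁻¹ = cmt (e * x * e⁻¹) (e * y * e⁻¹) := by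
  unfold cmt; group

variable {X Q : Subgroup G} (hc : ∀ x ∈ X, ∀ y ∈ X, x⁻¹ * y⁻¹ * x * y ∈ Q)
  (hz : ∀ q ∈ Q, ∀ x ∈ X, q * x = x * q)

include hc hz

theorem cmt_mr {x y z : G} (hx : x ∈ X) (hy : y ∈ X) (hzX : z ∈ X) (hQ : Q ≤ X) :
    cmt x (y * z) = cmt x y * cmt x z := by
  have h1 : cmt x (y * z) = cmt x z * (z⁻¹ * cmt x y * z) := by unfold cmt; group
  have h2 : cmt x y * z = z * cmt x y := hz _ (hc x hx y hy) z hzX
  have h3 : z⁻¹ * cmt x y * z = cmt x y := by rw [mul_assoc, h2]; group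
  rw [h1, h3]
  exact hz _ (hc x hx z hzX) _ (hQ (hc x hx y hy))

theorem cmt_ml {x y z : G} (hx : x ∈ X) (hy : y ∈ X) (hzX : z ∈ X) :
    cmt (x * y) z = cmt x z * cmt y z := by
  have h1 : cmt (x * y) z = y⁻¹ * cmt x z * y * cmt y z := by unfold cmt; group
  have h2 : cmt x z * y = y * cmt x z := hz _ (hc x hx z hzX) y hy
  rw [h1, mul_assoc y⁻¹, h2]
  group

theorem cmt_il {x z : G} (hx : x ∈ X) (hzX : z ∈ X) : cmt x⁻¹ z = (cmt x z)⁻¹ := by
  have h1 := cmt_ml hc hz (X.inv_mem hx) hx hzX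
  rw [inv_mul_cancel] at h1
  have h2 : cmt 1 z = 1 := by unfold cmt; group
  rw [h2] at h1
  exact eq_inv_of_mul_eq_one_left h1.symm

end cm

/-- Row SUR. -/
theorem sur (idx : IdxS.{u}) (kap : KapS.{u, u}) : SurS.{u} := by
  classical
  intro G _ X Q e p hp hp2 he hQf hQX htor hc hz heX heQ hfin hU
  -- conjugation by the powers of `e`
  have hej : ∀ n : ℕ, ∀ x ∈ X, (e ^ n)⁻¹ * x * e ^ n ∈ X := by
    intro n
    induction n with
    | zero => intro x hx; simpa using hx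
    | succ n ih =>
      intro x hx
      have h1 := heX _ (ih x hx)
      have h2 : (e ^ (n + 1))⁻¹ * x * e ^ (n + 1) = e⁻¹ * ((e ^ n)⁻¹ * x * e ^ n) * e := by
        rw [pow_succ]; group
      rwa [h2]
  have hei : e⁻¹ = e ^ (p - 1) := by
    have h1 : e ^ (p - 1) * e = 1 := by
      rw [← pow_succ, Nat.sub_add_cancel hp.one_le, he]
    exact (eq_inv_of_mul_eq_one_left h1).symm
  have heX' : ∀ x ∈ X, e * x * e⁻¹ ∈ X := by
    intro x hx
    have h1 := hej (p - 1) x hx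
    rw [← hei, inv_inv] at h1
    exact h1
  have heQ' : ∀ q ∈ Q, e * q * e⁻¹ = q := by
    intro q hq
    rw [heQ q hq]; group
  -- the commutative group `Q`
  let iQ : CommGroup Q :=
    { (inferInstance : Group Q) with
      mul_comm := fun q r => Subtype.ext (hz q q.2 r (hQX r.2)) }
  have : Finite Q := hQf
  let κ : X → Q := fun x => ⟨cmt (e * x * e⁻¹) x, hc _ (heX' x x.2) x x.2⟩
  have hκ : ∀ x : X, (κ x : G) = cmt (e * x * e⁻¹) x := fun x => rfl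
  have hκm : ∀ x y : X, (κ (x * y) : G) =
      κ x * κ y * (cmt (e * x * e⁻¹) y * cmt (e * y * e⁻¹) x) := by
    intro x y
    have hx' := heX' x x.2
    have hy' := heX' y y.2
    have hq1 := hc _ hx' y y.2
    have hq2 := hc _ hy' x x.2
    have hq3 := hc _ hy' y y.2
    have hq4 := hc _ hx' x x.2
    rw [hκ, hκ, hκ]
    have h1 : e * ((x * y : X) : G) * e⁻¹ = (e * x * e⁻¹) * (e * y * e⁻¹) := by
      rw [Subgroup.coe_mul]; group
    rw [h1, cmt_ml hc hz hx' hy' (x * y).2, Subgroup.coe_mul, cmt_mr hc hz hx' x.2 y.2 hQX,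
      cmt_mr hc hz hy' x.2 y.2 hQX]
    have h2 : cmt (e * x * e⁻¹) y * (cmt (e * y * e⁻¹) x * cmt (e * y * e⁻¹) y) =
        cmt (e * y * e⁻¹) y * (cmt (e * x * e⁻¹) y * cmt (e * y * e⁻¹) x) := by
      rw [← mul_assoc]
      exact (hz _ hq3 _ (X.mul_mem (hQX hq1) (hQX hq2))).symm
    rw [mul_assoc, h2, ← mul_assoc]
  -- centralizers have finite index
  have hcen : ∀ z ∈ X, ∃ U : Subgroup X, U.index ≠ 0 ∧ ∀ y ∈ U, cmt z y = 1 := by
    intro z hzX
    let φ : X →* Q :=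
      { toFun := fun y => ⟨cmt z y, hc z hzX y y.2⟩
        map_one' := Subtype.ext (by change cmt z 1 = 1; unfold cmt; group)
        map_mul' := fun y y' => Subtype.ext (cmt_mr hc hz hzX y.2 y'.2 hQX) }
    refine ⟨φ.ker, ?_, ?_⟩
    · rw [Subgroup.index_ker]
      exact Nat.card_pos.ne'
    · intro y hy
      exact congrArg Subtype.val (MonoidHom.mem_ker.1 hy)
  obtain ⟨⟨X1, S, hX1, hS⟩, -⟩ := kap X Q κ (by
    intro x
    obtain ⟨U1, hU1, h1⟩ := hcen _ (heX' x x.2)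
    obtain ⟨U2, hU2, h2⟩ := hcen _ (heX x x.2)
    refine ⟨U1 ⊓ U2, Subgroup.index_inf_ne_zero hU1 hU2, ?_⟩
    intro y hy
    apply Subtype.ext
    rw [hκm, h1 y hy.1]
    have h3 : cmt (e * y * e⁻¹) x = 1 := by
      have h4 : cmt (e * y * e⁻¹) x = e * cmt (y : G) (e⁻¹ * x * e) * e⁻¹ := by
        rw [cmt_conj]
        congr 1
        group
      rw [h4, ← cmt_inv, h2 y hy.2]
      group
    rw [h3, one_mul, mul_one]
    rfl)
  -- in the group `G`
  let X1G : Subgroup G := X1.map X.subtype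
  let SG : Subgroup G := S.map Q.subtype
  have hX1le : X1G ≤ X := by
    rintro _ ⟨x, -, rfl⟩
    exact x.2
  have hX1m : ∀ x : X, (x : G) ∈ X1G ↔ x ∈ X1 := by
    intro x
    constructor
    · rintro ⟨y, hy, h⟩
      have h2 : y = x := Subtype.ext h
      rwa [h2] at hy
    · intro hx
      exact ⟨x, hx, rfl⟩
  have hSGm : ∀ q : Q, (q : G) ∈ SG ↔ q ∈ S := by
    intro x
    constructor
    · rintro ⟨y, hy, h⟩
      have h2 : y = x := Subtype.ext h
      rwa [h2] at hy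
    · intro hx
      exact ⟨x, hx, rfl⟩
  have hX1r : X1G.relIndex X ≠ 0 := by
    have h1 : X1G.subgroupOf X = X1 := by
      ext x
      rw [Subgroup.mem_subgroupOf]
      exact hX1m x
    rw [Subgroup.relIndex, h1]
    exact hX1
  have hSle : SG ≤ Q := by
    rintro _ ⟨x, -, rfl⟩
    exact x.2
  -- the basic relation
  have hrel : ∀ x ∈ X1G, ∀ y ∈ X1G, cmt (e * x * e⁻¹ * (e⁻¹ * x * e)⁻¹) y ∈ SG := by
    intro x hx y hy
    have hxX := hX1le hx
    have hyX := hX1le hy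
    have hx1 : (⟨x, hxX⟩ : X) ∈ X1 := (hX1m ⟨x, hxX⟩).1 hx
    have hy1 : (⟨y, hyX⟩ : X) ∈ X1 := (hX1m ⟨y, hyX⟩).1 hy
    have s1 : κ ⟨x, hxX⟩ ∈ S := (hS X1 le_rfl hX1 _).2 ⟨_, hx1, rfl⟩
    have s2 : κ ⟨y, hyX⟩ ∈ S := (hS X1 le_rfl hX1 _).2 ⟨_, hy1, rfl⟩
    have s3 : κ (⟨x, hxX⟩ * ⟨y, hyX⟩) ∈ S := (hS X1 le_rfl hX1 _).2 ⟨_, X1.mul_mem hx1 hy1, rfl⟩
    have s4 : (κ ⟨x, hxX⟩ * κ ⟨y, hyX⟩)⁻¹ * κ (⟨x, hxX⟩ * ⟨y, hyX⟩) ∈ S :=
      S.mul_mem (S.inv_mem (S.mul_mem s1 s2)) s3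
    have s5 := (hSGm _).2 s4
    have e1 : (((κ ⟨x, hxX⟩ * κ ⟨y, hyX⟩)⁻¹ * κ (⟨x, hxX⟩ * ⟨y, hyX⟩) : Q) : G) =
        cmt (e * x * e⁻¹) y * cmt (e * y * e⁻¹) x := by
      have h1 := hκm ⟨x, hxX⟩ ⟨y, hyX⟩
      calc (((κ ⟨x, hxX⟩ * κ ⟨y, hyX⟩)⁻¹ * κ (⟨x, hxX⟩ * ⟨y, hyX⟩) : Q) : G)
          = ((κ ⟨x, hxX⟩ : G) * κ ⟨y, hyX⟩)⁻¹ * (κ (⟨x, hxX⟩ * ⟨y, hyX⟩) : Q) := rfl
        _ = cmt (e * x * e⁻¹) y * cmt (e * y * e⁻¹) x := by rw [h1]; group
    rw [e1] at s5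
    have e2 : cmt (e * y * e⁻¹) x = (cmt (e⁻¹ * x * e) y)⁻¹ := by
      have h4 : cmt (e * y * e⁻¹) x = e * cmt (y : G) (e⁻¹ * x * e) * e⁻¹ := by
        rw [cmt_conj]
        congr 1
        group
      have h5 : cmt y (e⁻¹ * x * e) ∈ Q := hc y hyX _ (heX x hxX)
      rw [h4, heQ' _ h5, cmt_inv]
    rw [cmt_ml hc hz (heX' x hxX) (X.inv_mem (heX x hxX)) hyX, cmt_il hc hz (heX x hxX) hyX,
      ← e2]
    exact s5
  -- the subgroup `X2`
  let X2 : Subgroup G :=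
    { carrier := {x | x ∈ X ∧ ∀ y ∈ X1G, cmt x y ∈ SG}
      one_mem' := ⟨X.one_mem, fun y _ => by
        have : cmt 1 y = 1 := by unfold cmt; group
        rw [this]; exact SG.one_mem⟩
      mul_mem' := fun {x x'} hx hx' => ⟨X.mul_mem hx.1 hx'.1, fun y hy => by
        rw [cmt_ml hc hz hx.1 hx'.1 (hX1le hy)]
        exact SG.mul_mem (hx.2 y hy) (hx'.2 y hy)⟩
      inv_mem' := fun {x} hx => ⟨X.inv_mem hx.1, fun y hy => by
        rw [cmt_il hc hz hx.1 (hX1le hy)]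
        exact SG.inv_mem (hx.2 y hy)⟩ }
  have hX2Q : Q ≤ X2 := by
    intro q hq
    refine ⟨hQX hq, fun y hy => ?_⟩
    have h1 : q * y = y * q := hz q hq y (hX1le hy)
    have h2 : cmt q y = 1 := by
      unfold cmt
      rw [mul_assoc, h1]; group
    rw [h2]; exact SG.one_mem
  -- the subgroup `X1'`
  let X1c : Subgroup G := X1G.comap (MulAut.conj e).toMonoidHom
  have hX1c : ∀ x, x ∈ X1c ↔ e * x * e⁻¹ ∈ X1G := fun x => Iff.rfl
  have hX1cle : X1c ≤ X := by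
    intro x hx
    have h1 := heX _ (hX1le ((hX1c x).1 hx))
    have h2 : e⁻¹ * (e * x * e⁻¹) * e = x := by group
    rwa [h2] at h1
  have hX1cr : X1c.relIndex X ≠ 0 := by
    have h1 : X.map (MulAut.conj e).toMonoidHom = X := by
      ext x
      constructor
      · rintro ⟨y, hy, rfl⟩
        exact heX' y hy
      · intro hx
        refine ⟨e⁻¹ * x * e, heX x hx, ?_⟩
        change e * (e⁻¹ * x * e) * e⁻¹ = x
        group
    rw [Subgroup.relIndex_comap, h1]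
    exact hX1r
  have hzp : ∀ z ∈ Subgroup.zpowers e, ∃ n : ℕ, z = e ^ n := by
    intro z hz'
    have h1 : IsOfFinOrder e := isOfFinOrder_iff_pow_eq_one.2 ⟨p, hp.pos, he⟩
    obtain ⟨n, hn⟩ := h1.mem_zpowers_iff_mem_range_orderOf.1 hz' |> Finset.mem_image.1
    exact ⟨n, hn.2.symm⟩
  have hX2r : X2.relIndex X ≠ 0 := by
    refine idx G X Q (Subgroup.zpowers e) X1c X2 p hp hQf hQX htor hc hz ?_ ?_ ?_ ?_ ?_ ?_
      hX1cle hX1cr (fun x hx => hx.1) ?_
    · have h1 : IsOfFinOrder e := isOfFinOrder_iff_pow_eq_one.2 ⟨p, hp.pos, he⟩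
      exact h1.finite_zpowers
    · intro z hz'
      obtain ⟨n, rfl⟩ := hzp z hz'
      rw [← pow_mul, mul_comm, pow_mul, he, one_pow]
    · intro z hz1 z' hz2
      obtain ⟨n, rfl⟩ := hzp z hz1
      obtain ⟨m, rfl⟩ := hzp z' hz2
      rw [← pow_add, ← pow_add, add_comm]
    · intro z hz1 x hx
      obtain ⟨n, rfl⟩ := hzp z hz1
      exact hej n x hx
    · intro z hz1 q hq
      obtain ⟨n, rfl⟩ := hzp z hz1
      have : Commute e q := heQ q hq
      exact (this.pow_left n).eq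
    · refine hfin.subset ?_
      intro x hx
      exact ⟨hx.1, hx.2 e (Subgroup.mem_zpowers e)⟩
    · intro U hUZ e0 _ _
      refine ⟨(e ^ 2)⁻¹, (Subgroup.zpowers e).inv_mem (Subgroup.npow_mem_zpowers e 2), ?_, ?_⟩
      · have h1 : Subgroup.zpowers (e ^ 2)⁻¹ = Subgroup.zpowers e := by
          rw [Subgroup.zpowers_inv]
          apply le_antisymm
          · rw [Subgroup.zpowers_le]
            exact Subgroup.npow_mem_zpowers e 2
          · rw [Subgroup.zpowers_le]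
            have hodd : Odd p := hp.odd_of_ne_two hp2
            obtain ⟨k, hk⟩ := hodd
            have h2 : e = (e ^ 2) ^ (k + 1) := by
              have h3 : (e ^ 2) ^ (k + 1) = e ^ (2 * k + 1) * e := by
                rw [← pow_mul, ← pow_succ]
                congr 1
              rw [h3, ← hk, he, one_mul]
            have h4 : (e ^ 2) ^ (k + 1) ∈ Subgroup.zpowers (e ^ 2) :=
              Subgroup.npow_mem_zpowers (e ^ 2) (k + 1)
            rwa [← h2] at h4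
        rw [h1]
        exact sup_eq_right.2 hUZ
      · intro x hx _ _
        have hxX := hX1cle hx
        have hx1 := (hX1c x).1 hx
        have hxe := hX1le hx1
        have hxee := heX' _ hxe
        -- `(e² x e⁻²) x⁻¹` is in `X2`
        have h1 : e * (e * x * e⁻¹) * e⁻¹ * x⁻¹ ∈ X2 := by
          refine ⟨X.mul_mem hxee (X.inv_mem hxX), fun y hy => ?_⟩
          have h2 := hrel _ hx1 y hy
          have h3 : e⁻¹ * (e * x * e⁻¹) * e = x := by group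
          rwa [h3] at h2
        have h4 : x⁻¹ * (((e ^ 2)⁻¹)⁻¹ * x * (e ^ 2)⁻¹) =
            (e * (e * x * e⁻¹) * e⁻¹ * x⁻¹) * cmt (e * (e * x * e⁻¹) * e⁻¹ * x⁻¹) x := by
          have hW : ((e ^ 2)⁻¹)⁻¹ * x * (e ^ 2)⁻¹ = e * (e * x * e⁻¹) * e⁻¹ := by
            rw [inv_inv, pow_two, mul_inv_rev]
            simp only [mul_assoc]
          rw [hW]
          generalize e * (e * x * e⁻¹) * e⁻¹ = w
          unfold cmt
          group
        rw [h4]
        exact X2.mul_mem h1 (hX2Q (hc _ (X.mul_mem hxee (X.inv_mem hxX)) x hxX))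
  -- conclusion
  have hCm : Cm (X1G ⊓ X2) ≤ SG := by
    unfold Cm
    rw [Subgroup.closure_le]
    rintro z ⟨x, hx, y, hy, rfl⟩
    exact hx.2.2 y hy.1
  have hrI : (X1G ⊓ X2).relIndex X ≠ 0 := Subgroup.relIndex_inf_ne_zero hX1r hX2r
  have hQS := (hU (X1G ⊓ X2) (fun x hx => hX1le hx.1) hrI).trans hCm
  intro q hq
  have h1 : (⟨q, hq⟩ : Q) ∈ S := (hSGm ⟨q, hq⟩).1 (hQS hq)
  obtain ⟨x, -, hx⟩ := (hS X1 le_rfl hX1 _).1 h1
  exact ⟨x, x.2, congrArg Subtype.val hx⟩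

end Pool.Agent.FourGp.FF.Wt
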