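import Pool.Agent.Lib.MP_fb3619_al.WT.Pab
import Pool.Agent.Lib.MP_fb3619_al.FP.Base

/-!
# MP_fb3619_al, board WT, row W (paper 9): THEOREM W, at most one wild type.
-/

set_option autoImplicit false

universe u

namespace Pool.Agent.FourGp.FF.Wt

open Pool.Agent.FourGp.H47 (Odd' inv_of_sq conj_inv_pow mul_inv_self odd_conj comm_of_inv
  mul_inv_self' comm_pow comm_inv conj_comm comm_conj)
open Pool.Agent.FourGp.H99 (LF)
open Pool.Agent.FourGp.FF.Abo (XS)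
open Pool.Agent.FourGp.FF.Pq (TA)
open Pool.Agent.FourGp.FF.Bs (MinC Min0)
open Pool.Agent.FourGp.FF.Fr (fx_swap)

section w

variable {G : Type u} [Group G] {K : Subgroup G} {a b c : G} {X : Subgroup G}

theorem cm_le (_hX : XW K a b X) : Cm X ≤ X := by
  unfold Cm
  rw [Subgroup.closure_le]
  rintro z ⟨x, hx, y, hy, rfl⟩
  exact X.mul_mem (X.mul_mem (X.mul_mem (X.inv_mem hx) (X.inv_mem hy)) hx) hy

theorem cm_fx (hX : XW K a b X) : Cm X ≤ Fx K a b := by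
  unfold Cm
  rw [Subgroup.closure_le]
  rintro z ⟨x, hx, y, hy, rfl⟩
  exact hX.cm x hx y hy

theorem cm_pv (hX : XW K a b X) {q : G} (hq : q ∈ Cm X) : Pv K a b q :=
  ⟨cm_fx hX hq, hX.cen q (cm_le hX hq) (cm_fx hX hq)⟩

theorem cm_cex (hX : XW K a b X) {q x : G} (hq : q ∈ Cm X) (hx : x ∈ X) : q * x = x * q :=
  hX.cex q (cm_le hX hq) (cm_fx hX hq) x hx

theorem cm_conj (_h : Fr K a b c) (hX : XW K a b X) {f q : G} (hf : f ∈ Fx K a b)
    (hq : q ∈ Cm X) : f⁻¹ * q * f ∈ Cm X := by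
  have hfz : f ∈ Cz K a := mem_Cz.2 ⟨(mem_Fx.1 hf).1, (mem_Fx.1 hf).2.1⟩
  unfold Cm at hq ⊢
  induction hq using Subgroup.closure_induction with
  | mem z hz =>
    obtain ⟨x, hx, y, hy, rfl⟩ := hz
    exact Subgroup.subset_closure ⟨f⁻¹ * x * f, hX.nor f hfz x hx, f⁻¹ * y * f,
      hX.nor f hfz y hy, by group⟩
  | one => rw [mul_one, inv_mul_cancel]; exact Subgroup.one_mem _
  | mul x y _ _ h1 h2 =>
    have e : f⁻¹ * (x * y) * f = (f⁻¹ * x * f) * (f⁻¹ * y * f) := by group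
    rw [e]; exact Subgroup.mul_mem _ h1 h2
  | inv x _ h1 =>
    have e : f⁻¹ * x⁻¹ * f = (f⁻¹ * x * f)⁻¹ := by group
    rw [e]; exact Subgroup.inv_mem _ h1

/-- An element `e` of prime order in `Cm X_a` with finitely many fixed points in `C_K(b)`. -/
theorem w_elt (hQ : QS.{u}) (hC : CycS.{u}) (hm : MinC K a b c) (hX : XW K a b X)
    (hne : Cm X ≠ ⊥) : ∃ (p : ℕ) (e : G), p.Prime ∧ p ≠ 2 ∧ e ∈ Cm X ∧ e ≠ 1 ∧ e ^ p = 1 ∧
      {x | x ∈ Cz K b ∧ x * e = e * x}.Finite := by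
  classical
  have h := hm.fr
  have hF := hm.fin
  have hfin : ((Cm X : Subgroup G) : Set G).Finite := hF.subset (cm_fx hX)
  have : Finite (Cm X) := hfin.to_subtype
  have hcard : Nat.card (Cm X) ≠ 1 := fun e1 => hne (Subgroup.card_eq_one.1 e1)
  obtain ⟨p, hp, hpd⟩ := Nat.exists_prime_and_dvd hcard
  have : Fact p.Prime := ⟨hp⟩
  obtain ⟨z0, hz0⟩ := exists_prime_orderOf_dvd_card' p hpd
  have hzp : z0 ^ p = 1 := by rw [← hz0]; exact pow_orderOf_eq_one z0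
  have hz1 : z0 ≠ 1 := by
    intro e1
    rw [e1, orderOf_one] at hz0
    exact hp.one_lt.ne hz0
  have hab : ∀ x ∈ Cm X, ∀ y ∈ Cm X, x * y = y * x := fun x hx y hy =>
    cm_cex hX hx (cm_le hX hy)
  let Z : Subgroup G :=
    { carrier := {z | z ∈ Cm X ∧ z ^ p = 1}
      mul_mem' := by
        rintro x y ⟨hx, hxp⟩ ⟨hy, hyp⟩
        refine ⟨(Cm X).mul_mem hx hy, ?_⟩
        have c1 : Commute x y := hab x hx y hy
        rw [c1.mul_pow, hxp, hyp, one_mul]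
      one_mem' := ⟨(Cm X).one_mem, one_pow _⟩
      inv_mem' := by
        rintro x ⟨hx, hxp⟩
        exact ⟨(Cm X).inv_mem hx, by rw [inv_pow, hxp, inv_one]⟩ }
  have hZ : ∀ z, z ∈ Z ↔ z ∈ Cm X ∧ z ^ p = 1 := fun z => Iff.rfl
  have hZP : ∀ z ∈ Z, Pv K a b z := fun z hz => cm_pv hX hz.1
  have hZF : ∀ f ∈ Fx K a b, ∀ z ∈ Z, f⁻¹ * z * f ∈ Z := by
    rintro f hf z ⟨hz, hzp'⟩
    refine ⟨cm_conj h hX hf hz, ?_⟩
    have e1 : (f⁻¹ * z * f) ^ p = f⁻¹ * z ^ p * f := by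
      have := conj_pow (i := p) (a := f⁻¹) (b := z)
      rwa [inv_inv] at this
    rw [e1, hzp', mul_one, inv_mul_cancel]
  obtain ⟨e, he, hez⟩ := hC G K a b c hm Z hZP hZF p hp (fun z hz => hz.2)
    (fun z hz z' hz' => hab z hz.1 z' hz'.1)
  have hZne : Z ≠ ⊥ := by
    intro e1
    have h1 : z0.1 ∈ Z := ⟨z0.2, by
      have := congrArg Subtype.val hzp
      simpa using this⟩
    rw [e1, Subgroup.mem_bot] at h1
    exact hz1 (Subtype.ext h1)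
  obtain ⟨hfb, -⟩ := hQ G K a b c hm Z hZP hZF hZne
  refine ⟨p, e, hp, ?_, he.1, ?_, he.2, ?_⟩
  · intro e2
    subst e2
    have hK : z0.1 ∈ K := (mem_Fx.1 (cm_fx hX z0.2)).1
    have h2 : z0.1 * z0.1 = 1 := by
      have := congrArg Subtype.val hzp
      rw [← pow_two]
      simpa using this
    exact hz1 (Subtype.ext ((h.odd _ hK).eq_one h2))
  · intro e1
    rw [e1, Subgroup.zpowers_one_eq_bot] at hez
    exact hZne hez.symm
  · refine hfb.subset ?_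
    rintro x ⟨hx, hxe⟩
    refine ⟨hx, fun z hz => ?_⟩
    rw [← hez] at hz
    obtain ⟨n, rfl⟩ := Subgroup.mem_zpowers_iff.1 hz
    have c1 : Commute x e := hxe
    exact c1.zpow_right n

/-- The elements `m`. -/
theorem w_m (hS : SurS.{u}) (hP : PabS.{u}) (h : Fr K a b c) (hF : (Fx K a b : Set G).Finite)
    (hN : NoLf K a b) (hX : XW K b a X) {p : ℕ} (hp : p.Prime) (hp2 : p ≠ 2) {e f : G}
    (he : Pv K a b e) (hep : e ^ p = 1) (hfin : {x | x ∈ Cz K b ∧ x * e = e * x}.Finite)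
    (hf : f ∈ Cm X) : ∃ m, Mi K b a m ∧ Mi K b a (m * (e * m * e⁻¹) * f) := by
  have hPP := (hP G K a b c h hF hN).2
  have heK := mem_Fx.1 he.1
  have heb : e ∈ Cz K b := mem_Cz.2 ⟨heK.1, heK.2.2⟩
  have heF : e ∈ Fx K b a := by rw [fx_swap]; exact he.1
  have hqe : ∀ q ∈ X, q ∈ Fx K b a → e * q = q * e := fun q hq hqF =>
    hPP e q he ⟨hqF, hX.cen q hq hqF⟩
  obtain ⟨x, hx, hxq⟩ := hS G X (Cm X) e p hp hp2 hep
    ((by rw [fx_swap]; exact hF : (Fx K b a : Set G).Finite).subset (cm_fx hX)) (cm_le hX)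
    (fun x hx => by
      obtain ⟨n, hn⟩ := h.odd x (mem_Cz.1 (hX.le hx)).1
      exact ⟨2 * n + 1, by omega, hn⟩)
    (fun x hx y hy => Subgroup.subset_closure ⟨x, hx, y, hy, rfl⟩)
    (fun q hq x hx => cm_cex hX hq hx)
    (fun x hx => hX.nor e heb x hx)
    (fun q hq => hqe q (cm_le hX hq) (cm_fx hX hq))
    (hfin.subset fun x hx => ⟨hX.le hx.1, hx.2⟩)
    hX.stab (f * f) ((Cm X).mul_mem hf hf)
  -- decompose `x`
  obtain ⟨q, m, hq, hm, e1, h1, h2⟩ := h.dec (X := X) (hX.le.trans cz_le) h.aa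
    (fun u hu => hX.inv u hu) hx
  have hqF : q ∈ Fx K b a := mem_Fx.2 ⟨(mem_Cz.1 (hX.le hq)).1, (mem_Cz.1 (hX.le hq)).2, h1⟩
  have hmi : Mi K b a m := ⟨hX.le hm, h2⟩
  have hm' : Mi K b a (e * m * e⁻¹) := Pq.IsoR.mi_conj' heF hmi
  set m' := e * m * e⁻¹ with hm'def
  have hm'X : m' ∈ X := by
    have := hX.nor e⁻¹ ((Cz K b).inv_mem heb) m hm
    rwa [inv_inv] at this
  have e2 : e * x * e⁻¹ = q * m' := by
    rw [e1, hm'def]
    calc e * (q * m) * e⁻¹ = (e * q) * m * e⁻¹ := by group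
      _ = q * (e * m * e⁻¹) := by rw [hqe q hq hqF]; group
  have cq : ∀ y ∈ X, q * y = y * q := fun y hy => hX.cex q hq hqF y hy
  have e3 : m'⁻¹ * m⁻¹ * m' * m = f * f := by
    rw [← hxq, e2, e1]
    have c1 : Commute q m := cq m hm
    have c2 : Commute q m' := cq m' hm'X
    calc m'⁻¹ * m⁻¹ * m' * m = m'⁻¹ * (q⁻¹ * q) * m⁻¹ * (q⁻¹ * q) * m' * m := by group
      _ = m'⁻¹ * q⁻¹ * (q * m⁻¹) * q⁻¹ * (q * m') * m := by group
      _ = m'⁻¹ * q⁻¹ * (m⁻¹ * q) * q⁻¹ * (q * m') * m := by rw [c1.inv_right.eq]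
      _ = m'⁻¹ * q⁻¹ * m⁻¹ * (q * m') * m := by group
      _ = m'⁻¹ * q⁻¹ * m⁻¹ * (q⁻¹ * q) * (q * m') * m := by group
      _ = m'⁻¹ * q⁻¹ * m⁻¹ * q⁻¹ * (q * (q * m')) * m := by group
      _ = m'⁻¹ * q⁻¹ * m⁻¹ * q⁻¹ * (q * (m' * q)) * m := by rw [c2.eq]
      _ = (q * m')⁻¹ * (q * m)⁻¹ * (q * m') * (q * m) := by group
  have cf : ∀ y ∈ X, f * y = y * f := fun y hy => cm_cex hX hf hy
  have cfm : Commute f m := cf m hm
  have cfm' : Commute f m' := cf m' hm'X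
  refine ⟨m, hmi, ?_⟩
  have hfF := cm_fx hX hf
  refine ⟨(Cz K b).mul_mem ((Cz K b).mul_mem hmi.1 hm'.1)
    (mem_Cz.2 ⟨(mem_Fx.1 hfF).1, (mem_Fx.1 hfF).2.1⟩), ?_⟩
  have cfa : f * a = a * f := (mem_Fx.1 hfF).2.2
  have h3 : a * f * a = f := by rw [← cfa, mul_assoc, h.aa, mul_one]
  -- `a (m m' f) a = m⁻¹ m'⁻¹ f`
  have e4 : a * (m * m' * f) * a = m⁻¹ * m'⁻¹ * f := by
    calc a * (m * m' * f) * a = a * m * 1 * m' * 1 * f * a := by group
      _ = a * m * (a * a) * m' * (a * a) * f * a := by rw [h.aa]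
      _ = (a * m * a) * (a * m' * a) * (a * f * a) := by group
      _ = m⁻¹ * m'⁻¹ * f := by rw [h2, hm'.2, h3]
  rw [e4]
  have e5 : m' * m = m * m' * (f * f) := by
    calc m' * m = m * m' * (m'⁻¹ * m⁻¹ * m' * m) := by group
      _ = m * m' * (f * f) := by rw [e3]
  have c3 : Commute f (m * m') := cfm.mul_right cfm'
  have e6 : (m' * m)⁻¹ * f = (m * m' * f)⁻¹ := by
    rw [e5]
    calc (m * m' * (f * f))⁻¹ * f = f⁻¹ * f⁻¹ * (f⁻¹ * (m * m'))⁻¹ := by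
          rw [mul_inv_rev (m * m'), mul_inv_rev f f, mul_inv_rev f⁻¹, inv_inv, mul_assoc,
            mul_assoc]
      _ = f⁻¹ * f⁻¹ * ((m * m') * f⁻¹)⁻¹ := by rw [c3.inv_left.eq]
      _ = (m * m' * f)⁻¹ := by group
  rw [← e6, mul_inv_rev m' m]

end w

/-- THEOREM W: at most one wild type. -/
theorem w (hQ : QS.{u}) (hC : CycS.{u}) (hS : SurS.{u}) (hPi : PaiS.{u}) (hE : XweS.{u})
    (hT : XwtS.{u}) (hP : PabS.{u}) : WS.{u} := by
  intro G _ K a b c hm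
  have h := hm.fr
  have hF := hm.fin
  have hN := hm.nolf
  have hF' : (Fx K b a : Set G).Finite := by rw [fx_swap]; exact hF
  obtain ⟨X, hX⟩ := hE G K a b c h hF
  obtain ⟨Y, hY⟩ := hE G K b a c h.swap hF'
  by_cases h1 : Cm X = ⊥
  · exact Or.inl (hT G K a b c h hF X hX h1)
  by_cases h2 : Cm Y = ⊥
  · exact Or.inr (hT G K b a c h.swap hF' Y hY h2)
  exfalso
  obtain ⟨p, e, hp, hp2, he, he1, hep, hef⟩ := w_elt hQ hC hm hX h1
  obtain ⟨r, f, hr, hr2, hf, hf1, hfp, hff⟩ := w_elt hQ hC (Fp.minC_swap hm) hY h2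
  have hPe := cm_pv hX he
  have hPf := cm_pv hY hf
  obtain ⟨m, m1, m2⟩ := w_m hS hP h hF hN hY hp hp2 hPe hep hef hf
  obtain ⟨n, n1, n2⟩ := w_m hS hP h.swap hF' hN.swap hX hr hr2 hPf hfp hff he
  exact he1 (hPi G K a b c h hF hN e f m n hPe hPf m1 n1 m2 n2)

end Pool.Agent.FourGp.FF.Wt
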