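import Pool.Agent.Lib.MP_fb3619_al.WT.Iface
import Pool.Agent.Lib.MP_fb3619_al.FF.Shu
import Pool.Agent.Lib.MP_fb3619_al.H4.Abb

/-!
# MP_fb3619_al, board WT, row XWE (paper 1)
-/

set_option autoImplicit false

universe u v

namespace Pool.Agent.FourGp.FF.Wt

open Pool.Agent.FourGp.H47 (Odd' inv_of_sq conj_inv_pow mul_inv_self odd_conj comm_of_inv
  mul_inv_self' comm_pow comm_inv conj_comm comm_conj)
open Pool.Agent.FourGp.H99 (LF)
open Pool.Agent.FourGp.FF.Abo (XS cj_mul cj_inv cj_fix)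
open Pool.Agent.FourGp.FF.Pq (TA)
open Pool.Agent.FourGp.FF.Bs (MinC)

variable {G : Type u} [Group G] {K : Subgroup G} {a b c : G}

theorem Cm_mono {X Y : Subgroup G} (h : X ≤ Y) : Cm X ≤ Cm Y := by
  apply Subgroup.closure_mono
  rintro z ⟨x, hx, y, hy, e⟩
  exact ⟨x, h hx, y, h hy, e⟩

/-- `M`: generated by the inverted elements. -/
theorem mcl_nor (h : Fr K a b c) : ∀ d ∈ Cz K a, ∀ x ∈ Subgroup.closure {u | Mi K a b u},
    d⁻¹ * x * d ∈ Subgroup.closure {u | Mi K a b u} := by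
  intro d hd x hx
  set M := Subgroup.closure {u | Mi K a b u} with hM
  have hDb : ∀ u ∈ Cz K a, b * u * b ∈ Cz K a := fun u hu => h.cz_inv h.bb h.cab.symm hu
  obtain ⟨w, s, hw, hs, e, h1, h2⟩ := h.dec (X := Cz K a) cz_le h.bb hDb hd
  have hsM : s ∈ M := Subgroup.subset_closure ⟨hs, h2⟩
  have hwM : ∀ y ∈ M, w⁻¹ * y * w ∈ M := by
    intro y hy
    induction hy using Subgroup.closure_induction with
    | mem y hy =>
      refine Subgroup.subset_closure ⟨?_, ?_⟩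
      · exact (Cz K a).mul_mem ((Cz K a).mul_mem ((Cz K a).inv_mem hw) hy.1) hw
      · rw [cj_mul h.bb, cj_mul h.bb, cj_inv h.bb, cj_fix h.bb h1, hy.2]; group
    | one => rw [mul_one, inv_mul_cancel]; exact M.one_mem
    | mul y z _ _ hy hz =>
      have e1 : w⁻¹ * (y * z) * w = (w⁻¹ * y * w) * (w⁻¹ * z * w) := by group
      rw [e1]; exact M.mul_mem hy hz
    | inv y _ hy =>
      have e1 : w⁻¹ * y⁻¹ * w = (w⁻¹ * y * w)⁻¹ := by group
      rw [e1]; exact M.inv_mem hy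
  have e2 : d⁻¹ * x * d = s⁻¹ * (w⁻¹ * x * w) * s := by rw [e]; group
  rw [e2]
  exact M.mul_mem (M.mul_mem (M.inv_mem hsM) (hwM x hx)) hsM

theorem mcl_inv (h : Fr K a b c) : ∀ x ∈ Subgroup.closure {u | Mi K a b u},
    b * x * b ∈ Subgroup.closure {u | Mi K a b u} := by
  intro x hx
  set M := Subgroup.closure {u | Mi K a b u} with hM
  induction hx using Subgroup.closure_induction with
  | mem y hy => rw [hy.2]; exact M.inv_mem (Subgroup.subset_closure hy)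
  | one => rw [mul_one, h.bb]; exact M.one_mem
  | mul y z _ _ hy hz => rw [cj_mul h.bb]; exact M.mul_mem hy hz
  | inv y _ hy => rw [cj_inv h.bb]; exact M.inv_mem hy

theorem mcl_ind (h : Fr K a b c) (hF : (Fx K a b : Set G).Finite) :
    (Subgroup.closure {u | Mi K a b u}).relIndex (Cz K a) ≠ 0 := by
  have hDb : ∀ u ∈ Cz K a, b * u * b ∈ Cz K a := fun u hu => h.cz_inv h.bb h.cab.symm hu
  refine relIndex_of_cover (Fx K a b : Set G) hF ?_
  intro g hg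
  obtain ⟨w, s, hw, hs, e, h1, h2⟩ := h.dec (X := Cz K a) cz_le h.bb hDb ((Cz K a).inv_mem hg)
  have hwF : w ∈ Fx K a b := mem_Fx.2 ⟨(mem_Cz.1 hw).1, (mem_Cz.1 hw).2, h1⟩
  refine ⟨w⁻¹, (Fx K a b).inv_mem hwF, ?_⟩
  have e1 : g * w⁻¹⁻¹ = s⁻¹ := by
    have e2 : g = s⁻¹ * w⁻¹ := by rw [← mul_inv_rev, ← e, inv_inv]
    rw [e2]; group
  rw [e1]
  exact Subgroup.inv_mem _ (Subgroup.subset_closure ⟨hs, h2⟩)

/-- The core. -/
theorem xs_core (h : Fr K a b c) {X U : Subgroup G} (hX : XS K a b X) (_hU : U ≤ X)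
    (hUX : U.relIndex X ≠ 0) : ∃ N : Subgroup G, N ≤ U ∧ XS K a b N := by
  classical
  set D := Cz K a with hD
  have hDb : ∀ u ∈ D, b * u * b ∈ D := fun u hu => h.cz_inv h.bb h.cab.symm hu
  have hUD : U.relIndex D ≠ 0 := Subgroup.relIndex_ne_zero_trans hUX hX.ind
  have hfi : (U.subgroupOf D).FiniteIndex := ⟨hUD⟩
  let N0 : Subgroup G := ((U.subgroupOf D).normalCore).map D.subtype
  have hN0U : N0 ≤ U := by
    rintro _ ⟨x, hx, rfl⟩
    exact Subgroup.mem_subgroupOf.1 (Subgroup.normalCore_le _ hx)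
  have hN0D : N0 ≤ D := by
    rintro _ ⟨x, hx, rfl⟩
    exact x.2
  have hN0n : ∀ d ∈ D, ∀ x ∈ N0, d⁻¹ * x * d ∈ N0 := by
    rintro d hd _ ⟨x, hx, rfl⟩
    have h1 := (Subgroup.normalCore_normal (U.subgroupOf D)).conj_mem x hx (⟨d, hd⟩ : D)⁻¹
    exact ⟨_, h1, by simp⟩
  have hN0i : N0.relIndex D ≠ 0 := by
    have e : N0.subgroupOf D = (U.subgroupOf D).normalCore :=
      Subgroup.comap_map_eq_self_of_injective D.subtype_injective _
    unfold Subgroup.relIndex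
    rw [e]
    exact Subgroup.FiniteIndex.index_ne_zero
  let B : Subgroup G := N0.comap (MulAut.conj b).toMonoidHom
  have hmB : ∀ x, x ∈ B ↔ b * x * b ∈ N0 := by
    intro x
    show b * x * b⁻¹ ∈ N0 ↔ _
    rw [inv_of_sq h.bb]
  have hBi : B.relIndex D ≠ 0 := by
    obtain ⟨R, -, hR⟩ := cover_of_relIndex hN0i
    refine relIndex_of_cover ((fun r => b * r * b) '' (R : Set G)) (R.finite_toSet.image _) ?_
    intro g hg
    obtain ⟨r, hr, h1⟩ := hR _ (hDb g hg)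
    refine ⟨_, ⟨r, hr, rfl⟩, ?_⟩
    rw [hmB, cj_mul h.bb]
    have e1 : b * (b * r * b)⁻¹ * b = r⁻¹ := by
      rw [cj_inv h.bb]
      congr 1
      calc b * (b * r * b) * b = (b * b) * r * (b * b) := by group
        _ = r := by rw [h.bb, one_mul, mul_one]
    rw [e1]
    exact h1
  refine ⟨N0 ⊓ B, inf_le_left.trans hN0U, inf_le_left.trans hN0D,
    Subgroup.relIndex_inf_ne_zero hN0i hBi, ?_, ?_⟩
  · rintro d hd x ⟨hx, hxB⟩
    refine ⟨hN0n d hd x hx, ?_⟩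
    have h1 := (hmB x).1 hxB
    refine (hmB _).2 ?_
    rw [cj_mul h.bb, cj_mul h.bb, cj_inv h.bb]
    exact hN0n _ (hDb d hd) _ h1
  · rintro x ⟨hx, hxB⟩
    refine ⟨(hmB x).1 hxB, (hmB _).2 ?_⟩
    have e1 : b * (b * x * b) * b = x := by
      calc b * (b * x * b) * b = (b * b) * x * (b * b) := by group
        _ = x := by rw [h.bb, one_mul, mul_one]
    rw [e1]; exact hx

theorem xwe : XweS.{u} := by
  classical
  intro G _ K a b c h hF
  obtain ⟨X0, hX0, hcen0, hcom0⟩ := Abo.xs_ex shu h hF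
  set D := Cz K a with hD
  have hDb : ∀ u ∈ D, b * u * b ∈ D := fun u hu => h.cz_inv h.bb h.cab.symm hu
  set M := Subgroup.closure {u | Mi K a b u} with hM
  have hMi : ∀ u, Mi K a b u → u ∈ M := fun u hu => Subgroup.subset_closure hu
  set X1 := X0 ⊓ M with hX1
  have hXS1 : XS K a b X1 := by
    refine ⟨inf_le_left.trans hX0.le, Subgroup.relIndex_inf_ne_zero hX0.ind (mcl_ind h hF), ?_, ?_⟩
    · rintro d hd x ⟨hx, hxM⟩
      exact ⟨hX0.nor d hd x hx, mcl_nor h d hd x hxM⟩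
    · rintro x ⟨hx, hxM⟩
      exact ⟨hX0.inv x hx, mcl_inv h x hxM⟩
  -- properties of the subgroups of `X1`
  have hcen : ∀ e ∈ X1, e ∈ Fx K a b → ∀ u, Mi K a b u → e * u = u * e :=
    fun e he => hcen0 e he.1
  have hcex : ∀ e ∈ X1, e ∈ Fx K a b → ∀ x ∈ X1, e * x = x * e := by
    intro e he heF
    have key : ∀ x ∈ M, Commute e x := by
      intro x hxM
      induction hxM using Subgroup.closure_induction with
      | mem y hy => exact hcen e he heF y hy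
      | one => exact Commute.one_right e
      | mul y z _ _ hy hz => exact hy.mul_right hz
      | inv y _ hy => exact hy.inv_right
    exact fun x hx => key x hx.2
  have hcom : ∀ X : Subgroup G, XS K a b X → X ≤ X1 → ∀ w u, Mi K a b w → Mi K a b u → u ∈ X →
      ∃ e ∈ X, e ∈ Fx K a b ∧ u⁻¹ * w * u = e * w := by
    intro X hX hle w u hw hu huX
    obtain ⟨e, -, heF, e1⟩ := hcom0 w u hw hu (hle huX).1
    refine ⟨e, ?_, heF, e1⟩
    have e2 : e = u⁻¹ * ((w⁻¹)⁻¹ * u * w⁻¹) := by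
      calc e = (e * w) * w⁻¹ := by group
        _ = (u⁻¹ * w * u) * w⁻¹ := by rw [e1]
        _ = _ := by group
    rw [e2]
    exact X.mul_mem (X.inv_mem huX) (hX.nor w⁻¹ (D.inv_mem hw.1) u huX)
  have hcm : ∀ x ∈ X1, ∀ y ∈ X1, x⁻¹ * y⁻¹ * x * y ∈ X1 ∧ x⁻¹ * y⁻¹ * x * y ∈ Fx K a b := by
    intro x hx y hy
    refine ⟨X1.mul_mem (X1.mul_mem (X1.mul_mem (X1.inv_mem hx) (X1.inv_mem hy)) hx) hy, ?_⟩
    have hX1K : X1 ≤ K := hXS1.le.trans cz_le
    obtain ⟨q, s, hq, hs, ex, hq1, hs1⟩ := h.dec (X := X1) hX1K h.bb hXS1.inv hx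
    obtain ⟨q', s', hq', hs', ey, hq1', hs1'⟩ := h.dec (X := X1) hX1K h.bb hXS1.inv hy
    have hqF : q ∈ Fx K a b := mem_Fx.2 ⟨hX1K hq, (mem_Cz.1 (hXS1.le hq)).2, hq1⟩
    have hqF' : q' ∈ Fx K a b := mem_Fx.2 ⟨hX1K hq', (mem_Cz.1 (hXS1.le hq')).2, hq1'⟩
    have c1 : Commute q s := hcex q hq hqF s hs
    have c2 : Commute q s' := hcex q hq hqF s' hs'
    have c3 : Commute q' s := hcex q' hq' hqF' s hs
    have c4 : Commute q' s' := hcex q' hq' hqF' s' hs'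
    have c5 : Commute q q' := hcex q hq hqF q' hq'
    obtain ⟨e, he, heF, e1⟩ := hcom X1 hXS1 le_rfl s s' ⟨hXS1.le hs, hs1⟩ ⟨hXS1.le hs', hs1'⟩ hs'
    have c6 : Commute e s := hcex e he heF s hs
    have e2 : x⁻¹ * y⁻¹ * x * y = e := by
      calc x⁻¹ * y⁻¹ * x * y = s⁻¹ * q⁻¹ * (s'⁻¹ * q'⁻¹) * (q * s) * (q' * s') := by
            rw [ex, ey]; group
        _ = s⁻¹ * (q⁻¹ * s'⁻¹) * (q'⁻¹ * q) * (s * q') * s' := by group
        _ = s⁻¹ * (s'⁻¹ * q⁻¹) * (q * q'⁻¹) * (q' * s) * s' := by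
            rw [(c2.inv_inv).eq, (c5.inv_right).eq.symm, c3.eq]
        _ = s⁻¹ * (s'⁻¹ * s * s') := by group
        _ = s⁻¹ * (e * s) := by rw [e1]
        _ = s⁻¹ * (s * e) := by rw [c6.eq]
        _ = e := by group
    rw [e2]; exact heF
  have hCmF : ∀ X : Subgroup G, X ≤ X1 → Cm X ≤ Fx K a b := by
    intro X hX
    refine (Subgroup.closure_le _).2 ?_
    rintro z ⟨x, hx, y, hy, rfl⟩
    exact (hcm x (hX hx) y (hX hy)).2
  -- minimal commutator group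
  have hex : ∃ n, ∃ X, XS K a b X ∧ X ≤ X1 ∧ Nat.card (Cm X) = n := ⟨_, X1, hXS1, le_rfl, rfl⟩
  obtain ⟨X, hX, hXle, hcard⟩ := Nat.find_spec hex
  have hmin : ∀ X', XS K a b X' → X' ≤ X1 → Nat.card (Cm X) ≤ Nat.card (Cm X') := by
    intro X' hX' hle
    rw [hcard]
    exact Nat.find_min' hex ⟨X', hX', hle, rfl⟩
  refine ⟨X, ⟨hX, fun e he heF => hcen e (hXle he) heF,
    fun e he heF x hx => hcex e (hXle he) heF x (hXle hx), hcom X hX hXle,
    fun x hx y hy => (hcm x (hXle hx) y (hXle hy)).2, ?_⟩⟩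
  intro U hU hUi
  obtain ⟨N, hNU, hN⟩ := xs_core h hX hU hUi
  have hfin : Finite (Cm X) := (hF.subset (hCmF X hXle)).to_subtype
  have hle : Cm N ≤ Cm X := Cm_mono (hNU.trans hU)
  have heq := Subgroup.eq_of_le_of_card_ge hle (hmin N hN ((hNU.trans hU).trans hXle))
  rw [← heq]
  exact Cm_mono hNU

end Pool.Agent.FourGp.FF.Wt
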