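import Pool.Agent.Lib.MP_fb3619_al.WT.Iface
import Pool.Agent.Lib.MP_fb3619_al.FF.Shu
import Pool.Agent.Lib.MP_fb3619_al.H4.Abb

/-!
# MP_fb3619_al, board WT, row XWT (paper 1)
-/

set_option autoImplicit false

universe u v

namespace Pool.Agent.FourGp.FF.Wt

open Pool.Agent.FourGp.FF.Abo (XS cj_mul cj_inv cj_fix)
open Pool.Agent.FourGp.FF.Pq (TA)

variable {G : Type u} [Group G] {K : Subgroup G} {a b c : G}

theorem xwt : XwtS.{u} := by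
  classical
  intro G _ K a b c h hF X hX hCm
  set D := Cz K a with hD
  have hab : ∀ x ∈ X, ∀ y ∈ X, Commute x y := by
    intro x hx y hy
    have h1 : x⁻¹ * y⁻¹ * x * y ∈ Cm X := Subgroup.subset_closure ⟨x, hx, y, hy, rfl⟩
    rw [hCm, Subgroup.mem_bot] at h1
    show x * y = y * x
    calc x * y = y * x * (x⁻¹ * y⁻¹ * x * y) := by group
      _ = y * x := by rw [h1, mul_one]
  obtain ⟨S, hSf, hSi, hSr⟩ := Abo.xs_rep (b := b) hX.ind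
  have hX2 := Abo.xs_cent shu h hF hX.toXS S hSf hSi
  set X2 := X ⊓ Subgroup.centralizer {x | ∃ s ∈ S, ∃ g ∈ D, x = g⁻¹ * s * g} with hX2def
  have hTA : ∀ s ∈ X2, b * s * b = s⁻¹ → s ∈ TA K a b := by
    rintro s ⟨hs, hsC⟩ hsi
    refine (Pq.mem_TA h).2 ⟨⟨hX.le hs, hsi⟩, ?_⟩
    intro w hw
    obtain ⟨ρ, hρ, h1⟩ := hSr w hw
    have c1 : Commute s (w * ρ⁻¹) := hab s hs _ h1
    have c2 : Commute s ρ := (Subgroup.mem_centralizer_iff.1 hsC ρ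
      ⟨ρ, hρ, 1, D.one_mem, by group⟩).symm
    have c3 := c1.mul_right c2
    have e : w * ρ⁻¹ * ρ = w := by group
    rw [e] at c3
    exact c3
  obtain ⟨R, -, hR⟩ := cover_of_relIndex hX2.ind
  refine relIndex_of_cover (Set.image2 (fun q r => q * r) (Fx K a b : Set G) (R : Set G))
    (Set.Finite.image2 _ hF R.finite_toSet) ?_
  intro g hg
  obtain ⟨r, hr, h1⟩ := hR g hg
  obtain ⟨q, s, hq, hs, e, hq1, hs1⟩ := h.dec (X := X2) (hX2.le.trans cz_le) h.bb hX2.inv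
    (X2.inv_mem h1)
  have hqF : q ∈ Fx K a b :=
    mem_Fx.2 ⟨(mem_Cz.1 (hX2.le hq)).1, (mem_Cz.1 (hX2.le hq)).2, hq1⟩
  refine ⟨q⁻¹ * r, ⟨q⁻¹, (Fx K a b).inv_mem hqF, r, hr, rfl⟩, ?_⟩
  have e1 : g * (q⁻¹ * r)⁻¹ = s⁻¹ := by
    have e2 : g * r⁻¹ = s⁻¹ * q⁻¹ := by rw [← mul_inv_rev, ← e, inv_inv]
    calc g * (q⁻¹ * r)⁻¹ = (g * r⁻¹) * q := by group
      _ = s⁻¹ := by rw [e2]; group
  rw [e1]
  exact (TA K a b).inv_mem (hTA s hs hs1)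

end Pool.Agent.FourGp.FF.Wt
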