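import Pool.Agent.Lib.MP_fb3619_al.QQ.Main
import Pool.Agent.Lib.MP_fb3619_al.BS.Main
import Pool.Agent.Lib.MP_fb3619_al.BS.Gen
import Pool.Agent.Lib.MP_fb3619_al.WT.W
import Pool.Agent.Lib.MP_fb3619_al.WT.Sur
import Pool.Agent.Lib.MP_fb3619_al.WT.Kap
import Pool.Agent.Lib.MP_fb3619_al.WT.Ruc
import Pool.Agent.Lib.MP_fb3619_al.WT.Pab
import Pool.Agent.Lib.MP_fb3619_al.WT.Nne
import Pool.Agent.Lib.MP_fb3619_al.WT.Ada
import Pool.Agent.Lib.MP_fb3619_al.WT.Adb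
import Pool.Agent.Lib.MP_fb3619_al.WT.Adc
import Pool.Agent.Lib.MP_fb3619_al.WT.Add
import Pool.Agent.Lib.MP_fb3619_al.WT.Idx
import Pool.Agent.Lib.MP_fb3619_al.WT.Ncp
import Pool.Agent.Lib.MP_fb3619_al.WT.Rfi
import Pool.Agent.Lib.MP_fb3619_al.WT.Pai
import Pool.Agent.Lib.MP_fb3619_al.WT.Sne
import Pool.Agent.Lib.MP_fb3619_al.WT.Xwe
import Pool.Agent.Lib.MP_fb3619_al.WT.Cyc
import Pool.Agent.Lib.MP_fb3619_al.WT.Xwt

/-!
# MP_fb3619_al, board WT: assembly (uses THEOREM Q, `QQ/Main.lean`)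
-/

set_option autoImplicit false

universe u

namespace Pool.Agent.FourGp.FF.Wt

theorem add' : AddS.{u} := add ada adb

theorem idx' : IdxS.{u} := idx add' kap

theorem rfi' : RfiS.{u} := rfi xwe pab (sne pab) idx'

theorem ruc' : RucS.{u} := ruc Bs.ck' nne

theorem ncp' : NcpS.{u} := ncp Bs.gen ruc' rfi'

theorem cyc' : CycS.{u} := cyc Qt.qs ncp'

/-- WS: a homology group of a minimal counterexample centralises a subgroup of finite index. -/
theorem ws : WS.{u} := w Qt.qs cyc' (sur idx' kap) (pai pab) xwe xwt pab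

end Pool.Agent.FourGp.FF.Wt
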