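import Pool.Agent.Lib.MP_fb3619_al.WT.Iface

/-!
# MP_fb3619_al, board WT, row ADB: the index of `p V`
-/

set_option autoImplicit false

universe u

namespace Pool.Agent.FourGp.FF.Wt

theorem adb_one (V : Type u) [AddCommGroup V] (p : ℕ) (ht : ∀ v : V, ∃ n : ℕ, n ≠ 0 ∧ n • v = 0)
    (hfin : {v : V | p • v = 0}.Finite) : (nsmulAddMonoidHom (α := V) p).range.index ≠ 0 := by
  classical
  intro h0
  have hinf : Infinite (V ⧸ (nsmulAddMonoidHom (α := V) p).range) := by
    by_contra hc
    have : Finite (V ⧸ (nsmulAddMonoidHom (α := V) p).range) := not_infinite_iff_finite.mp hc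
    exact (Nat.card_pos (α := V ⧸ (nsmulAddMonoidHom (α := V) p).range)).ne' h0
  obtain ⟨s, hs⟩ := Infinite.exists_subset_card_eq (V ⧸ (nsmulAddMonoidHom (α := V) p).range)
    (Nat.card {v : V | p • v = 0} + 1)
  set T : Set V := (fun q : V ⧸ (nsmulAddMonoidHom (α := V) p).range => Quotient.out q) '' (s : Set _)
    with hT
  have hTf : T.Finite := s.finite_toSet.image _
  set V0 : AddSubgroup V := AddSubgroup.closure T with hV0
  have hfg : AddGroup.FG V0 := by
    rw [AddGroup.fg_iff_addSubgroup_fg]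
    exact (AddSubgroup.fg_iff V0).mpr ⟨T, rfl, hTf⟩
  have htor : IsAddTorsion V0 := by
    intro x
    obtain ⟨n, hn, hx⟩ := ht x
    exact isOfFinAddOrder_iff_nsmul_eq_zero.mpr ⟨n, Nat.pos_of_ne_zero hn, by
      ext
      simpa using hx⟩
  have hf0 : Finite V0 := AddCommGroup.finite_of_fg_isAddTorsion V0 htor
  let f0 : V0 →+ V0 := nsmulAddMonoidHom p
  let g : V0 →+ V ⧸ (nsmulAddMonoidHom (α := V) p).range :=
    (QuotientAddGroup.mk' _).comp V0.subtype
  have hfi := hfin.to_subtype
  have hk : Nat.card f0.ker ≤ Nat.card {v : V | p • v = 0} := by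
    refine Nat.card_le_card_of_injective (fun x => ⟨((x : V0) : V), ?_⟩) ?_
    · have h1 : f0 x.1 = 0 := x.2
      have h2 : ((p • (x : V0) : V0) : V) = 0 := by
        rw [show p • (x : V0) = f0 x.1 from rfl, h1]; rfl
      show p • ((x : V0) : V) = 0
      rw [← h2]
      rfl
    · intro x y hxy
      have := congrArg Subtype.val hxy
      exact Subtype.ext (Subtype.ext this)
  have hidx : f0.range.index = Nat.card f0.ker := by
    have e1 : Nat.card f0.ker * f0.ker.index = Nat.card V0 := f0.ker.card_mul_index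
    have e2 : Nat.card f0.range * f0.range.index = Nat.card V0 := f0.range.card_mul_index
    rw [AddSubgroup.index_ker] at e1
    have hpos : 0 < Nat.card f0.range := Nat.card_pos
    have : Nat.card f0.range * f0.range.index = Nat.card f0.range * Nat.card f0.ker := by
      rw [e2, ← e1, mul_comm]
    exact Nat.eq_of_mul_eq_mul_left hpos this
  have hle : f0.range ≤ g.ker := by
    rintro _ ⟨x, rfl⟩
    rw [AddMonoidHom.mem_ker]
    change (QuotientAddGroup.mk' _) ((f0 x : V0) : V) = 0
    rw [QuotientAddGroup.mk'_apply, QuotientAddGroup.eq_zero_iff]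
    exact ⟨(x : V), rfl⟩
  have hgi : g.ker.index ≤ f0.range.index :=
    Nat.le_of_dvd (Nat.pos_of_ne_zero (by rw [hidx]; exact Nat.card_pos.ne'))
      (AddSubgroup.index_dvd_of_le hle)
  rw [AddSubgroup.index_ker] at hgi
  have hgf : Finite g.range := Set.finite_range g |>.to_subtype
  have hsg : Nat.card (s : Set (V ⧸ (nsmulAddMonoidHom (α := V) p).range)) ≤ Nat.card g.range := by
    refine Nat.card_le_card_of_injective (fun x => ⟨(x : V ⧸ _), ?_⟩) ?_
    · have hx : (x : V ⧸ (nsmulAddMonoidHom (α := V) p).range) ∈ s := x.2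
      have hm : Quotient.out (x : V ⧸ (nsmulAddMonoidHom (α := V) p).range) ∈ V0 :=
        AddSubgroup.subset_closure ⟨_, hx, rfl⟩
      exact ⟨⟨_, hm⟩, Quotient.out_eq _⟩
    · intro x y hxy
      exact Subtype.ext (Subtype.mk.inj hxy)
  have hcs : Nat.card (s : Set (V ⧸ (nsmulAddMonoidHom (α := V) p).range)) = s.card := by
    simp
  omega

theorem adb : AdbS.{u} := by
  intro V _ p hp ht hfin m W hW
  have key : ∀ m : ℕ, (nsmulAddMonoidHom (α := V) (p ^ m)).range.index ≠ 0 := by
    intro m
    induction m with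
    | zero =>
      have : (nsmulAddMonoidHom (α := V) (p ^ 0)).range = ⊤ := by
        rw [AddMonoidHom.range_eq_top]
        intro v
        exact ⟨v, by simp⟩
      rw [this]
      simp
    | succ m ih =>
      have e : (nsmulAddMonoidHom (α := V) (p ^ (m + 1))).range =
          (nsmulAddMonoidHom (α := V) (p ^ m)).range.map (nsmulAddMonoidHom (α := V) p) := by
        ext v
        constructor
        · rintro ⟨w, rfl⟩
          refine ⟨p ^ m • w, ⟨w, rfl⟩, ?_⟩
          change p • p ^ m • w = p ^ (m + 1) • w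
          rw [pow_succ, mul_comm, mul_smul]
        · rintro ⟨_, ⟨w, rfl⟩, rfl⟩
          refine ⟨w, ?_⟩
          change p ^ (m + 1) • w = p • p ^ m • w
          rw [pow_succ, mul_comm, mul_smul]
      rw [e, AddSubgroup.index_map]
      refine mul_ne_zero ?_ (adb_one V p ht hfin)
      intro h0
      exact ih (Nat.eq_zero_of_zero_dvd (h0 ▸ AddSubgroup.index_dvd_of_le le_sup_left))
  intro h0
  refine key m (Nat.eq_zero_of_zero_dvd (h0 ▸ AddSubgroup.index_dvd_of_le (K := W) ?_))
  rintro _ ⟨v, rfl⟩
  exact hW v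

end Pool.Agent.FourGp.FF.Wt
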